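import Mathlib.MeasureTheory.Integral.Bochner.Basic
import Mathlib.MeasureTheory.Measure.Haar.OfBasis
import Mathlib.Analysis.Normed.Lp.MeasurableSpace
import Mathlib.Analysis.Calculus.ContDiff.Defs

/-! Quasiregular maps, with the conventions of the frozen statement S04151. -/

set_option autoImplicit false

open MeasureTheory

namespace Pool.Agent.MP_29b5d3_an.h48

/-- `Df` is of class `L^p` on every compact subset of `Ω`. -/
def LocLp {n : ℕ} (p : ENNReal) (Ω : Set (EuclideanSpace ℝ (Fin n)))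
    (Df : EuclideanSpace ℝ (Fin n) → (EuclideanSpace ℝ (Fin n) →L[ℝ] EuclideanSpace ℝ (Fin n))) :
    Prop :=
  ∀ C : Set (EuclideanSpace ℝ (Fin n)), IsCompact C → C ⊆ Ω → MemLp Df p (volume.restrict C)

/-- `Df` is the weak derivative of `f` in `Ω`. -/
def IsWeakDeriv {n : ℕ} (Ω : Set (EuclideanSpace ℝ (Fin n)))
    (f : EuclideanSpace ℝ (Fin n) → EuclideanSpace ℝ (Fin n))
    (Df : EuclideanSpace ℝ (Fin n) → (EuclideanSpace ℝ (Fin n) →L[ℝ] EuclideanSpace ℝ (Fin n))) :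
    Prop :=
  ∀ φ : EuclideanSpace ℝ (Fin n) → ℝ,
    ContDiff ℝ ((⊤ : ℕ∞) : WithTop ℕ∞) φ → HasCompactSupport φ → tsupport φ ⊆ Ω →
    ∀ v : EuclideanSpace ℝ (Fin n), ∫ x, (fderiv ℝ φ x v) • f x = -∫ x, φ x • Df x v

/-- The distortion inequality `‖Df‖ ^ n ≤ K det Df` almost everywhere in `Ω`. -/
def Distortion {n : ℕ} (K : ℝ) (Ω : Set (EuclideanSpace ℝ (Fin n)))
    (Df : EuclideanSpace ℝ (Fin n) → (EuclideanSpace ℝ (Fin n) →L[ℝ] EuclideanSpace ℝ (Fin n))) :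
    Prop :=
  ∀ᵐ x ∂(volume.restrict Ω), ‖Df x‖ ^ n ≤ K * LinearMap.det
    ((Df x : EuclideanSpace ℝ (Fin n) →L[ℝ] EuclideanSpace ℝ (Fin n)) :
      EuclideanSpace ℝ (Fin n) →ₗ[ℝ] EuclideanSpace ℝ (Fin n))

/-- `f` is `K`-quasiregular on the open set `Ω`, with weak derivative `Df`. -/
def IsQR {n : ℕ} (K : ℝ) (Ω : Set (EuclideanSpace ℝ (Fin n)))
    (f : EuclideanSpace ℝ (Fin n) → EuclideanSpace ℝ (Fin n))
    (Df : EuclideanSpace ℝ (Fin n) → (EuclideanSpace ℝ (Fin n) →L[ℝ] EuclideanSpace ℝ (Fin n))) :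
    Prop :=
  IsOpen Ω ∧ ContinuousOn f Ω ∧ LocLp (n : ENNReal) Ω Df ∧ IsWeakDeriv Ω f Df ∧ Distortion K Ω Df

/-- `f (Q x) = Q (f x)` whenever `x` and `Q x` lie in `Ω`. -/
def Commutes {n : ℕ} (Ω : Set (EuclideanSpace ℝ (Fin n)))
    (f Q : EuclideanSpace ℝ (Fin n) → EuclideanSpace ℝ (Fin n)) : Prop :=
  ∀ x ∈ Ω, Q x ∈ Ω → f (Q x) = Q (f x)

/-- `Q` is a rotation (a linear isometry of determinant one) that fixes every vector orthogonal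
to `W`. -/
def IsRotationOf {n : ℕ} (W : Submodule ℝ (EuclideanSpace ℝ (Fin n)))
    (Q : EuclideanSpace ℝ (Fin n) ≃ₗᵢ[ℝ] EuclideanSpace ℝ (Fin n)) : Prop :=
  LinearMap.det (Q.toLinearEquiv : EuclideanSpace ℝ (Fin n) →ₗ[ℝ] EuclideanSpace ℝ (Fin n)) = 1 ∧
    ∀ v ∈ Wᗮ, Q v = v

end Pool.Agent.MP_29b5d3_an.h48
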