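import Pool.Agent.MP_29b5d3_an.h48.Classes
import Pool.Agent.MP_29b5d3_an.h48.Defs

/-! Translation to the definitions of the hand-ins. -/

set_option autoImplicit false

open MeasureTheory

namespace Pool.Agent.MP_29b5d3_an.h48

theorem IsQR.sobOn {n : ℕ} {K : ℝ} {Ω : Set (EuclideanSpace ℝ (Fin n))}
    {f : EuclideanSpace ℝ (Fin n) → EuclideanSpace ℝ (Fin n)}
    {Df : EuclideanSpace ℝ (Fin n) → (EuclideanSpace ℝ (Fin n) →L[ℝ] EuclideanSpace ℝ (Fin n))}
    (h : IsQR K Ω f Df) : SobOn volume Ω f Df ∧ ∀ᵐ x ∂(volume.restrict Ω),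
      ‖Df x‖ ^ Module.finrank ℝ (EuclideanSpace ℝ (Fin n)) ≤ K * (Df x).det := by
  obtain ⟨h1, h2, h3, h4, h5⟩ := h
  exact ⟨⟨h1, h2, by rw [finrank_euclideanSpace_fin]; exact h3, h4⟩,
    by rw [finrank_euclideanSpace_fin]; exact h5⟩

theorem isQR_rad {n : ℕ} (hn : 1 ≤ n) {K : ℝ} (hK : 1 < K) :
    IsQR (n := n) K Set.univ (rad ((1 / K - 1) / 2) 0) (Drad ((1 / K - 1) / 2) 0) := by
  have e : Module.finrank ℝ (EuclideanSpace ℝ (Fin n)) = n := finrank_euclideanSpace_fin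
  have k0 : 0 < 1 / K := by positivity
  have k1 : 1 / K < 1 := by rw [div_lt_one (by linarith)]; exact hK
  have s := sobOn_rad (E := EuclideanSpace ℝ (Fin n)) (μ := volume) (by omega)
    (a := (1 / K - 1) / 2) (by linarith) (by linarith)
  have q := qr_rad (E := EuclideanSpace ℝ (Fin n)) (by omega) hK
  have l := s.lp
  rw [e] at q l
  exact ⟨s.op, s.cont, l, s.weak, Filter.Eventually.of_forall q⟩

theorem lt_of_locLp_rad {n : ℕ} (hn : 1 ≤ n) {K p : ℝ} (hK : 1 < K) (hp : 0 < p)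
    (h : LocLp (n := n) (ENNReal.ofReal p) Set.univ (Drad ((1 / K - 1) / 2) 0)) :
    p < n * K / (K - 1) := by
  have e : Module.finrank ℝ (EuclideanSpace ℝ (Fin n)) = n := finrank_euclideanSpace_fin
  have r := lt_of_memLp_rad (by omega) hK hp (h _ (isCompact_closedBall 0 1) (Set.subset_univ _))
  rwa [e] at r

end Pool.Agent.MP_29b5d3_an.h48
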