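import Mathlib.LinearAlgebra.FreeModule.PID
import Mathlib.RingTheory.Flat.FaithfullyFlat.Basic
import Mathlib.Topology.Sheaves.Presheaf
import Mathlib.Tactic.Monotonicity.Lemmas
import Mathlib.RingTheory.Flat.TorsionFree
import Mathlib.LinearAlgebra.Lagrange
import Mathlib.LinearAlgebra.FreeModule.Determinant
import Mathlib.Algebra.Order.Archimedean.Real.Hom
import Mathlib.Algebra.Ring.IsFormallyReal
import Mathlib.Analysis.Calculus.BumpFunction.Convolution
import Mathlib.Analysis.Calculus.LineDeriv.IntegrationByParts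
import Mathlib.Geometry.Manifold.PartitionOfUnity
import Mathlib.Analysis.InnerProductSpace.NormDet
import Mathlib.Topology.MetricSpace.Contracting
import Mathlib.Analysis.SpecialFunctions.Pow.Integral
import Mathlib.LinearAlgebra.Transvection.Basic
import Mathlib.RingTheory.SimpleRing.Principal
import Mathlib.Order.CompletePartialOrder
import Mathlib.Tactic.Algebra.Basic
import Mathlib.Topology.UniformSpace.Uniformizable

-- ======== part 0: formerly Pool.Agent.MP_29b5d3_an.h48.LinAlg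
section MrgPart0

/-! Linear algebra for rotation invariant quasiregular maps: Hadamard type bounds and the
pointwise positivity of a null Lagrangian. -/

set_option autoImplicit false

namespace Pool.Agent.MP_29b5d3_an.h48

open Module Finset
open scoped RealInnerProductSpace

variable {E : Type*} [NormedAddCommGroup E] [InnerProductSpace ℝ E] [FiniteDimensional ℝ E]

omit [FiniteDimensional ℝ E] in
theorem had {ι : Type*} [Fintype ι] (b : OrthonormalBasis ι ℝ E) (B : E →L[ℝ] E) :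
    |B.det| ≤ ∏ i, ‖B (b i)‖ := by
  classical
  let e := Fintype.equivFin ι
  let c := b.reindex e
  have : Fact (finrank ℝ E = Fintype.card ι) := ⟨finrank_eq_card_basis b.toBasis⟩
  have h1 := c.toBasis.orientation.abs_volumeForm_apply_le fun i => B (c i)
  rw [Orientation.volumeForm_robust' _ c] at h1
  have h2 := c.toBasis.det_comp (B : E →ₗ[ℝ] E) c.toBasis
  rw [Basis.det_self, mul_one] at h2
  have h3 : ∏ i, ‖B (c i)‖ = ∏ i, ‖B (b i)‖ := by
    rw [← Equiv.prod_comp e]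
    simp [c]
  rw [← h3, ContinuousLinearMap.det, ← h2]
  exact h1

theorem abs_det_le (B : E →L[ℝ] E) : |B.det| ≤ ‖B‖ ^ finrank ℝ E := by
  refine (had (stdOrthonormalBasis ℝ E) B).trans ?_
  calc _ ≤ ∏ _i : Fin (finrank ℝ E), ‖B‖ := prod_le_prod (fun _ _ => norm_nonneg _) fun i _ => by
        simpa using B.le_opNorm (stdOrthonormalBasis ℝ E i)
    _ = _ := by simp

theorem det_comp_rank_one (A : E →L[ℝ] E) (l : E →L[ℝ] ℝ) (z : E) :
    (A + l.smulRight (A z)).det = A.det * (1 + l z) := by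
  have h : ((A + l.smulRight (A z) : E →L[ℝ] E) : E →ₗ[ℝ] E) =
      (A : E →ₗ[ℝ] E) ∘ₗ LinearMap.transvection (l : E →ₗ[ℝ] ℝ) z := by
    ext x
    simp [LinearMap.transvection.apply]
  rw [ContinuousLinearMap.det, h, LinearMap.det_comp, LinearMap.transvection.det]
  rfl

theorem apply_inverse {A : E →L[ℝ] E} (hA : A.det ≠ 0) (y : E) : A (A.inverse y) = y := by
  have h : A.IsInvertible := ⟨A.toContinuousLinearEquivOfDetNeZero hA, by simp⟩
  exact h.self_apply_inverse y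

theorem det_add_rank_one {A : E →L[ℝ] E} (hA : A.det ≠ 0) (l : E →L[ℝ] ℝ) (a : E) :
    (A + l.smulRight a).det = A.det * (1 + l (A.inverse a)) := by
  rw [← det_comp_rank_one, apply_inverse hA]

theorem det_rank_one (h2 : 2 ≤ finrank ℝ E) (l : E →L[ℝ] ℝ) (a : E) :
    (l.smulRight a).det = 0 := by
  by_contra h
  have h1 : (⊤ : Submodule ℝ E) ≤ Submodule.span ℝ {a} := fun y _ => by
    rw [← apply_inverse h y, ContinuousLinearMap.smulRight_apply]
    exact Submodule.smul_mem _ _ (Submodule.mem_span_singleton_self a)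
  have h3 := Submodule.finrank_mono h1
  have h4 := finrank_span_le_card (R := ℝ) ({a} : Set E)
  rw [finrank_top] at h3
  simp only [Set.toFinset_singleton, card_singleton] at h4
  omega

theorem low {d M : ℕ} (hn : finrank ℝ E = d + 1 + M) (A : E →L[ℝ] E) {t : Fin d → E}
    (ht : Orthonormal ℝ t) {u : ℝ} (hu : ∀ i, ‖A (t i)‖ ≤ u) {x w : E}
    (hx : ∀ i, ⟪t i, x⟫ = 0) (hw : w ∈ Submodule.span ℝ (Set.range t)) :
    |A.det| * ‖x‖ ≤ u ^ d * ‖A‖ ^ M * ‖A (x + w)‖ := by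
  classical
  have u0 : 0 ≤ u ^ d := by
    rcases d with _ | d
    · simp
    · exact pow_nonneg ((norm_nonneg _).trans (hu 0)) _
  rcases eq_or_ne x 0 with rfl | x0
  · rw [norm_zero, mul_zero]; positivity
  have r0 : 0 < ‖x‖ := norm_pos_iff.2 x0
  set e : E := ‖x‖⁻¹ • x with he
  have e1 : ‖e‖ = 1 := norm_smul_inv_norm x0
  have e2 : ∀ i, ⟪t i, e⟫ = 0 := fun i => by rw [he, inner_smul_right, hx, mul_zero]
  have e3 : ∀ i, ⟪e, t i⟫ = 0 := fun i => by rw [real_inner_comm, e2]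
  have e4 : ⟪e, w⟫ = 0 := by
    refine Submodule.span_induction (p := fun w _ => ⟪e, w⟫ = 0) ?_ (by simp) ?_ ?_ hw
    · rintro _ ⟨i, rfl⟩; exact e3 i
    · intro a b _ _ ha hb; rw [inner_add_right, ha, hb, add_zero]
    · intro c a _ ha; rw [inner_smul_right, ha, mul_zero]
  have e5 : ⟪e, e⟫ = 1 := by rw [real_inner_self_eq_norm_sq, e1]; norm_num
  let v : Option (Fin d) ⊕ Fin M → E := Sum.elim (fun o => o.elim e t) 0
  have hv : Orthonormal ℝ ((Set.range Sum.inl).domRestrict v) := by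
    rw [orthonormal_iff_ite]
    rintro ⟨_, i, rfl⟩ ⟨_, j, rfl⟩
    rcases i with _ | i <;> rcases j with _ | j
    · simp [v, e1]
    · simp [v, e3]
    · simp [v, e2]
    · simp [v, orthonormal_iff_ite.1 ht i j]
  obtain ⟨b, hb⟩ := hv.exists_orthonormalBasis_extension_of_card_eq (by simp [hn])
  have b1 : b (Sum.inl none) = e := hb _ ⟨_, rfl⟩
  have b2 : ∀ i, b (Sum.inl (some i)) = t i := fun i => hb _ ⟨_, rfl⟩
  have b3 : ∀ j, ⟪e, b (Sum.inr j)⟫ = 0 := fun j => by
    rw [← b1]; exact b.orthonormal.2 (by simp)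
  have h1 := had b (A + (innerSL ℝ e).smulRight (A (‖x‖⁻¹ • w)))
  rw [det_comp_rank_one, Fintype.prod_sum_type, Fintype.prod_option] at h1
  simp only [innerSL_apply_apply, inner_smul_right, e4, mul_zero, add_zero, mul_one, b1, b2,
    add_apply, ContinuousLinearMap.smulRight_apply, e3, b3, e5, zero_smul,
    one_smul] at h1
  have h2 : ‖A e + A (‖x‖⁻¹ • w)‖ = ‖x‖⁻¹ * ‖A (x + w)‖ := by
    rw [he, ← map_add, ← smul_add, map_smul, norm_smul, norm_inv, norm_norm]
  have h3 : ∏ i, ‖A (t i)‖ ≤ u ^ d :=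
    (prod_le_prod (fun _ _ => norm_nonneg _) fun i _ => hu i).trans (by simp)
  have h4 : ∏ j, ‖A (b (Sum.inr j))‖ ≤ ‖A‖ ^ M :=
    (prod_le_prod (fun _ _ => norm_nonneg _) fun j _ => by
      simpa using A.le_opNorm (b (Sum.inr j))).trans (by simp)
  rw [h2] at h1
  calc _ ≤ ‖x‖⁻¹ * ‖A (x + w)‖ * u ^ d * ‖A‖ ^ M * ‖x‖ := by
        refine mul_le_mul_of_nonneg_right (h1.trans ?_) r0.le
        gcongr
    _ = _ := by field_simp

theorem adj_le {M : ℕ} (hn : finrank ℝ E = M + 1) (A : E →L[ℝ] E) (y : E) :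
    ‖A.det • A.inverse y‖ ≤ ‖A‖ ^ M * ‖y‖ := by
  rcases eq_or_ne A.det 0 with h | h
  · rw [h, zero_smul, norm_zero]; positivity
  have := low (d := 0) (M := M) (by omega) A (t := Fin.elim0) (by simp) (u := 0)
    (fun i => i.elim0) (x := A.inverse y) (w := 0) (fun i => i.elim0) (Submodule.zero_mem _)
  rwa [pow_zero, one_mul, add_zero, apply_inverse h, ← Real.norm_eq_abs, ← norm_smul] at this

omit [FiniteDimensional ℝ E] in
theorem sos {a b : ℝ} (ha : 0 < a) (hb : a ≤ b) {e z g y : E} (he : ‖e‖ = 1) (hy : ‖y‖ = 1)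
    (h0 : a * ‖z‖ ≤ 1) (h1 : ‖g‖ ≤ b) (h2 : ‖g - a • y‖ ≤ b * ‖e - a • z‖)
    (h3 : a * ‖e - b • z‖ ≤ ‖g - b • y‖) : a * b * ⟪e, z⟫ + ⟪g, y⟫ ≤ a + b := by
  rcases hb.eq_or_lt with rfl | hb
  · have k1 := real_inner_le_norm e z
    have k2 := real_inner_le_norm g y
    rw [he, one_mul] at k1
    rw [hy, mul_one] at k2
    nlinarith [mul_le_mul_of_nonneg_left k1 ha.le]
  have k2 := pow_le_pow_left₀ (norm_nonneg _) h2 2
  have k3 := pow_le_pow_left₀ (by positivity) h3 2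
  have b0 : 0 < b := ha.trans hb
  simp only [mul_pow, norm_sub_sq_real, norm_smul, inner_smul_right, he, hy, Real.norm_eq_abs,
    sq_abs] at k2 k3
  refine le_of_mul_le_mul_left ?_ (sub_pos.2 hb)
  nlinarith

theorem key {d M : ℕ} (hn : finrank ℝ E = d + 1 + M) {A : E →L[ℝ] E} (hA : 0 < A.det)
    {t : Fin d → E} (ht : Orthonormal ℝ t) {u : ℝ} (hu : ∀ i, ‖A (t i)‖ ≤ u) {e y : E}
    (he : ‖e‖ = 1) (hy : ‖y‖ = 1) (h1 : ∀ i, ⟪t i, e⟫ = 0) (h2 : ∀ i, ⟪A (t i), y⟫ = 0)
    {a b : ℝ} (ha : 0 < a) (hab : a ≤ b) (h3 : a * (u ^ d * ‖A‖ ^ M) ≤ A.det) (h4 : ‖A‖ ≤ b) :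
    a * b * ⟪e, A.inverse y⟫ + ⟪A e, y⟫ ≤ a + b := by
  set T : Submodule ℝ E := Submodule.span ℝ (Set.range t) with hT
  set T' : Submodule ℝ E := T.map (A : E →ₗ[ℝ] E) with hT'
  have tT : ∀ i, t i ∈ T := fun i => Submodule.subset_span ⟨i, rfl⟩
  have eT : ∀ w ∈ T, ⟪w, e⟫ = 0 := fun w hw => by
    refine Submodule.span_induction (p := fun w _ => ⟪w, e⟫ = 0) ?_ (by simp) ?_ ?_ hw
    · rintro _ ⟨i, rfl⟩; exact h1 i
    · intro a b _ _ ha hb; rw [inner_add_left, ha, hb, add_zero]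
    · intro c a _ ha; rw [real_inner_smul_left, ha, mul_zero]
  have yT : y ∈ T'ᗮ := by
    rintro _ ⟨w, hw, rfl⟩
    refine Submodule.span_induction (p := fun w _ => ⟪(A : E →ₗ[ℝ] E) w, y⟫ = 0) ?_ (by simp)
      ?_ ?_ hw
    · rintro _ ⟨i, rfl⟩; exact h2 i
    · intro a b _ _ ha hb; rw [map_add, inner_add_left, ha, hb, add_zero]
    · intro c a _ ha; rw [map_smul, real_inner_smul_left, ha, mul_zero]
  have lo : ∀ x w : E, (∀ i, ⟪t i, x⟫ = 0) → w ∈ T → a * ‖x‖ ≤ ‖A (x + w)‖ := fun x w hx hw => by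
    have k := low hn A ht hu hx hw
    rw [abs_of_pos hA] at k
    refine le_of_mul_le_mul_left ?_ hA
    calc _ = a * (A.det * ‖x‖) := by ring
      _ ≤ a * (u ^ d * ‖A‖ ^ M * ‖A (x + w)‖) := by gcongr
      _ = a * (u ^ d * ‖A‖ ^ M) * ‖A (x + w)‖ := by ring
      _ ≤ _ := by gcongr
  set z0 := A.inverse y with hz0
  have z1 : A z0 = y := apply_inverse hA.ne' y
  set w := T.starProjection z0 with hw
  have wT : w ∈ T := T.starProjection_apply_mem z0
  set z := z0 - w with hz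
  have z2 : ∀ i, ⟪t i, z⟫ = 0 := fun i => T.sub_starProjection_mem_orthogonal z0 _ (tT i)
  have z3 : A (z + w) = y := by rw [hz, sub_add_cancel, z1]
  obtain ⟨w', w'T, hw'⟩ : T'.starProjection (A e) ∈ T' := T'.starProjection_apply_mem _
  set g := T'ᗮ.starProjection (A e) with hg
  have g1 : g = A (e - w') := by
    rw [hg, Submodule.starProjection_orthogonal_val, ← hw', map_sub]; rfl
  have g2 : T'ᗮ.starProjection (A z) = y := by
    have k1 : T'ᗮ.starProjection (A w) = 0 := by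
      rw [Submodule.starProjection_orthogonal_val,
        Submodule.starProjection_eq_self_iff.2 (show A w ∈ T' from ⟨w, wT, rfl⟩), sub_self]
    rw [hz, map_sub, map_sub, k1, sub_zero, z1, Submodule.starProjection_eq_self_iff.2 yT]
  have i1 : ⟪e, z0⟫ = ⟪e, z⟫ := by
    rw [hz, inner_sub_right, real_inner_comm w, eT w wT, sub_zero]
  have i2 : ⟪A e, y⟫ = ⟪g, y⟫ := by
    rw [hg, Submodule.inner_starProjection_left_eq_right,
      Submodule.starProjection_eq_self_iff.2 yT]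
  have up : ∀ x : E, ‖T'ᗮ.starProjection (A x)‖ ≤ b * ‖x‖ := fun x =>
    (T'ᗮ.norm_starProjection_apply_le _).trans ((A.le_opNorm x).trans (by gcongr))
  rw [i1, i2]
  refine sos ha hab he hy ?_ ?_ ?_ ?_
  · simpa [z3, hy] using lo z w z2 wT
  · have k := up e
    rwa [he, mul_one] at k
  · have k := up (e - a • z)
    rwa [map_sub, map_smul, map_sub, map_smul, g2] at k
  · have k := lo (e - b • z) (-w' - b • w)
      (fun i => by rw [inner_sub_right, inner_smul_right, h1, z2, mul_zero, sub_zero])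
      (T.sub_mem (T.neg_mem w'T) (T.smul_mem _ wT))
    rwa [show e - b • z + (-w' - b • w) = (e - w') - b • (z + w) by rw [smul_add]; abel, map_sub,
      map_smul, z3, ← g1] at k

theorem pow_sub_one_le {x : ℝ} (hx : 1 ≤ x) (k : ℕ) : x ^ k - 1 ≤ k * x ^ k * (x - 1) := by
  induction k with
  | zero => simp
  | succ k ih =>
    have h1 : 1 ≤ x ^ k := one_le_pow₀ hx
    have h2 : 0 ≤ (k : ℝ) * x ^ k * (x - 1) := by
      have := sub_nonneg.2 hx
      positivity
    push_cast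
    rw [pow_succ]
    nlinarith [mul_le_mul_of_nonneg_left ih (by linarith : 0 ≤ x),
      mul_nonneg (by linarith : 0 ≤ x ^ k) (mul_self_nonneg (x - 1))]

theorem amgm {x : ℝ} (hx : 1 ≤ x) (k m : ℕ) : (k + m) * x ^ k ≤ k * x ^ (k + m) + m := by
  induction m with
  | zero => simp
  | succ m ih =>
    have h1 := pow_sub_one_le hx k
    have h2 : x ^ k ≤ x ^ (k + m) := pow_le_pow_right₀ hx (by omega)
    have h3 : (k : ℝ) * x ^ k * (x - 1) ≤ k * x ^ (k + m) * (x - 1) := by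
      have := sub_nonneg.2 hx
      gcongr
    push_cast
    rw [← add_assoc k m 1, pow_succ]
    nlinarith

theorem scalar {n k m d M : ℕ} (h1 : n = k + m) (h2 : n = d + 1 + M) (h3 : M ≤ k) (hk : 1 ≤ k)
    {u s J Z l κ : ℝ} (hu : 0 < u) (hs : u ≤ s) (hl : 0 ≤ l) (hκ : 0 ≤ κ)
    (hJ : (l / (n + l) + κ) * s ^ n ≤ J)
    (hZ : Z ≤ u ^ (d + 1) * s ^ M + u ^ M * J / s ^ M) :
    κ * s ^ n ≤ (n + l) * ((k + l) * J) - (n + l) * l * Z + l * ((m + l) * u ^ n) := by
  have s0 : 0 < s := hu.trans_le hs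
  have k1 : (1 : ℝ) ≤ k := by exact_mod_cast hk
  have n1 : (1 : ℝ) ≤ n := by exact_mod_cast (show 1 ≤ n by omega)
  have a1 : u ^ M / s ^ M ≤ 1 := by
    rw [div_le_one (by positivity)]; gcongr
  have a2 : (n : ℝ) * (u ^ (d + 1) * s ^ M) ≤ k * s ^ n + m * u ^ n := by
    have x1 : 1 ≤ s / u := (one_le_div hu).2 hs
    have b1 := amgm x1 k m
    have b2 : (s / u) ^ M ≤ (s / u) ^ k := pow_le_pow_right₀ x1 h3
    have b3 : u ^ (d + 1) * s ^ M = (s / u) ^ M * u ^ n := by
      rw [h2, div_pow, pow_add u (d + 1) M]; field_simp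
    have b4 : s ^ n = (s / u) ^ (k + m) * u ^ n := by
      rw [← h1, div_pow]; field_simp
    have b5 : (n : ℝ) = k + m := by exact_mod_cast h1
    rw [b3, b4, b5]
    calc _ ≤ ((k : ℝ) + m) * ((s / u) ^ k * u ^ n) := by gcongr
      _ = (k + m) * (s / u) ^ k * u ^ n := by ring
      _ ≤ (k * (s / u) ^ (k + m) + m) * u ^ n := by gcongr
      _ = _ := by ring
  have a3 : 0 ≤ (s ^ M - u ^ M) * (s ^ (d + 1) - u ^ (d + 1)) :=
    mul_nonneg (sub_nonneg.2 (by gcongr)) (sub_nonneg.2 (by gcongr))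
  have a4 : s ^ n = s ^ M * s ^ (d + 1) := by rw [h2, ← pow_add]; congr 1; omega
  have a5 : u ^ n = u ^ M * u ^ (d + 1) := by rw [h2, ← pow_add]; congr 1; omega
  set θ := u ^ M / s ^ M with hθ
  have a6 : θ * s ^ n = u ^ M * s ^ (d + 1) := by rw [a4, hθ]; field_simp
  have a7 : u ^ M * J / s ^ M = θ * J := by rw [hθ]; ring
  have c0 : 0 ≤ l - l * θ := by nlinarith
  have c1 : (n + l) * ((l / (n + l) + κ) * s ^ n) = l * s ^ n + (n + l) * (κ * s ^ n) := by
    field_simp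
  have c2 : 0 ≤ κ * s ^ n := by positivity
  have c3 : (k + (l - l * θ)) * (l * s ^ n + (n + l) * (κ * s ^ n)) ≤
      (k + (l - l * θ)) * ((n + l) * J) := by
    rw [← c1]; gcongr
  have c4 : κ * s ^ n ≤ (k + (l - l * θ)) * ((n + l) * (κ * s ^ n)) := by
    calc _ = 1 * (1 * (κ * s ^ n)) := by ring
      _ ≤ _ := by gcongr <;> linarith
  have c5 : (n + l) * l * Z ≤ (n + l) * l * (u ^ (d + 1) * s ^ M + θ * J) := by
    rw [← a7]; gcongr
  have c6 : 0 ≤ l * (l * ((s ^ M - u ^ M) * (s ^ (d + 1) - u ^ (d + 1)))) := by positivity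
  have c7 := mul_le_mul_of_nonneg_left a2 hl
  have c8 : l * (l * ((s ^ M - u ^ M) * (s ^ (d + 1) - u ^ (d + 1)))) =
      l * (l * (s ^ n - θ * s ^ n - u ^ (d + 1) * s ^ M + u ^ n)) := by
    rw [a6, a4, a5]; ring
  rw [c8] at c6
  generalize s ^ n = X at *
  generalize u ^ n = Y at *
  generalize u ^ (d + 1) * s ^ M = W at *
  linarith

/-- the structure of the differential of a symmetric map: `d` orthonormal directions orthogonal
to `a`, stretched by the factor `‖y‖ / ‖a‖` and sent into the orthogonal complement of `y` -/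
def Str (d : ℕ) (A : E →L[ℝ] E) (a y : E) : Prop :=
  ∃ t : Fin d → E, Orthonormal ℝ t ∧
    ∀ i, ⟪t i, a⟫ = 0 ∧ ⟪A (t i), y⟫ = 0 ∧ ‖A (t i)‖ = ‖y‖ / ‖a‖

omit [FiniteDimensional ℝ E] in
theorem Str.le_norm {d : ℕ} (hd : 1 ≤ d) {A : E →L[ℝ] E} {a y : E} (h : Str d A a y) :
    ‖y‖ / ‖a‖ ≤ ‖A‖ := by
  obtain ⟨t, ht, h⟩ := h
  rw [← (h ⟨0, hd⟩).2.2]
  simpa [ht.1] using A.le_opNorm (t ⟨0, hd⟩)

theorem Str.norm_le {d n : ℕ} (hd : 1 ≤ d) (hn : finrank ℝ E = n) {A : E →L[ℝ] E} {a y : E}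
    (h : Str d A a y) {K : ℝ} (hK : 0 ≤ K) (hA : ‖A‖ ^ n ≤ K * A.det) :
    ‖A‖ ≤ K * (‖y‖ / ‖a‖) := by
  obtain ⟨t, ht, h⟩ := h
  have n1 : 1 ≤ n := by
    have := ht.linearIndependent.fintype_card_le_finrank
    rw [Fintype.card_fin] at this
    omega
  obtain ⟨M, rfl⟩ : ∃ M, n = M + 1 := ⟨n - 1, by omega⟩
  have k := low (d := 0) (M := M) (by omega) A (t := Fin.elim0) (by simp) (u := 0)
    (fun i => i.elim0) (x := t ⟨0, hd⟩) (w := 0) (fun i => i.elim0) (Submodule.zero_mem _)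
  rw [pow_zero, one_mul, add_zero, ht.1, mul_one, (h _).2.2] at k
  rcases (norm_nonneg A).eq_or_lt with s0 | s0
  · rw [← s0]; positivity
  refine le_of_mul_le_mul_left ?_ (pow_pos s0 M)
  calc _ = ‖A‖ ^ (M + 1) := by ring
    _ ≤ K * (‖A‖ ^ M * (‖y‖ / ‖a‖)) := hA.trans (by gcongr; exact (le_abs_self _).trans k)
    _ = _ := by ring

theorem pointwise {n k m d M : ℕ} (hn : finrank ℝ E = n) (h1 : n = k + m)
    (h2 : n = d + 1 + (M + 1)) (h3 : M + 1 ≤ k) (hd : 1 ≤ d) {A : E →L[ℝ] E} {a y : E}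
    (ha : a ≠ 0) (hy : y ≠ 0) (h : Str d A a y) {l κ : ℝ} (hl : 0 ≤ l) (hκ : 0 < κ)
    (hJ : (l / (n + l) + κ) * ‖A‖ ^ n ≤ A.det) :
    κ * ‖A‖ ^ n ≤ (n + l) * k * A.det +
      l * (n + l) * (A.det - ⟪a, A.det • A.inverse y⟫ / ‖a‖ ^ 2) -
      (l * k * (‖y‖ / ‖a‖) ^ n + l * (n + l) * ((‖y‖ / ‖a‖) ^ n * (⟪y, A a⟫ / ‖y‖ ^ 2 - 1))) := by
  have us := h.le_norm hd
  obtain ⟨t, ht, h⟩ := h
  have a0 : 0 < ‖a‖ := norm_pos_iff.2 ha
  have y0 : 0 < ‖y‖ := norm_pos_iff.2 hy
  set u := ‖y‖ / ‖a‖ with hu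
  have u0 : 0 < u := by positivity
  have s0 : 0 < ‖A‖ := u0.trans_le us
  have J0 : 0 < A.det := lt_of_lt_of_le (by positivity) hJ
  have e1 : ‖‖a‖⁻¹ • a‖ = 1 := norm_smul_inv_norm ha
  have e2 : ‖‖y‖⁻¹ • y‖ = 1 := norm_smul_inv_norm hy
  have e3 : ∀ i, ⟪t i, ‖a‖⁻¹ • a⟫ = 0 := fun i => by rw [inner_smul_right, (h i).1, mul_zero]
  have e4 : ∀ i, ⟪A (t i), ‖y‖⁻¹ • y⟫ = 0 := fun i => by
    rw [inner_smul_right, (h i).2.1, mul_zero]
  have e5 : ∀ i, ‖A (t i)‖ ≤ u := fun i => (h i).2.2.le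
  have hn' : finrank ℝ E = d + 1 + (M + 1) := hn.trans h2
  have b1 : ‖A‖ ≤ u ^ d * ‖A‖ ^ (M + 1) / u ^ (d + M) := by
    rw [le_div_iff₀ (by positivity), pow_add, pow_succ]
    calc _ = u ^ d * (u ^ M * ‖A‖) := by ring
      _ ≤ _ := by gcongr
  have b2 : A.det / (u ^ d * ‖A‖ ^ (M + 1)) ≤ ‖A‖ := by
    have kk := low hn' A ht e5 e3 (Submodule.zero_mem _)
    rw [e1, mul_one, add_zero, abs_of_pos J0] at kk
    rw [div_le_iff₀ (by positivity), mul_comm]
    refine kk.trans ?_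
    gcongr
    simpa [e1] using A.le_opNorm (‖a‖⁻¹ • a)
  have kk := key hn' J0 ht e5 e1 e2 e3 e4 (a := A.det / (u ^ d * ‖A‖ ^ (M + 1))) (by positivity)
    (b2.trans b1) (le_of_eq (by field_simp)) b1
  have k2 := scalar h1 h2 h3 (by omega) u0 us hl hκ.le hJ
    (Z := ⟪a, A.det • A.inverse y⟫ / ‖a‖ ^ 2 + u ^ n * (⟪y, A a⟫ / ‖y‖ ^ 2)) (by
      have k3 := mul_le_mul_of_nonneg_left kk (show 0 ≤ u ^ (d + M + 1) by positivity)
      simp only [map_smul, inner_smul_right, real_inner_smul_left] at k3 ⊢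
      rw [real_inner_comm y (A a)] at k3
      refine le_trans (le_of_eq ?_) (k3.trans (le_of_eq ?_))
      · have y1 : ‖y‖ = u * ‖a‖ := by rw [hu]; field_simp
        rw [h2, y1]
        clear_value u
        field_simp
        ring
      · field_simp; ring)
  have h4 : (n : ℝ) = k + m := by exact_mod_cast h1
  refine k2.trans (le_of_eq ?_)
  rw [h4]
  ring

end Pool.Agent.MP_29b5d3_an.h48

end MrgPart0

-- ======== part 1: formerly Pool.Agent.MP_29b5d3_an.h48.NullLag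
section MrgPart1

/-! The Jacobian determinant of a compactly supported `C¹` map has integral zero. -/

set_option autoImplicit false

namespace Pool.Agent.MP_29b5d3_an.h48

open Module Finset MeasureTheory Metric Polynomial Filter Topology

variable {E : Type*} [NormedAddCommGroup E] [NormedSpace ℝ E] [FiniteDimensional ℝ E]

theorem det_interp (hn : 1 ≤ finrank ℝ E) (v : ℕ → ℝ) (hv : Function.Injective v) :
    ∃ w : ℕ → ℝ, ∑ j ∈ range (finrank ℝ E + 1), w j * v j ^ finrank ℝ E = 0 ∧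
      ∀ M : E →L[ℝ] E, M.det = ∑ j ∈ range (finrank ℝ E + 1),
        w j * (v j • ContinuousLinearMap.id ℝ E + M).det := by
  have h : ∀ M : E →L[ℝ] E, M.det = ∑ j ∈ range (finrank ℝ E + 1),
      (Lagrange.basis (range (finrank ℝ E + 1)) v j).eval 0 *
        (v j • ContinuousLinearMap.id ℝ E + M).det := fun M => by
    have h1 : ∀ s : ℝ, (-(M : E →ₗ[ℝ] E)).charpoly.eval s =
        (s • ContinuousLinearMap.id ℝ E + M).det := fun s => by
      rw [LinearMap.eval_charpoly, ContinuousLinearMap.det]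
      congr 1
      ext x
      simp
    have h2 : (-(M : E →ₗ[ℝ] E)).charpoly.degree < #(range (finrank ℝ E + 1)) := by
      rw [degree_eq_natDegree (LinearMap.charpoly_monic _).ne_zero, LinearMap.charpoly_natDegree,
        card_range]
      exact_mod_cast Nat.lt_succ_self _
    have h3 := congrArg (eval 0) (Lagrange.eq_interpolate hv.injOn h2)
    rw [h1, zero_smul, zero_add, Lagrange.interpolate_apply, eval_finsetSum] at h3
    rw [h3]
    exact sum_congr rfl fun j _ => by rw [eval_mul, eval_C, h1, mul_comm]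
  refine ⟨_, ?_, h⟩
  have h0 := h 0
  have : Nontrivial E := finrank_pos_iff.1 hn
  simp only [add_zero, ContinuousLinearMap.det, ContinuousLinearMap.toLinearMap_zero,
    ContinuousLinearMap.toLinearMap_smul, LinearMap.det_smul, ContinuousLinearMap.coe_id,
    LinearMap.det_id, mul_one, LinearMap.det_zero] at h0
  rw [← h0, zero_pow (by omega)]

variable [MeasurableSpace E] [BorelSpace E] (μ : Measure E) [μ.IsAddHaarMeasure]

theorem vol_pres {G : E → E} (hG : ContDiff ℝ 1 G) {R : ℝ} (hR : ∀ x, R ≤ ‖x‖ → G x = 0)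
    (hL : LipschitzWith (1 / 2) G) :
    ∫ x in ball 0 R, |(ContinuousLinearMap.id ℝ E + fderiv ℝ G x).det| ∂μ =
      μ.real (ball 0 R) := by
  have hi : Function.Injective fun x => x + G x := fun x y h => by
    have h1 := hL.dist_le_mul x y
    have h2 : x - y = G y - G x := by
      rw [sub_eq_sub_iff_add_eq_add, add_comm (G y)]; exact h
    rw [dist_eq_norm, dist_eq_norm, norm_sub_rev, ← h2] at h1
    push_cast at h1
    exact sub_eq_zero.1 (norm_eq_zero.1 (by linarith [norm_nonneg (x - y)]))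
  have hs : (fun x => x + G x) '' ball 0 R = ball 0 R := by
    ext y
    constructor
    · rintro ⟨x, hx, rfl⟩
      by_contra hy
      simp only [mem_ball_zero_iff, not_lt] at hy
      have h1 : x + G x = x := hi (a₁ := x + G x) (by simp only [hR _ hy, add_zero])
      rw [h1] at hy
      exact absurd (mem_ball_zero_iff.1 hx) hy.not_gt
    · intro hy
      have hc : ContractingWith (1 / 2) fun x => y - G x :=
        ⟨by norm_num, LipschitzWith.of_dist_le_mul fun a b => by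
          rw [dist_sub_left]; exact hL.dist_le_mul a b⟩
      have h1 : y - G (hc.fixedPoint _) = hc.fixedPoint _ := hc.fixedPoint_isFixedPt
      generalize hc.fixedPoint _ = x at h1
      refine ⟨x, ?_, (eq_sub_iff_add_eq.1 h1.symm)⟩
      by_contra hx
      rw [mem_ball_zero_iff, not_lt] at hx
      rw [hR _ hx, sub_zero] at h1
      rw [← h1] at hx
      exact absurd (mem_ball_zero_iff.1 hy) hx.not_gt
  have h := integral_image_eq_integral_abs_det_fderiv_smul μ (s := ball 0 R)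
    (f := fun x => x + G x) (f' := fun x => ContinuousLinearMap.id ℝ E + fderiv ℝ G x)
    measurableSet_ball (fun x _ => ((hasFDerivAt_id x).add
      (hG.differentiable one_ne_zero x).hasFDerivAt).hasFDerivWithinAt) hi.injOn fun _ => (1 : ℝ)
  rw [hs] at h
  simpa using h.symm

theorem integral_det_eq_zero (hn : 1 ≤ finrank ℝ E) {G : E → E} (hG : ContDiff ℝ 1 G)
    (hc : HasCompactSupport G) : ∫ x, (fderiv ℝ G x).det ∂μ = 0 := by
  have : Nontrivial E := finrank_pos_iff.1 hn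
  obtain ⟨R, hR⟩ := hc.isCompact.isBounded.subset_ball (0 : E)
  have out : ∀ x, R ≤ ‖x‖ → x ∉ tsupport G := fun x hx h =>
    absurd (mem_ball_zero_iff.1 (hR h)) hx.not_gt
  obtain ⟨L, hL⟩ := hG.lipschitzWith_of_hasCompactSupport hc one_ne_zero
  have hD : ∀ x, ‖fderiv ℝ G x‖ ≤ L := fun x => norm_fderiv_le_of_lipschitz ℝ hL
  obtain ⟨ε, ε0, hε⟩ : ∃ ε > 0, ∀ M : E →L[ℝ] E, ‖M‖ < ε →
      0 < (ContinuousLinearMap.id ℝ E + M).det := by
    have h1 : Continuous fun M : E →L[ℝ] E => (ContinuousLinearMap.id ℝ E + M).det :=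
      ContinuousLinearMap.continuous_det.comp (by fun_prop)
    have h2 : ∀ᶠ M in 𝓝 (0 : E →L[ℝ] E), 0 < (ContinuousLinearMap.id ℝ E + M).det :=
      h1.continuousAt.eventually (lt_mem_nhds (by simp [ContinuousLinearMap.det]))
    obtain ⟨ε, ε0, h⟩ := Metric.eventually_nhds_iff.1 h2
    exact ⟨ε, ε0, fun M hM => h (by simpa using hM)⟩
  have cD : Continuous (fderiv ℝ G) := hG.continuous_fderiv one_ne_zero
  have hI : ∀ s : ℝ, IntegrableOn (fun x => (s • ContinuousLinearMap.id ℝ E + fderiv ℝ G x).det)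
      (ball 0 R) μ := fun s =>
    ((ContinuousLinearMap.continuous_det.comp (continuous_const.add cD)).continuousOn.integrableOn_compact
      (isCompact_closedBall 0 R)).mono_set ball_subset_closedBall
  have L0 : (0 : ℝ) ≤ L := L.2
  have main : ∀ s : ℝ, 2 * L + L / ε + 1 ≤ s →
      ∫ x in ball 0 R, (s • ContinuousLinearMap.id ℝ E + fderiv ℝ G x).det ∂μ =
        s ^ finrank ℝ E * μ.real (ball 0 R) := fun s hs => by
    have p1 : 0 ≤ L / ε := by positivity
    have s0 : 0 < s := by linarith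
    have h := vol_pres μ (G := fun x => s⁻¹ • G x) (hG.const_smul _) (R := R)
      (fun x hx => by simp only [image_eq_zero_of_notMem_tsupport (out x hx), smul_zero])
      (LipschitzWith.of_dist_le_mul fun a b => by
        rw [dist_smul₀, Real.norm_of_nonneg (by positivity)]
        have := hL.dist_le_mul a b
        rw [inv_mul_le_iff₀ s0]
        push_cast
        nlinarith [dist_nonneg (x := a) (y := b)])
    rw [← h, ← integral_const_mul]
    refine integral_congr_ae (Eventually.of_forall fun x => ?_)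
    have e1 : fderiv ℝ (fun x => s⁻¹ • G x) x = s⁻¹ • fderiv ℝ G x :=
      fderiv_fun_const_smul (hG.differentiable one_ne_zero x) _
    have e2 : ‖s⁻¹ • fderiv ℝ G x‖ < ε := by
      rw [norm_smul, Real.norm_of_nonneg (by positivity), inv_mul_lt_iff₀ s0]
      have : L / ε < s := by linarith
      rw [div_lt_iff₀ ε0] at this
      linarith [hD x]
    have e3 : s • ContinuousLinearMap.id ℝ E + fderiv ℝ G x =
        s • (ContinuousLinearMap.id ℝ E + s⁻¹ • fderiv ℝ G x) := by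
      rw [smul_add, smul_smul, mul_inv_cancel₀ s0.ne', one_smul]
    simp only
    rw [e1, abs_of_pos (hε _ e2), e3, ContinuousLinearMap.det,
      ContinuousLinearMap.toLinearMap_smul, LinearMap.det_smul]
  obtain ⟨w, hw0, hw⟩ := det_interp hn (fun j => 2 * L + L / ε + 1 + j)
    fun i j h => by simpa using h
  rw [← setIntegral_eq_integral_of_forall_compl_eq_zero (s := ball 0 R) fun x hx => by
    rw [fderiv_of_notMem_tsupport ℝ (out x (by simpa using hx))]
    simp [ContinuousLinearMap.det]]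
  rw [integral_congr_ae (Eventually.of_forall fun x => hw (fderiv ℝ G x)),
    integral_finsetSum _ fun j _ => (hI _).const_mul _]
  calc _ = ∑ j ∈ range (finrank ℝ E + 1), w j * (2 * L + L / ε + 1 + j) ^ finrank ℝ E *
        μ.real (ball 0 R) := sum_congr rfl fun j _ => by
        rw [integral_const_mul, main _ (by linarith [Nat.cast_nonneg (α := ℝ) j]), mul_assoc]
    _ = 0 := by rw [← sum_mul, hw0, zero_mul]

end Pool.Agent.MP_29b5d3_an.h48

end MrgPart1

-- ======== part 2: formerly Pool.Agent.MP_29b5d3_an.h48.Moll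
section MrgPart2

/-! Mollification of a continuous Sobolev map: identities for smooth maps pass to the limit. -/

set_option autoImplicit false

namespace Pool.Agent.MP_29b5d3_an.h48

open MeasureTheory Metric Filter Topology ContinuousLinearMap
open scoped Convolution

theorem pratt {α : Type*} [MeasurableSpace α] {μ : Measure α} {a H : ℕ → α → ℝ} {a0 H0 : α → ℝ}
    (ha : ∀ j, AEStronglyMeasurable (a j) μ) (hH : ∀ j, Integrable (H j) μ)
    (hH0 : Integrable H0 μ) (hb : ∀ j x, |a j x| ≤ H j x)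
    (la : ∀ᵐ x ∂μ, Tendsto (fun j => a j x) atTop (𝓝 (a0 x)))
    (lH : ∀ᵐ x ∂μ, Tendsto (fun j => H j x) atTop (𝓝 (H0 x)))
    (lI : Tendsto (fun j => ∫ x, H j x ∂μ) atTop (𝓝 (∫ x, H0 x ∂μ))) :
    Integrable a0 μ ∧ Tendsto (fun j => ∫ x, a j x ∂μ) atTop (𝓝 (∫ x, a0 x ∂μ)) := by
  have b0 : ∀ᵐ x ∂μ, |a0 x| ≤ H0 x := by
    filter_upwards [la, lH] with x h1 h2
    exact le_of_tendsto_of_tendsto' h1.abs h2 fun j => hb j x
  have ia : ∀ j, Integrable (a j) μ := fun j =>
    (hH j).mono' (ha j) (Eventually.of_forall (hb j))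
  refine ⟨hH0.mono' (aestronglyMeasurable_of_tendsto_ae atTop ha la) b0, ?_⟩
  have mc : ∀ j, AEStronglyMeasurable (fun x => max (-H0 x) (min (a j x) (H0 x))) μ := fun j =>
    hH0.1.neg.sup ((ha j).inf hH0.1)
  have bc : ∀ j, ∀ᵐ x ∂μ, ‖max (-H0 x) (min (a j x) (H0 x))‖ ≤ H0 x := fun j => by
    filter_upwards [b0] with x h
    have := (abs_nonneg _).trans h
    exact abs_le.2 ⟨le_max_left _ _, max_le (by linarith) (min_le_right _ _)⟩
  have t1 : Tendsto (fun j => ∫ x, max (-H0 x) (min (a j x) (H0 x)) ∂μ) atTop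
      (𝓝 (∫ x, a0 x ∂μ)) := by
    refine tendsto_integral_of_dominated_convergence H0 mc hH0 bc ?_
    filter_upwards [b0, la] with x h h1
    have h2 := (tendsto_const_nhds (x := -H0 x)).max (h1.min (tendsto_const_nhds (x := H0 x)))
    rwa [min_eq_left (abs_le.1 h).2, max_eq_right (abs_le.1 h).1] at h2
  have bm : ∀ j, ∀ᵐ x ∂μ, ‖min (H j x) (H0 x)‖ ≤ H0 x := fun j => by
    filter_upwards [b0] with x h
    have h1 := (abs_nonneg _).trans h
    have h2 := (abs_nonneg _).trans (hb j x)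
    exact abs_le.2 ⟨le_min (by linarith) (by linarith), min_le_right _ _⟩
  have mm : ∀ j, AEStronglyMeasurable (fun x => min (H j x) (H0 x)) μ := fun j =>
    (hH j).1.inf hH0.1
  have t2 : Tendsto (fun j => ∫ x, min (H j x) (H0 x) ∂μ) atTop (𝓝 (∫ x, H0 x ∂μ)) := by
    refine tendsto_integral_of_dominated_convergence H0 mm hH0 bm ?_
    filter_upwards [lH] with x h1
    simpa using h1.min (tendsto_const_nhds (x := H0 x))
  have t3 := lI.sub t2
  rw [sub_self] at t3
  have t4 : Tendsto (fun j => ∫ x, a j x ∂μ - ∫ x, max (-H0 x) (min (a j x) (H0 x)) ∂μ) atTop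
      (𝓝 0) := by
    refine squeeze_zero_norm (fun j => ?_) t3
    rw [← integral_sub (ia j) (hH0.mono' (mc j) (bc j)),
      ← integral_sub (hH j) (hH0.mono' (mm j) (bm j))]
    refine norm_integral_le_of_norm_le ((hH j).sub (hH0.mono' (mm j) (bm j))) ?_
    filter_upwards [b0] with x h
    have h1 := (abs_nonneg _).trans h
    have h2 := abs_le.1 (hb j x)
    rw [Real.norm_eq_abs, abs_le]
    simp only [max_def, min_def]
    split_ifs <;> constructor <;> linarith
  simpa using t4.add t1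

theorem jensen_pow {α : Type*} [MeasurableSpace α] {μ : Measure α} {ρ g : α → ℝ} {n : ℕ}
    (h0 : ∀ t, 0 ≤ ρ t) (hg : ∀ t, 0 ≤ g t) (hρ : Integrable ρ μ) (h1 : ∫ t, ρ t ∂μ = 1)
    (i1 : Integrable (fun t => ρ t * g t) μ) (i2 : Integrable (fun t => ρ t * g t ^ n) μ) :
    (∫ t, ρ t * g t ∂μ) ^ n ≤ ∫ t, ρ t * g t ^ n ∂μ := by
  set c := ∫ t, ρ t * g t ∂μ with hc
  have c0 : 0 ≤ c := integral_nonneg fun t => mul_nonneg (h0 t) (hg t)
  have e : ∫ t, ((c ^ n - n * c ^ (n - 1) * c) * ρ t + n * c ^ (n - 1) * (ρ t * g t)) ∂μ =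
      c ^ n := by
    rw [integral_add (hρ.const_mul _) (i1.const_mul _), integral_const_mul, integral_const_mul,
      h1, ← hc]
    ring
  rw [← e]
  refine integral_mono ((hρ.const_mul _).add (i1.const_mul _)) i2 fun t => ?_
  have k := pow_add_mul_le_add_pow (b := g t - c) c0 (by linarith [hg t]) n
  rw [add_sub_cancel] at k
  calc _ = ρ t * (c ^ n + n * c ^ (n - 1) * (g t - c)) := by ring
    _ ≤ _ := mul_le_mul_of_nonneg_left k (h0 t)

variable {E : Type*} [NormedAddCommGroup E] [NormedSpace ℝ E] [FiniteDimensional ℝ E]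
  [MeasurableSpace E] [BorelSpace E]

/-- `G` is the weak derivative of `F` on the whole space -/
def WD (μ : Measure E) (F : E → E) (G : E → E →L[ℝ] E) : Prop :=
  ∀ φ : E → ℝ, ContDiff ℝ ((⊤ : ℕ∞) : WithTop ℕ∞) φ → HasCompactSupport φ → ∀ v : E,
    ∫ x, (fderiv ℝ φ x v) • F x ∂μ = -∫ x, φ x • G x v ∂μ

variable {μ : Measure E} [μ.IsAddHaarMeasure] {F : E → E} {G : E → E →L[ℝ] E}

theorem hasFDerivAt_conv {ρ : E → ℝ} (hρ : ContDiff ℝ ((⊤ : ℕ∞) : WithTop ℕ∞) ρ)
    (hc : HasCompactSupport ρ) (hF : LocallyIntegrable F μ) (hG : LocallyIntegrable G μ)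
    (hW : WD μ F G) (x : E) :
    HasFDerivAt (ρ ⋆[lsmul ℝ ℝ, μ] F) ((ρ ⋆[lsmul ℝ ℝ, μ] G) x) x := by
  have h1 : ContDiff ℝ 1 ρ := hρ.of_le (by simp)
  refine (hc.hasFDerivAt_convolution_left (lsmul ℝ ℝ) h1 hF x).congr_fderiv ?_
  ext v
  have i1 := convolutionExistsAt_iff_integrable_swap.1
    ((hc.fderiv ℝ).convolutionExists_left ((lsmul ℝ ℝ : ℝ →L[ℝ] E →L[ℝ] E).precompL E)
      (h1.continuous_fderiv one_ne_zero) hF x)
  have i2 := convolutionExistsAt_iff_integrable_swap.1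
    (hc.convolutionExists_left (lsmul ℝ ℝ) h1.continuous hG x)
  rw [convolution_eq_swap, convolution_eq_swap, integral_apply i1, integral_apply i2]
  have h := hW (fun t => ρ (x - t)) (hρ.comp (contDiff_const.sub contDiff_id))
    (hc.comp_homeomorph (Homeomorph.subLeft x)) v
  have e : ∀ t, fderiv ℝ (fun t => ρ (x - t)) t v = -fderiv ℝ ρ (x - t) v := fun t => by
    have := ((h1.differentiable one_ne_zero (x - t)).hasFDerivAt.comp t
      ((hasFDerivAt_id t).const_sub x)).fderiv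
    rw [show (fun t => ρ (x - t)) = ρ ∘ HSub.hSub x from rfl, this]
    simp
  simp only [e, neg_smul, integral_neg, neg_inj] at h
  simpa using h

/-- a sequence of bump functions -/
noncomputable def bump (E : Type*) [NormedAddCommGroup E] (j : ℕ) : ContDiffBump (0 : E) :=
  ⟨1 / (j + 1), 2 * (1 / (j + 1)), by positivity, by
    have : (0 : ℝ) < 1 / (j + 1) := by positivity
    linarith⟩

theorem limit_zero {n : ℕ} (hF : Continuous F) (hc : HasCompactSupport F)
    (hG : LocallyIntegrable G μ) (hn : Integrable (fun x => ‖G x‖ ^ n) μ) (hW : WD μ F G)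
    {Ψ : E × E × (E →L[ℝ] E) → ℝ} (hΨ : Continuous Ψ) {S : Set E} (hS : IsCompact S)
    (hb : ∀ R : ℝ, ∃ c : ℝ, 0 ≤ c ∧ ∀ x y A, ‖y‖ ≤ R →
      |Ψ (x, y, A)| ≤ c * (S.indicator 1 x + ‖A‖ ^ n))
    (h0 : ∀ H : E → E, ContDiff ℝ 1 H → HasCompactSupport H →
      ∫ x, Ψ (x, H x, fderiv ℝ H x) ∂μ = 0) :
    Integrable (fun x => Ψ (x, F x, G x)) μ ∧ ∫ x, Ψ (x, F x, G x) ∂μ = 0 := by
  have l1 : Tendsto (fun j => (bump E j).rOut) atTop (𝓝 0) := by
    simpa [bump] using (tendsto_one_div_add_atTop_nhds_zero_nat (𝕜 := ℝ)).const_mul 2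
  have l2 : ∀ᶠ j in atTop, (bump E j).rOut ≤ 2 * (bump E j).rIn :=
    Eventually.of_forall fun j => le_rfl
  set ρ : ℕ → E → ℝ := fun j => (bump E j).normed μ with hρ
  have ρ1 : ∀ j, ContDiff ℝ ((⊤ : ℕ∞) : WithTop ℕ∞) (ρ j) := fun j => (bump E j).contDiff_normed
  have ρ2 : ∀ j, HasCompactSupport (ρ j) := fun j => (bump E j).hasCompactSupport_normed
  have ρ3 : ∀ j x, 0 ≤ ρ j x := fun j => (bump E j).nonneg_normed
  have ρ4 : ∀ j, ∫ x, ρ j x ∂μ = 1 := fun j => (bump E j).integral_normed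
  have ρ5 : ∀ j, Integrable (ρ j) μ := fun j => (bump E j).integrable_normed
  have ρ6 : ∀ j x, ∫ t, ρ j (x - t) ∂μ = 1 := fun j x => by
    rw [integral_sub_left_eq_self, ρ4]
  have ρ7 : ∀ j x, Integrable (fun t => ρ j (x - t)) μ := fun j x => (ρ5 j).comp_sub_left x
  obtain ⟨R, hR⟩ := hF.bounded_above_of_compact_support hc
  obtain ⟨c, c0, hb⟩ := hb R
  have lF := hF.locallyIntegrable (μ := μ)
  have lG : LocallyIntegrable (fun t => ‖G t‖) μ := fun x => (hG x).norm
  have d1 : ∀ j, ContDiff ℝ 1 (ρ j ⋆[lsmul ℝ ℝ, μ] F) := fun j =>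
    (ρ2 j).contDiff_convolution_left (n := 1) _ ((ρ1 j).of_le (by simp)) lF
  have d2 : ∀ j x, fderiv ℝ (ρ j ⋆[lsmul ℝ ℝ, μ] F) x = (ρ j ⋆[lsmul ℝ ℝ, μ] G) x := fun j x =>
    (hasFDerivAt_conv (ρ1 j) (ρ2 j) lF hG hW x).fderiv
  have d3 : ∀ j x, ‖(ρ j ⋆[lsmul ℝ ℝ, μ] F) x‖ ≤ R := fun j x => by
    rw [convolution_lsmul_swap]
    refine (norm_integral_le_of_norm_le ((ρ7 j x).mul_const R)
      (Eventually.of_forall fun t => ?_)).trans (by rw [integral_mul_const, ρ6, one_mul])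
    rw [norm_smul, Real.norm_of_nonneg (ρ3 _ _)]
    exact mul_le_mul_of_nonneg_left (hR t) (ρ3 _ _)
  have d4 : ∀ j x, ‖(ρ j ⋆[lsmul ℝ ℝ, μ] G) x‖ ^ n ≤
      (ρ j ⋆[lsmul ℝ ℝ, μ] fun t => ‖G t‖ ^ n) x := fun j x => by
    have i1 := convolutionExistsAt_iff_integrable_swap.1
      ((ρ2 j).convolutionExists_left (lsmul ℝ ℝ) (ρ1 j).continuous lG x)
    have i2 := convolutionExistsAt_iff_integrable_swap.1
      ((ρ2 j).convolutionExists_left (lsmul ℝ ℝ) (ρ1 j).continuous hn.locallyIntegrable x)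
    rw [convolution_lsmul_swap, convolution_lsmul_swap]
    refine le_trans (pow_le_pow_left₀ (norm_nonneg _) ?_ n)
      (jensen_pow (fun t => ρ3 j _) (fun t => norm_nonneg (G t)) (ρ7 j x) (ρ6 j x) i1 i2)
    refine norm_integral_le_of_norm_le i1 (Eventually.of_forall fun t => ?_)
    rw [norm_smul, Real.norm_of_nonneg (ρ3 _ _)]
  have iS : Integrable (S.indicator (1 : E → ℝ)) μ :=
    (integrable_indicator_iff hS.measurableSet).2 (integrableOn_const hS.measure_lt_top.ne)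
  have iH : ∀ j, Integrable (ρ j ⋆[lsmul ℝ ℝ, μ] fun t => ‖G t‖ ^ n) μ := fun j =>
    (ρ5 j).integrable_convolution _ hn
  have key := pratt (μ := μ)
    (a := fun j x => Ψ (x, (ρ j ⋆[lsmul ℝ ℝ, μ] F) x, fderiv ℝ (ρ j ⋆[lsmul ℝ ℝ, μ] F) x))
    (H := fun j x => c * (S.indicator 1 x + (ρ j ⋆[lsmul ℝ ℝ, μ] fun t => ‖G t‖ ^ n) x))
    (a0 := fun x => Ψ (x, F x, G x)) (H0 := fun x => c * (S.indicator 1 x + ‖G x‖ ^ n))
    (fun j => (hΨ.comp (continuous_id.prodMk ((d1 j).continuous.prodMk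
      ((d1 j).continuous_fderiv one_ne_zero)))).aestronglyMeasurable)
    (fun j => (iS.add (iH j)).const_mul c) ((iS.add hn).const_mul c)
    (fun j x => (hb _ _ _ (d3 j x)).trans (by rw [d2]; gcongr; exact d4 j x))
    (by
      filter_upwards [ContDiffBump.ae_convolution_tendsto_right_of_locallyIntegrable l1 l2 hG]
        with x hx
      simp only [d2]
      exact (hΨ.tendsto _).comp (tendsto_const_nhds.prodMk_nhds
        ((ContDiffBump.convolution_tendsto_right_of_continuous l1 hF x).prodMk_nhds hx)))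
    (by
      filter_upwards [ContDiffBump.ae_convolution_tendsto_right_of_locallyIntegrable l1 l2
        hn.locallyIntegrable] with x hx
      exact (tendsto_const_nhds.add hx).const_mul c)
    (by
      refine tendsto_const_nhds.congr fun j => ?_
      rw [integral_const_mul, integral_const_mul, integral_add iS hn, integral_add iS (iH j),
        integral_convolution _ (ρ5 j) hn, ρ4]
      simp)
  refine ⟨key.1, tendsto_nhds_unique key.2 (tendsto_const_nhds.congr fun j => ?_)⟩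
  exact (h0 _ (d1 j) ((ρ2 j).convolution _ hc)).symm

end Pool.Agent.MP_29b5d3_an.h48

end MrgPart2

-- ======== part 3: formerly Pool.Agent.MP_29b5d3_an.h48.Ident
section MrgPart3

/-! Two null Lagrangians for continuous Sobolev maps. -/

set_option autoImplicit false

namespace Pool.Agent.MP_29b5d3_an.h48

open Module MeasureTheory Metric Filter Topology Finset
open scoped RealInnerProductSpace

variable {E : Type*} [NormedAddCommGroup E] [InnerProductSpace ℝ E] [FiniteDimensional ℝ E]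

/-- the derivative of `x ↦ g (x, F x)` -/
noncomputable def lam (g : E × E → ℝ) (q : E × E × (E →L[ℝ] E)) : E →L[ℝ] ℝ :=
  (fderiv ℝ g (q.1, q.2.1)).comp ((ContinuousLinearMap.id ℝ E).prod q.2.2)

omit [FiniteDimensional ℝ E] in
theorem lam_apply (g : E × E → ℝ) (x y : E) (A : E →L[ℝ] E) (w : E) :
    lam g (x, y, A) w = fderiv ℝ g (x, y) (w, A w) := rfl

theorem continuous_lam {g : E × E → ℝ} (hg : ContDiff ℝ 1 g) : Continuous (lam g) := by
  have h := hg.continuous_fderiv one_ne_zero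
  refine continuous_clm_apply.2 fun w => ?_
  change Continuous fun q : E × E × (E →L[ℝ] E) => fderiv ℝ g (q.1, q.2.1) (w, q.2.2 w)
  fun_prop

omit [FiniteDimensional ℝ E] in
theorem fderiv_out {g : E × E → ℝ} {S : Set E} (hS : IsClosed S)
    (h0 : ∀ p : E × E, p.1 ∉ S → g p = 0) {p : E × E} (hp : p.1 ∉ S) : fderiv ℝ g p = 0 := by
  have h : g =ᶠ[𝓝 p] fun _ => 0 := by
    filter_upwards [continuous_fst.continuousAt.preimage_mem_nhds (hS.isOpen_compl.mem_nhds hp)]
      with q hq using h0 q hq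
  rw [h.fderiv_eq]
  simp

omit [FiniteDimensional ℝ E] in
theorem lam_out {g : E × E → ℝ} {S : Set E} (hS : IsClosed S)
    (h0 : ∀ p : E × E, p.1 ∉ S → g p = 0) {x : E} (hx : x ∉ S) (y : E) (A : E →L[ℝ] E) :
    lam g (x, y, A) = 0 := by
  rw [lam, fderiv_out hS h0 hx]
  simp

theorem lam_le {g : E × E → ℝ} (hg : ContDiff ℝ 1 g) {S : Set E} (hS : IsCompact S) (R : ℝ) :
    ∃ c : ℝ, 0 ≤ c ∧ ∀ x ∈ S, ∀ y A, ‖y‖ ≤ R → ‖lam g (x, y, A)‖ ≤ c * (1 + ‖A‖) := by
  obtain ⟨c, hc⟩ := (hS.prod (isCompact_closedBall (0 : E) R)).exists_bound_of_continuousOn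
    (hg.continuous_fderiv one_ne_zero).continuousOn
  refine ⟨max c 0, le_max_right _ _, fun x hx y A hy => ?_⟩
  refine ContinuousLinearMap.opNorm_le_bound _ (by positivity) fun w => ?_
  rw [lam_apply, mul_assoc]
  refine (ContinuousLinearMap.le_opNorm _ _).trans ?_
  gcongr
  · exact (hc (x, y) ⟨hx, mem_closedBall_zero_iff.2 hy⟩).trans (le_max_left _ _)
  · have h1 := A.le_opNorm w
    have h2 : 0 ≤ ‖A‖ * ‖w‖ := by positivity
    rw [Prod.norm_def]
    exact max_le (by linarith) (by linarith [norm_nonneg w])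

omit [FiniteDimensional ℝ E] in
theorem hasFDerivAt_lam {g : E × E → ℝ} (hg : ContDiff ℝ 1 g) {H : E → E} (hH : ContDiff ℝ 1 H)
    (x : E) : HasFDerivAt (fun x => g (x, H x)) (lam g (x, H x, fderiv ℝ H x)) x :=
  (hg.differentiable one_ne_zero _).hasFDerivAt.comp x
    ((hasFDerivAt_id x).prodMk (hH.differentiable one_ne_zero x).hasFDerivAt)

theorem one_add_pow_le {s : ℝ} (hs : 0 ≤ s) (n : ℕ) : (1 + s) ^ n ≤ 2 ^ n * (1 + s ^ n) := by
  have h := add_pow_le zero_le_one hs n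
  rw [one_pow] at h
  refine h.trans ?_
  gcongr
  · norm_num
  · omega

variable [MeasurableSpace E] [BorelSpace E] {μ : Measure E} [μ.IsAddHaarMeasure]
  {F : E → E} {G : E → E →L[ℝ] E}

/-- the standing assumptions -/
structure Sob (μ : Measure E) (F : E → E) (G : E → E →L[ℝ] E) : Prop where
  cont : Continuous F
  supp : HasCompactSupport F
  loc : LocallyIntegrable G μ
  int : Integrable (fun x => ‖G x‖ ^ finrank ℝ E) μ
  weak : WD μ F G

theorem null1 (hn : 1 ≤ finrank ℝ E) (h : Sob μ F G) {g : E × E → ℝ} (hg : ContDiff ℝ 1 g)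
    {S : Set E} (hS : IsCompact S) (h0 : ∀ p : E × E, p.1 ∉ S → g p = 0) (a : E) :
    Integrable (fun x => (G x + (lam g (x, F x, G x)).smulRight a).det - (G x).det) μ ∧
      ∫ x, ((G x + (lam g (x, F x, G x)).smulRight a).det - (G x).det) ∂μ = 0 := by
  have cl := continuous_lam hg
  have cd := ContinuousLinearMap.continuous_det (𝕜 := ℝ) (E := E)
  refine limit_zero (Ψ := fun q => (q.2.2 + (lam g q).smulRight a).det - q.2.2.det) h.cont h.supp
    h.loc h.int h.weak ?_ hS (fun R => ?_) fun H hH hc => ?_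
  · refine (cd.comp (continuous_snd.snd.add ?_)).sub (cd.comp continuous_snd.snd)
    exact continuous_clm_apply.2 fun w => by
      simp only [ContinuousLinearMap.smulRight_apply]; fun_prop
  · obtain ⟨c, c0, hc⟩ := lam_le hg hS R
    refine ⟨(1 + c * ‖a‖) ^ finrank ℝ E * 2 ^ finrank ℝ E + 1, by positivity, fun x y A hy => ?_⟩
    by_cases hx : x ∈ S
    · have k1 := abs_det_le (A + (lam g (x, y, A)).smulRight a)
      have k2 := abs_det_le A
      have k3 : ‖A + (lam g (x, y, A)).smulRight a‖ ≤ (1 + c * ‖a‖) * (1 + ‖A‖) := by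
        refine (norm_add_le _ _).trans ?_
        rw [ContinuousLinearMap.norm_smulRight_apply]
        nlinarith [mul_le_mul_of_nonneg_right (hc x hx y A hy) (norm_nonneg a)]
      have k4 := pow_le_pow_left₀ (norm_nonneg _) k3 (finrank ℝ E)
      have k5 := mul_le_mul_of_nonneg_left (one_add_pow_le (norm_nonneg A) (finrank ℝ E))
        (show 0 ≤ (1 + c * ‖a‖) ^ finrank ℝ E by positivity)
      rw [mul_pow] at k4
      rw [Set.indicator_of_mem hx, Pi.one_apply]
      refine (abs_sub _ _).trans ?_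
      linarith
    · simp only [lam_out hS.isClosed h0 hx, Set.indicator_of_notMem hx,
        ContinuousLinearMap.zero_smulRight, add_zero, sub_self, abs_zero]
      positivity
  · have k1 : ContDiff ℝ 1 fun x => H x + g (x, H x) • a :=
      hH.add ((hg.comp (contDiff_id.prodMk hH)).smul contDiff_const)
    have k2 : HasCompactSupport fun x => H x + g (x, H x) • a :=
      hc.add (HasCompactSupport.intro hS fun x hx => by rw [h0 _ hx, zero_smul])
    have k3 : ∀ x, fderiv ℝ (fun x => H x + g (x, H x) • a) x =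
        fderiv ℝ H x + (lam g (x, H x, fderiv ℝ H x)).smulRight a := fun x =>
      ((hH.differentiable one_ne_zero x).hasFDerivAt.add
        ((hasFDerivAt_lam hg hH x).smul_const a)).fderiv
    have i : ∀ {K : E → E}, ContDiff ℝ 1 K → HasCompactSupport K →
        Integrable (fun x => (fderiv ℝ K x).det) μ := fun hK hc =>
      (cd.comp (hK.continuous_fderiv one_ne_zero)).integrable_of_hasCompactSupport
        ((hc.fderiv ℝ).comp_left (by
          have : Nontrivial E := finrank_pos_iff.1 hn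
          simp [ContinuousLinearMap.det]))
    simp only [← k3]
    rw [integral_sub (i k1 k2) (i hH hc), integral_det_eq_zero μ hn k1 k2,
      integral_det_eq_zero μ hn hH hc, sub_zero]

theorem null2 (hn : 1 ≤ finrank ℝ E) (h : Sob μ F G) {g : E × E → ℝ} (hg : ContDiff ℝ 1 g)
    {S : Set E} (hS : IsCompact S) (h0 : ∀ p : E × E, p.1 ∉ S → g p = 0) (a : E) :
    Integrable (fun x => lam g (x, F x, G x) a) μ ∧ ∫ x, lam g (x, F x, G x) a ∂μ = 0 := by
  have cl := continuous_lam hg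
  refine limit_zero (Ψ := fun q => lam g q a) h.cont h.supp
    h.loc h.int h.weak (by fun_prop) hS (fun R => ?_) fun H hH hc => ?_
  · obtain ⟨c, c0, hc⟩ := lam_le hg hS R
    refine ⟨c * ‖a‖ * 2 ^ finrank ℝ E, by positivity, fun x y A hy => ?_⟩
    by_cases hx : x ∈ S
    · rw [Set.indicator_of_mem hx, Pi.one_apply, ← Real.norm_eq_abs]
      calc _ ≤ c * (1 + ‖A‖) * ‖a‖ := (ContinuousLinearMap.le_opNorm _ _).trans (by
            gcongr; exact hc x hx y A hy)
        _ = c * ‖a‖ * (1 + ‖A‖) := by ring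
        _ ≤ c * ‖a‖ * (2 ^ finrank ℝ E * (1 + ‖A‖ ^ finrank ℝ E)) := by
            gcongr
            exact (le_self_pow₀ (by linarith [norm_nonneg A]) (by omega)).trans
              (one_add_pow_le (norm_nonneg A) _)
        _ = _ := by ring
    · simp only [lam_out hS.isClosed h0 hx, Set.indicator_of_notMem hx, zero_apply, abs_zero]
      positivity
  · have k1 : ContDiff ℝ 1 fun x => g (x, H x) := hg.comp (contDiff_id.prodMk hH)
    have k2 : HasCompactSupport fun x => g (x, H x) :=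
      HasCompactSupport.intro hS fun x hx => h0 _ hx
    have k3 := integral_mul_fderiv_eq_neg_fderiv_mul_of_integrable (𝕜 := ℝ) (μ := μ)
      (f := fun _ : E => (1 : ℝ)) (g := fun x => g (x, H x)) (v := a) (by simp)
      (by
        simp only [one_mul]
        exact ((k1.continuous_fderiv one_ne_zero).clm_apply
          continuous_const).integrable_of_hasCompactSupport (k2.fderiv_apply ℝ a))
      (by simpa using k1.continuous.integrable_of_hasCompactSupport k2)
      (fun _ _ => differentiableAt_const _) (fun x _ => k1.differentiable one_ne_zero x)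
    simpa [(hasFDerivAt_lam hg hH _).fderiv] using k3

omit [FiniteDimensional ℝ E] [MeasurableSpace E] [BorelSpace E] in
theorem lam_mul {θ : E × E → ℝ} (hθ : ContDiff ℝ 1 θ) (L : E × E →L[ℝ] ℝ)
    (x y : E) (A : E →L[ℝ] E) (w : E) : lam (fun p => θ p * L p) (x, y, A) w =
      θ (x, y) * L (w, A w) + L (x, y) * lam θ (x, y, A) w := by
  rw [lam_apply, lam_apply,
    ((hθ.differentiable one_ne_zero _).hasFDerivAt.fun_mul L.hasFDerivAt).fderiv]
  simp

theorem ident1 (hn : 2 ≤ finrank ℝ E) (h : Sob μ F G) {θ : E × E → ℝ} (hθ : ContDiff ℝ 1 θ)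
    {S : Set E} (hS : IsCompact S) (h0 : ∀ p : E × E, p.1 ∉ S → θ p = 0) {k : ℕ} {e : Fin k → E}
    (he : ∀ i, ⟪e i, e i⟫ = 1) {P : E → E} (hP : ∀ y, P y = ∑ i, ⟪e i, y⟫ • e i)
    (hG : ∀ᵐ x ∂μ, x ∈ S → (G x).det ≠ 0 ∨ G x = 0) :
    Integrable (fun x => k * θ (x, F x) * (G x).det +
      lam θ (x, F x, G x) ((G x).det • (G x).inverse (P (F x)))) μ ∧
    ∫ x, (k * θ (x, F x) * (G x).det +
      lam θ (x, F x, G x) ((G x).det • (G x).inverse (P (F x)))) ∂μ = 0 := by
  have : Nontrivial E := finrank_pos_iff.1 (show 0 < finrank ℝ E by omega)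
  let L : Fin k → E × E →L[ℝ] ℝ := fun i => (innerSL ℝ (e i)).comp (ContinuousLinearMap.snd ℝ E E)
  have h1 := fun i => null1 (by omega) h (g := fun p => θ p * L i p) (hθ.mul (L i).contDiff) hS
    (fun p hp => by rw [h0 p hp, zero_mul]) (e i)
  have h2 : (fun x => ∑ i, ((G x + (lam (fun p => θ p * L i p) (x, F x, G x)).smulRight
      (e i)).det - (G x).det)) =ᵐ[μ] fun x => k * θ (x, F x) * (G x).det +
      lam θ (x, F x, G x) ((G x).det • (G x).inverse (P (F x))) := by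
    filter_upwards [hG] with x hx
    by_cases hxS : x ∈ S
    · rcases hx hxS with hd | hd
      · have k1 : ∀ i, (G x + (lam (fun p => θ p * L i p) (x, F x, G x)).smulRight (e i)).det -
            (G x).det = θ (x, F x) * (G x).det +
              (G x).det * (⟪e i, F x⟫ * lam θ (x, F x, G x) ((G x).inverse (e i))) := fun i => by
          rw [det_add_rank_one hd, lam_mul hθ, apply_inverse hd]
          simp only [L, ContinuousLinearMap.comp_apply, ContinuousLinearMap.coe_snd',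
            innerSL_apply_apply, he]
          ring
        simp only [k1, hP, map_smul, map_sum, smul_eq_mul, sum_add_distrib, ← mul_sum, sum_const,
          card_univ, Fintype.card_fin, nsmul_eq_mul]
        ring
      · have d0 : (0 : E →L[ℝ] E).det = 0 := by simp [ContinuousLinearMap.det]
        simp only [hd, zero_add, det_rank_one hn, d0, sub_self, sum_const_zero, mul_zero,
          zero_smul, map_zero]
    · have k1 : ∀ i, lam (fun p => θ p * L i p) (x, F x, G x) = 0 := fun i =>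
        lam_out hS.isClosed (fun p hp => by rw [h0 p hp, zero_mul]) hxS _ _
      simp only [k1, lam_out hS.isClosed h0 hxS, h0 (x, F x) hxS,
        ContinuousLinearMap.zero_smulRight, add_zero, sub_self, sum_const_zero, mul_zero,
        zero_mul, zero_apply]
  refine ⟨(integrable_finsetSum _ fun i _ => (h1 i).1).congr h2, ?_⟩
  rw [← integral_congr_ae h2, integral_finsetSum _ fun i _ => (h1 i).1]
  exact sum_eq_zero fun i _ => (h1 i).2

theorem ident2 (hn : 1 ≤ finrank ℝ E) (h : Sob μ F G) {θ : E × E → ℝ} (hθ : ContDiff ℝ 1 θ)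
    {S : Set E} (hS : IsCompact S) (h0 : ∀ p : E × E, p.1 ∉ S → θ p = 0) {k : ℕ} {e : Fin k → E}
    (he : ∀ i, ⟪e i, e i⟫ = 1) {P : E → E} (hP : ∀ y, P y = ∑ i, ⟪e i, y⟫ • e i) :
    Integrable (fun x => k * θ (x, F x) + lam θ (x, F x, G x) (P x)) μ ∧
    ∫ x, (k * θ (x, F x) + lam θ (x, F x, G x) (P x)) ∂μ = 0 := by
  let L : Fin k → E × E →L[ℝ] ℝ := fun i => (innerSL ℝ (e i)).comp (ContinuousLinearMap.fst ℝ E E)
  have h1 := fun i => null2 hn h (g := fun p => θ p * L i p) (hθ.mul (L i).contDiff) hS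
    (fun p hp => by rw [h0 p hp, zero_mul]) (e i)
  have h2 : (fun x => ∑ i, lam (fun p => θ p * L i p) (x, F x, G x) (e i)) =
      fun x => k * θ (x, F x) + lam θ (x, F x, G x) (P x) := by
    ext x
    have k1 : ∀ i, lam (fun p => θ p * L i p) (x, F x, G x) (e i) =
        θ (x, F x) + ⟪e i, x⟫ * lam θ (x, F x, G x) (e i) := fun i => by
      rw [lam_mul hθ]
      simp only [L, ContinuousLinearMap.comp_apply, ContinuousLinearMap.coe_fst',
        innerSL_apply_apply, he, mul_one]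
    simp only [k1, hP, map_smul, map_sum, smul_eq_mul, sum_add_distrib, sum_const,
      card_univ, Fintype.card_fin, nsmul_eq_mul]
  rw [← h2]
  refine ⟨integrable_finsetSum _ fun i _ => (h1 i).1, ?_⟩
  rw [integral_finsetSum _ fun i _ => (h1 i).1]
  exact sum_eq_zero fun i _ => (h1 i).2

end Pool.Agent.MP_29b5d3_an.h48

end MrgPart3

-- ======== part 4: formerly Pool.Agent.MP_29b5d3_an.h48.Weight
section MrgPart4

/-! Bounded weights with a slowly varying exponent. -/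

set_option autoImplicit false

namespace Pool.Agent.MP_29b5d3_an.h48

/-- a bounded weight `φ` with slowly varying logarithmic derivative `l` -/
structure Wt (q ε B : ℝ) (φ l κ : ℝ → ℝ) : Prop where
  c1 : ∀ v, 0 < v → ContDiffAt ℝ 1 φ v
  c2 : ∀ v, 0 < v → ContDiffAt ℝ 1 l v
  c3 : ∀ v, 0 < v → ContinuousAt κ v
  d1 : ∀ v, 0 < v → HasDerivAt φ (l v * φ v / (2 * v)) v
  d2 : ∀ v, 0 < v → HasDerivAt l (κ v / (2 * v)) v
  l0 : ∀ v, 0 ≤ v → 0 ≤ l v
  l1 : ∀ v, 0 ≤ v → l v ≤ q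
  k1 : ∀ v, 0 ≤ v → |κ v| ≤ ε
  p0 : ∀ v, 0 ≤ v → 0 ≤ φ v
  p1 : ∀ v, 0 ≤ v → φ v ≤ B
  p2 : ∀ v, 0 ≤ v → φ v ≤ v ^ (q / 2)

theorem exists_wt {q ε : ℝ} (hq : 0 < q) (hε : 0 < ε) : ∃ c : ℝ, 0 < c ∧ ∀ Λ : ℝ, 0 < Λ →
    ∃ (B : ℝ) (φ l κ : ℝ → ℝ), Wt q ε B φ l κ ∧ Measurable φ ∧
      ∀ v, 0 ≤ v → v ≤ Λ → c * v ^ (q / 2) ≤ φ v := by
  set a := ε / (2 * q) with ha
  have a0 : 0 < a := by positivity
  refine ⟨2 ^ (-(q / (2 * a))), by positivity, fun Λ hΛ => ?_⟩
  have z0 : ∀ v, 0 ≤ v → 0 ≤ (v / Λ) ^ a := fun v hv => by positivity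
  have zc : ∀ v, 0 < v → ContDiffAt ℝ 1 (fun v => (v / Λ) ^ a) v := fun v hv =>
    (contDiffAt_id.div_const Λ).rpow_const_of_ne (by positivity)
  have zd : ∀ v, 0 < v → HasDerivAt (fun v => (v / Λ) ^ a) (a * (v / Λ) ^ a / v) v :=
    fun v hv => by
      refine (((hasDerivAt_id v).div_const Λ).rpow_const
        (Or.inl (by simp only [id]; positivity))).congr_deriv ?_
      simp only [id]
      rw [Real.rpow_sub_one (by positivity)]
      field_simp
  have e0 : -(q / (2 * a)) ≤ 0 := neg_nonpos.2 (by positivity)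
  refine ⟨Λ ^ (q / 2), fun v => v ^ (q / 2) * (1 + (v / Λ) ^ a) ^ (-(q / (2 * a))),
    fun v => q / (1 + (v / Λ) ^ a), fun v => -(2 * a * q * (v / Λ) ^ a / (1 + (v / Λ) ^ a) ^ 2),
    ⟨fun v hv => ?_, fun v hv => ?_, fun v hv => ?_, fun v hv => ?_, fun v hv => ?_,
      fun v hv => ?_, fun v hv => ?_, fun v hv => ?_, fun v hv => ?_, fun v hv => ?_,
      fun v hv => ?_⟩, by fun_prop, fun v hv hv' => ?_⟩
  · exact (contDiffAt_id.rpow_const_of_ne hv.ne').mul
      ((contDiffAt_const.add (zc v hv)).rpow_const_of_ne (by positivity))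
  · exact contDiffAt_const.div (contDiffAt_const.add (zc v hv)) (by positivity)
  · have := (zc v hv).continuousAt
    have z1 : (1 + (v / Λ) ^ a) ^ 2 ≠ 0 := by positivity
    exact ((continuousAt_const.mul this).div ((continuousAt_const.add this).pow 2) z1).neg
  · have z1 : 0 < 1 + (v / Λ) ^ a := by positivity
    refine ((Real.hasDerivAt_rpow_const (Or.inl hv.ne')).fun_mul
      (((zd v hv).const_add 1).rpow_const (Or.inl z1.ne'))).congr_deriv ?_
    rw [Real.rpow_sub_one hv.ne', Real.rpow_sub_one z1.ne']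
    generalize (1 + (v / Λ) ^ a) ^ (-(q / (2 * a))) = y
    generalize (v / Λ) ^ a = z at z1
    field_simp
    ring
  · have z1 : 0 < 1 + (v / Λ) ^ a := by positivity
    refine ((hasDerivAt_const v q).fun_div ((zd v hv).const_add 1) z1.ne').congr_deriv ?_
    generalize (v / Λ) ^ a = z at z1
    field_simp
    ring
  · positivity
  · exact div_le_self hq.le (by linarith [z0 v hv])
  · have z1 := z0 v hv
    generalize (v / Λ) ^ a = z at z1
    rw [abs_neg, abs_of_nonneg (by positivity), div_le_iff₀ (by positivity),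
      show 2 * a * q = ε by rw [ha]; field_simp]
    gcongr
    nlinarith
  · positivity
  · rcases hv.eq_or_lt with rfl | hv
    · rw [Real.zero_rpow (by positivity), zero_mul]; positivity
    have z1 : 0 < (v / Λ) ^ a := by positivity
    calc _ ≤ v ^ (q / 2) * ((v / Λ) ^ a) ^ (-(q / (2 * a))) :=
          mul_le_mul_of_nonneg_left (Real.rpow_le_rpow_of_nonpos z1 (by linarith) e0)
            (by positivity)
      _ = _ := by
          rw [← Real.rpow_mul (by positivity), show a * -(q / (2 * a)) = -(q / 2) by field_simp,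
            Real.rpow_neg (by positivity), Real.div_rpow hv.le hΛ.le]
          have : 0 < v ^ (q / 2) := by positivity
          field_simp
  · exact mul_le_of_le_one_right (by positivity)
      (Real.rpow_le_one_of_one_le_of_nonpos (by linarith [z0 v hv]) e0)
  · have : (v / Λ) ^ a ≤ 1 := Real.rpow_le_one (by positivity) ((div_le_one hΛ).2 hv') a0.le
    rw [mul_comm]
    exact mul_le_mul_of_nonneg_left
      (Real.rpow_le_rpow_of_nonpos (by positivity) (by linarith) e0) (by positivity)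

/-- the first profile -/
noncomputable def bet (n : ℕ) (φ l : ℝ → ℝ) (v : ℝ) : ℝ := (n + l v) * φ v

/-- the second profile -/
noncomputable def gam (n : ℕ) (φ l : ℝ → ℝ) (v : ℝ) : ℝ := l v * φ v * √v ^ n

/-- the common logarithmic derivative -/
noncomputable def sig (n : ℕ) (φ l κ : ℝ → ℝ) (v : ℝ) : ℝ := (l v * (n + l v) + κ v) * φ v

variable {q ε B : ℝ} {φ l κ : ℝ → ℝ}

theorem Wt.bet_c (h : Wt q ε B φ l κ) (n : ℕ) {v : ℝ} (hv : 0 < v) :
    ContDiffAt ℝ 1 (bet n φ l) v := (contDiffAt_const.add (h.c2 v hv)).mul (h.c1 v hv)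

theorem Wt.gam_c (h : Wt q ε B φ l κ) (n : ℕ) {v : ℝ} (hv : 0 < v) :
    ContDiffAt ℝ 1 (gam n φ l) v :=
  ((h.c2 v hv).mul (h.c1 v hv)).mul ((Real.contDiffAt_sqrt hv.ne').pow n)

theorem Wt.sig_c (h : Wt q ε B φ l κ) (n : ℕ) {v : ℝ} (hv : 0 < v) :
    ContinuousAt (sig n φ l κ) v :=
  (((h.c2 v hv).continuousAt.mul (continuousAt_const.add (h.c2 v hv).continuousAt)).add
    (h.c3 v hv)).mul (h.c1 v hv).continuousAt

theorem Wt.bet_d (h : Wt q ε B φ l κ) (n : ℕ) {v : ℝ} (hv : 0 < v) :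
    HasDerivAt (bet n φ l) (sig n φ l κ v / (2 * v)) v :=
  (((h.d2 v hv).const_add _).fun_mul (h.d1 v hv)).congr_deriv (by unfold sig; field_simp; ring)

theorem Wt.gam_d (h : Wt q ε B φ l κ) (n : ℕ) {v : ℝ} (hv : 0 < v) :
    HasDerivAt (gam n φ l) (sig n φ l κ v * √v ^ n / (2 * v)) v := by
  have s0 : 0 < √v := Real.sqrt_pos.2 hv
  have h1 : HasDerivAt (fun v => √v ^ n) (n * √v ^ n / (2 * v)) v := by
    refine ((Real.hasDerivAt_sqrt hv.ne').fun_pow n).congr_deriv ?_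
    rcases n with _ | n
    · simp
    · have := Real.mul_self_sqrt hv.le
      rw [Nat.add_sub_cancel, pow_succ]
      generalize √v = s at *
      subst this
      field_simp
  refine (((h.d2 v hv).fun_mul (h.d1 v hv)).fun_mul h1).congr_deriv ?_
  unfold sig
  field_simp
  ring

theorem Wt.bet_le (h : Wt q ε B φ l κ) (n : ℕ) {v : ℝ} (hv : 0 ≤ v) :
    0 ≤ bet n φ l v ∧ bet n φ l v ≤ (n + q) * φ v := by
  have := h.l0 v hv
  have := h.l1 v hv
  have := h.p0 v hv
  unfold bet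
  exact ⟨by positivity, by gcongr⟩

theorem Wt.gam_le (h : Wt q ε B φ l κ) (n : ℕ) {v : ℝ} (hv : 0 ≤ v) :
    0 ≤ gam n φ l v ∧ gam n φ l v ≤ q * φ v * √v ^ n := by
  have := h.l0 v hv
  have := h.l1 v hv
  have := h.p0 v hv
  unfold gam
  exact ⟨by positivity, by gcongr⟩

theorem Wt.sig_le (h : Wt q ε B φ l κ) (n : ℕ) {v : ℝ} (hv : 0 ≤ v) :
    |sig n φ l κ v| ≤ (q * (n + q) + ε) * φ v := by
  have a1 := h.l0 v hv
  have a2 := h.l1 v hv
  have a3 := h.p0 v hv
  have a4 := h.k1 v hv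
  unfold sig
  rw [abs_mul, abs_of_nonneg a3]
  gcongr
  refine (abs_add_le _ _).trans (add_le_add ?_ a4)
  rw [abs_of_nonneg (by positivity)]
  gcongr
  linarith

end Pool.Agent.MP_29b5d3_an.h48

end MrgPart4

-- ======== part 5: formerly Pool.Agent.MP_29b5d3_an.h48.Xi
section MrgPart5

/-! The regularised integrand as a function of real parameters. -/

set_option autoImplicit false

namespace Pool.Agent.MP_29b5d3_an.h48

open Filter Topology MeasureTheory

/-- the regularised quotient -/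
noncomputable def vq (r Y δ : ℝ) : ℝ := (Y ^ 2 + δ ^ 2) / (r ^ 2 + δ)

/-- the regularised integrand -/
noncomputable def Xi (n k : ℕ) (φ l κ : ℝ → ℝ) (r Y η J d1 d2 c ρ δ : ℝ) : ℝ :=
  k * η * bet n φ l (vq r Y δ) * J + d1 * bet n φ l (vq r Y δ) +
    η * sig n φ l κ (vq r Y δ) * ((J * Y ^ 2 / vq r Y δ - c) / (r ^ 2 + δ)) -
  (k * η * gam n φ l (vq r Y δ) + d2 * gam n φ l (vq r Y δ) +
    η * sig n φ l κ (vq r Y δ) * (√(vq r Y δ) ^ n * ((ρ / vq r Y δ - r ^ 2) / (r ^ 2 + δ))))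

variable {q ε B : ℝ} {φ l κ : ℝ → ℝ}

theorem vq_pos (r Y : ℝ) {δ : ℝ} (hδ : 0 < δ) : 0 < vq r Y δ := by unfold vq; positivity

theorem Wt.nonneg (h : Wt q ε B φ l κ) : 0 ≤ q ∧ 0 ≤ ε ∧ 0 ≤ B :=
  ⟨(h.l0 0 le_rfl).trans (h.l1 0 le_rfl), (abs_nonneg _).trans (h.k1 0 le_rfl),
    (h.p0 0 le_rfl).trans (h.p1 0 le_rfl)⟩

theorem abs_mul3 {a b c A B C : ℝ} (ha : |a| ≤ A) (hb : |b| ≤ B) (hc : |c| ≤ C) :
    |a * b * c| ≤ A * B * C := by
  have := (abs_nonneg _).trans ha
  have := (abs_nonneg _).trans hb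
  rw [abs_mul, abs_mul]
  gcongr

theorem xi_abs (h : Wt q ε B φ l κ) (n k : ℕ) {r Y η J d1 d2 c ρ δ T1 T2 D : ℝ} (hδ : 0 < δ)
    (hη : |η| ≤ 1) (hJ : |J| ≤ T1) (h1 : |d1| ≤ D * T1) (h2 : |d2| ≤ D)
    (h3 : |(J * Y ^ 2 / vq r Y δ - c) / (r ^ 2 + δ)| ≤ 2 * T1) (h4 : √(vq r Y δ) ^ n ≤ T2)
    (h5 : |√(vq r Y δ) ^ n * ((ρ / vq r Y δ - r ^ 2) / (r ^ 2 + δ))| ≤ 2 * T2) :
    |Xi n k φ l κ r Y η J d1 d2 c ρ δ| ≤
      ((k + D) * (n + q) + 2 * (q * (n + q) + ε)) * B * (T1 + T2) := by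
  obtain ⟨q0, e0, B0⟩ := h.nonneg
  have v0 := (vq_pos r Y hδ).le
  unfold Xi
  generalize vq r Y δ = v at *
  have n0 : (0 : ℝ) ≤ n := n.cast_nonneg
  have D0 := (abs_nonneg _).trans h2
  have T0 := (abs_nonneg _).trans hJ
  have T0' : 0 ≤ T2 := le_trans (by positivity) h4
  have p1 := h.p1 v v0
  have p0 := h.p0 v v0
  have b1 : |bet n φ l v| ≤ (n + q) * B := by
    rw [abs_of_nonneg (h.bet_le n v0).1]
    exact (h.bet_le n v0).2.trans (by gcongr)
  have b2 : |gam n φ l v| ≤ (n + q) * B * T2 := by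
    rw [abs_of_nonneg (h.gam_le n v0).1]
    exact (h.gam_le n v0).2.trans (by gcongr; linarith)
  have b3 : |sig n φ l κ v| ≤ (q * (n + q) + ε) * B := (h.sig_le n v0).trans (by gcongr)
  have k0 : |(k : ℝ) * η| ≤ k := by
    rw [abs_mul, Nat.abs_cast]; exact mul_le_of_le_one_right k.cast_nonneg hη
  have a1 := abs_le.1 (abs_mul3 k0 b1 hJ)
  have a2 := abs_le.1 (abs_mul3 (abs_one.le) h1 b1)
  have a3 := abs_le.1 (abs_mul3 hη b3 h3)
  have a4 := abs_le.1 (abs_mul3 (abs_one.le) k0 b2)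
  have a5 := abs_le.1 (abs_mul3 (abs_one.le) h2 b2)
  have a6 := abs_le.1 (abs_mul3 hη b3 h5)
  rw [abs_le]
  constructor <;> linarith [a1.1, a1.2, a2.1, a2.2, a3.1, a3.2, a4.1, a4.2, a5.1, a5.2, a6.1, a6.2]

theorem xi_bound (h : Wt q ε B φ l κ) {n : ℕ} (hn : 1 ≤ n) (k : ℕ)
    {r Y η J d1 d2 c ρ δ s D : ℝ} (hδ : 0 < δ) (hδ1 : δ ≤ 1) (hr : 0 ≤ r) (hY : 0 ≤ Y)
    (hs : 0 ≤ s) (hu : Y ≤ s * r) (hη : |η| ≤ 1) (hJ : |J| ≤ s ^ n) (h1 : |d1| ≤ D * (1 + s) ^ n)
    (h2 : |d2| ≤ D) (hc : |c| ≤ s ^ n * r ^ 2) (hρ : |ρ| ≤ Y * (s * r)) :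
    |Xi n k φ l κ r Y η J d1 d2 c ρ δ| ≤
      ((k + D) * (n + q) + 2 * (q * (n + q) + ε)) * B * ((1 + s) ^ n + (1 + s) ^ n) := by
  have v0 := vq_pos r Y hδ
  have r0 : 0 < r ^ 2 + δ := by positivity
  have t1 : s ^ n ≤ (1 + s) ^ n := by gcongr; linarith
  have v1 : vq r Y δ * (r ^ 2 + δ) = Y ^ 2 + δ ^ 2 := by unfold vq; field_simp
  have v2 : √(vq r Y δ) ≤ 1 + s := by
    rw [Real.sqrt_le_left (by positivity), vq, div_le_iff₀ r0]
    have : Y ^ 2 ≤ (s * r) ^ 2 := by gcongr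
    nlinarith [mul_nonneg hs (sq_nonneg r), mul_nonneg hs hδ.le, mul_nonneg (sq_nonneg s) hδ.le,
      sq_nonneg r]
  refine xi_abs h n k hδ hη (hJ.trans t1) h1 h2 ?_ (by gcongr) ?_
  · rw [abs_div, abs_of_pos r0, div_le_iff₀ r0]
    have a1 : |J * Y ^ 2 / vq r Y δ| ≤ (1 + s) ^ n * (r ^ 2 + δ) := by
      rw [abs_div, abs_of_pos v0, div_le_iff₀ v0, abs_mul, abs_of_nonneg (sq_nonneg Y), mul_assoc,
        mul_comm _ (vq r Y δ), v1]
      gcongr
      · exact hJ.trans t1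
      · linarith [sq_nonneg δ]
    have a2 : |c| ≤ (1 + s) ^ n * (r ^ 2 + δ) := hc.trans (by gcongr; linarith)
    linarith [abs_sub (J * Y ^ 2 / vq r Y δ) c]
  · obtain ⟨m, rfl⟩ : ∃ m, n = m + 1 := ⟨n - 1, by omega⟩
    have w0 : 0 < √(vq r Y δ) := Real.sqrt_pos.2 v0
    have w1 := Real.mul_self_sqrt v0.le
    have a1 : Y * r ≤ √(vq r Y δ) * (r ^ 2 + δ) := by
      refine abs_le_of_sq_le_sq' ?_ (by positivity) |>.2
      rw [mul_pow, mul_pow, Real.sq_sqrt v0.le, sq (r ^ 2 + δ), ← mul_assoc, v1]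
      gcongr <;> linarith [sq_nonneg δ]
    generalize √(vq r Y δ) = w at *
    rw [← w1, abs_mul, abs_of_pos (by positivity), abs_div, abs_of_pos r0]
    have a2 : |ρ / (w * w) - r ^ 2| ≤ (s / w + 1) * (r ^ 2 + δ) := by
      have b1 : |ρ / (w * w)| ≤ s / w * (r ^ 2 + δ) := by
        rw [abs_div, abs_of_pos (mul_pos w0 w0), div_le_iff₀ (mul_pos w0 w0)]
        calc _ ≤ s * (Y * r) := hρ.trans (le_of_eq (by ring))
          _ ≤ s * (w * (r ^ 2 + δ)) := by gcongr
          _ = _ := by field_simp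
      have b2 := abs_sub (ρ / (w * w)) (r ^ 2)
      rw [abs_of_nonneg (sq_nonneg r)] at b2
      linarith
    calc _ ≤ w ^ (m + 1) * (s / w + 1) := by
          gcongr
          exact (div_le_iff₀ r0).2 a2
      _ = w ^ m * s + w ^ m * w := by rw [pow_succ]; field_simp
      _ ≤ (1 + s) ^ m * (1 + s) + (1 + s) ^ m * (1 + s) := by gcongr; linarith
      _ = _ := by ring

theorem xi_tendsto (h : Wt q ε B φ l κ) {n : ℕ} (hn : 1 ≤ n) (k : ℕ) {r Y η J d1 d2 c ρ : ℝ}
    (hr : r ≠ 0) (hη : |η| ≤ 1) (h0 : Y = 0 → J = 0 ∧ d1 = 0 ∧ c = 0 ∧ ρ = 0) :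
    Tendsto (fun j : ℕ => Xi n k φ l κ r Y η J d1 d2 c ρ (1 / (j + 1))) atTop
      (𝓝 (Xi n k φ l κ r Y η J d1 d2 c ρ 0)) := by
  have t0 := tendsto_one_div_add_atTop_nhds_zero_nat (𝕜 := ℝ)
  have r0 : r ^ 2 + 0 ≠ 0 := by positivity
  have c0 : ContinuousAt (vq r Y) 0 := by
    unfold vq
    exact ContinuousAt.div (by fun_prop) (by fun_prop) r0
  rcases eq_or_ne Y 0 with rfl | hY
  · obtain ⟨rfl, rfl, rfl, rfl⟩ := h0 rfl
    have v0 : vq r 0 0 = 0 := by simp [vq]
    have e : Xi n k φ l κ r 0 η 0 0 d2 0 0 0 = 0 := by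
      simp [Xi, v0, gam, zero_pow (show n ≠ 0 by omega)]
    rw [e]
    refine squeeze_zero_norm (a := fun j : ℕ => ((k + |d2|) * (n + q) + 2 * (q * (n + q) + ε)) *
      B * (0 + √(vq r 0 (1 / (j + 1))) ^ n)) (fun j => ?_) ?_
    · have p : (0 : ℝ) < 1 / (j + 1) := by positivity
      refine xi_abs h n k p hη (by simp) (by simp) le_rfl (by simp) le_rfl ?_
      rw [zero_div, zero_sub, neg_div, mul_neg, abs_neg, abs_of_nonneg (by positivity), mul_comm]
      gcongr
      rw [div_le_iff₀ (by positivity)]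
      linarith [sq_nonneg r]
    · have t1 := ((((c0.sqrt.pow n).tendsto.comp t0).const_add 0).const_mul
        (((k + |d2|) * (n + q) + 2 * (q * (n + q) + ε)) * B))
      simpa [v0, zero_pow (show n ≠ 0 by omega)] using t1
  · have v0 : 0 < vq r Y 0 := by unfold vq; positivity
    have c1 := (h.bet_c n v0).continuousAt.comp c0
    have c2 := (h.gam_c n v0).continuousAt.comp c0
    have c3 := (h.sig_c n v0).comp c0
    have c4 : ContinuousAt (fun δ : ℝ => r ^ 2 + δ) 0 := by fun_prop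
    have c5 : ContinuousAt (Xi n k φ l κ r Y η J d1 d2 c ρ) 0 :=
      ((((continuousAt_const.mul c1).mul continuousAt_const).add (continuousAt_const.mul c1)).add
        ((continuousAt_const.mul c3).mul
          (((continuousAt_const.div c0 v0.ne').sub continuousAt_const).div c4 r0))).sub
        (((continuousAt_const.mul c2).add (continuousAt_const.mul c2)).add
          ((continuousAt_const.mul c3).mul ((c0.sqrt.pow n).mul
            (((continuousAt_const.div c0 v0.ne').sub continuousAt_const).div c4 r0))))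
    exact c5.tendsto.comp t0

theorem xi_lower (h : Wt q ε B φ l κ) {m : ℕ} (k : ℕ) {r Y η J d1 d2 c ρ s D R κ0 : ℝ}
    (hr : 0 < r) (hY : 0 < Y) (hR : Y ≤ R) (hu : Y / r ≤ s) (hη : 0 ≤ η) (hJ : |J| ≤ s ^ (m + 1))
    (h1 : |d1| ≤ D * (s ^ m * Y)) (h2 : |d2| ≤ D * r) (hc : |c| ≤ s ^ (m + 1) * r ^ 2)
    (hρ : |ρ| ≤ Y * (s * r))
    (hN : ∀ x, 0 ≤ x → x ≤ q → κ0 * s ^ (m + 1) ≤ ((m + 1 : ℕ) + x) * k * J +
      x * ((m + 1 : ℕ) + x) * (J - c / r ^ 2) - (x * k * (Y / r) ^ (m + 1) +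
        x * ((m + 1 : ℕ) + x) * ((Y / r) ^ (m + 1) * (ρ / Y ^ 2 - 1)))) :
    (κ0 - 4 * ε) * (η * φ ((Y / r) ^ 2) * s ^ (m + 1)) ≤
      Xi (m + 1) k φ l κ r Y η J d1 d2 c ρ 0 + D * R * ((m + 1 : ℕ) + 2 * q) * (s ^ m * s ^ q) := by
  obtain ⟨q0, e0, B0⟩ := h.nonneg
  have u0 : 0 < Y / r := by positivity
  have s0 : 0 < s := u0.trans_le hu
  have D0 : 0 ≤ D := le_of_mul_le_mul_right (by simpa using (abs_nonneg _).trans h2) hr
  have v1 : vq r Y 0 = (Y / r) ^ 2 := by unfold vq; field_simp; ring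
  have v2 : √((Y / r) ^ 2) = Y / r := Real.sqrt_sq u0.le
  have e1 : (J * Y ^ 2 / (Y / r) ^ 2 - c) / (r ^ 2 + 0) = J - c / r ^ 2 := by field_simp; ring
  have e2 : (ρ / (Y / r) ^ 2 - r ^ 2) / (r ^ 2 + 0) = ρ / Y ^ 2 - 1 := by field_simp; ring
  have v0 : 0 ≤ (Y / r) ^ 2 := by positivity
  have l0 := h.l0 _ v0
  have l1 := h.l1 _ v0
  have k1 := h.k1 _ v0
  have p0 := h.p0 _ v0
  have p2 : φ ((Y / r) ^ 2) ≤ s ^ q := (h.p2 _ v0).trans (by
    rw [← Real.rpow_natCast, ← Real.rpow_mul u0.le, show ((2 : ℕ) : ℝ) * (q / 2) = q by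
      push_cast; ring]
    gcongr)
  have a0 := hN _ l0 l1
  have a1 : |J - c / r ^ 2| ≤ 2 * s ^ (m + 1) := by
    have : |c / r ^ 2| ≤ s ^ (m + 1) := by
      rw [abs_div, abs_of_pos (pow_pos hr 2), div_le_iff₀ (pow_pos hr 2)]; exact hc
    linarith [abs_sub J (c / r ^ 2)]
  have a2 : |(Y / r) ^ (m + 1) * (ρ / Y ^ 2 - 1)| ≤ 2 * s ^ (m + 1) := by
    have b1 : |ρ / Y ^ 2| ≤ s / (Y / r) := by
      rw [abs_div, abs_of_pos (pow_pos hY 2), div_le_iff₀ (pow_pos hY 2)]
      exact hρ.trans (le_of_eq (by field_simp))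
    have b2 := abs_sub (ρ / Y ^ 2) 1
    rw [abs_one] at b2
    rw [abs_mul, abs_of_pos (pow_pos u0 _)]
    generalize Y / r = u at *
    calc _ ≤ u ^ (m + 1) * (s / u + 1) := by gcongr; linarith
      _ = u ^ m * s + u ^ m * u := by rw [pow_succ]; field_simp
      _ ≤ s ^ m * s + s ^ m * s := by gcongr
      _ = _ := by ring
  have a3 : |d2 * (Y / r) ^ (m + 1)| ≤ D * (s ^ m * Y) := by
    rw [abs_mul, abs_of_pos (pow_pos u0 _)]
    calc _ ≤ D * r * (Y / r) ^ (m + 1) := by gcongr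
      _ = D * ((Y / r) ^ m * Y) := by rw [pow_succ]; field_simp
      _ ≤ _ := by gcongr
  have a4 : D * (s ^ m * Y) ≤ D * (s ^ m * R) := by gcongr
  rw [Xi, v1, e1, e2, bet, gam, sig, v2]
  have n0 : (0 : ℝ) ≤ (m + 1 : ℕ) := Nat.cast_nonneg _
  generalize ((m + 1 : ℕ) : ℝ) = N at *
  generalize φ ((Y / r) ^ 2) = f at *
  generalize l ((Y / r) ^ 2) = x at *
  generalize κ ((Y / r) ^ 2) = y at *
  generalize J - c / r ^ 2 = X at *
  generalize (Y / r) ^ (m + 1) = U at *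
  generalize U * (ρ / Y ^ 2 - 1) = Z at *
  have W0 : 0 ≤ D * (s ^ m * R) := ((abs_nonneg _).trans h1).trans a4
  have b1 := (abs_le.1 (abs_mul3 abs_one.le k1 a1)).1
  have b2 := (abs_le.1 (abs_mul3 abs_one.le k1 a2)).2
  have b3 := (abs_le.1 (abs_mul3 (h1.trans a4) (show |N + x| ≤ N + q by
    rw [abs_of_nonneg (by linarith)]; linarith) (show |f| ≤ s ^ q by rwa [abs_of_nonneg p0]))).1
  have b4 := (abs_le.1 (abs_mul3 (a3.trans a4) (show |x| ≤ q by rwa [abs_of_nonneg l0])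
    (show |f| ≤ s ^ q by rwa [abs_of_nonneg p0]))).2
  have b5 : 0 ≤ η * f * ((N + x) * k * J + x * (N + x) * X - (x * k * U + x * (N + x) * Z) +
      (y * X - y * Z) - (κ0 - 4 * ε) * s ^ (m + 1)) :=
    mul_nonneg (mul_nonneg hη p0) (by linarith)
  linarith

theorem integrable_of_eventually_le {α : Type*} [MeasurableSpace α] {μ : Measure α} {f : α → ℝ}
    {g : ℕ → α → ℝ} {C : ℝ} (hf : AEStronglyMeasurable f μ) (f0 : ∀ x, 0 ≤ f x)
    (hg : ∀ j, Integrable (g j) μ) (g0 : ∀ j x, 0 ≤ g j x) (hC : ∀ j, ∫ x, g j x ∂μ ≤ C)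
    (h : ∀ᵐ x ∂μ, ∀ᶠ j in atTop, f x ≤ g j x) : Integrable f μ := by
  refine ⟨hf, (hasFiniteIntegral_iff_ofReal (Eventually.of_forall f0)).2 ?_⟩
  calc _ ≤ ∫⁻ x, liminf (fun j => ENNReal.ofReal (g j x)) atTop ∂μ := by
        refine lintegral_mono_ae (h.mono fun x hx => ?_)
        exact le_liminf_of_le (h := hx.mono fun j hj => ENNReal.ofReal_le_ofReal hj)
    _ ≤ liminf (fun j => ∫⁻ x, ENNReal.ofReal (g j x) ∂μ) atTop :=
        lintegral_liminf_le' fun j => (hg j).1.aemeasurable.ennreal_ofReal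
    _ ≤ ENNReal.ofReal C := by
        refine liminf_le_of_frequently_le (Eventually.frequently (Eventually.of_forall fun j => ?_))
        rw [← ofReal_integral_eq_lintegral_ofReal (hg j) (Eventually.of_forall (g0 j))]
        exact ENNReal.ofReal_le_ofReal (hC j)
    _ < ⊤ := ENNReal.ofReal_lt_top

end Pool.Agent.MP_29b5d3_an.h48

end MrgPart5

-- ======== part 6: formerly Pool.Agent.MP_29b5d3_an.h48.Core
section MrgPart6

/-! The gain of integrability. -/

set_option autoImplicit false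

namespace Pool.Agent.MP_29b5d3_an.h48

open Module MeasureTheory Metric Filter Topology Finset
open scoped RealInnerProductSpace

variable {E : Type*} [NormedAddCommGroup E] [InnerProductSpace ℝ E]

/-- `P` is an orthogonal projection of rank `k` -/
def Proj (k : ℕ) (P : E →L[ℝ] E) : Prop :=
  ∃ e : Fin k → E, Orthonormal ℝ e ∧ ∀ y, P y = ∑ i, ⟪e i, y⟫ • e i

theorem Proj.inner_proj {k : ℕ} {P : E →L[ℝ] E} (h : Proj k P) (y w : E) :
    ⟪P y, P w⟫ = ⟪P y, w⟫ := by
  obtain ⟨e, he, h⟩ := h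
  rw [h y, h w, he.inner_sum, sum_inner]
  simp [real_inner_smul_left]

/-- the regularised quotient as a function of the point and the value -/
noncomputable def vd (P : E →L[ℝ] E) (δ : ℝ) (p : E × E) : ℝ := vq ‖P p.1‖ ‖P p.2‖ δ

theorem contDiff_vd (P : E →L[ℝ] E) {δ : ℝ} (hδ : 0 < δ) : ContDiff ℝ 1 (vd P δ) := by
  unfold vd vq
  exact (((P.contDiff.comp contDiff_snd).norm_sq ℝ).add contDiff_const).div
    (((P.contDiff.comp contDiff_fst).norm_sq ℝ).add contDiff_const) fun p => by positivity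

theorem contDiff_theta (P : E →L[ℝ] E) {δ : ℝ} (hδ : 0 < δ) {η : E → ℝ} (hη : ContDiff ℝ 1 η)
    {b : ℝ → ℝ} (hb : ∀ v, 0 < v → ContDiffAt ℝ 1 b v) :
    ContDiff ℝ 1 fun p : E × E => η p.1 * b (vd P δ p) :=
  (hη.comp contDiff_fst).mul (contDiff_iff_contDiffAt.2 fun p =>
    (hb _ (vq_pos _ _ hδ)).comp p (contDiff_vd P hδ).contDiffAt)

theorem lam_theta {k : ℕ} {P : E →L[ℝ] E} (hP : Proj k P) {δ : ℝ} (hδ : 0 < δ) {η : E → ℝ}
    (hη : ContDiff ℝ 1 η) {b : ℝ → ℝ} {σ : ℝ} (x y : E) (A : E →L[ℝ] E) (w : E)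
    (hb : HasDerivAt b (σ / (2 * vq ‖P x‖ ‖P y‖ δ)) (vq ‖P x‖ ‖P y‖ δ)) :
    lam (fun p : E × E => η p.1 * b (vd P δ p)) (x, y, A) w =
      fderiv ℝ η x w * b (vq ‖P x‖ ‖P y‖ δ) +
        η x * σ * ((⟪P y, A w⟫ / vq ‖P x‖ ‖P y‖ δ - ⟪P x, w⟫) / (‖P x‖ ^ 2 + δ)) := by
  have h0 : ‖P x‖ ^ 2 + δ ≠ 0 := by positivity
  have h1 := ((P.hasFDerivAt.comp (x, y) hasFDerivAt_snd).norm_sq).add_const (δ ^ 2)
  have h2 := ((P.hasFDerivAt.comp (x, y) hasFDerivAt_fst).norm_sq).add_const δ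
  have h3 : HasFDerivAt (vd P δ) _ (x, y) :=
    h1.fun_mul ((hasDerivAt_inv h0).comp_hasFDerivAt (x, y) h2)
  have h4 := ((hη.differentiable one_ne_zero x).hasFDerivAt.comp (x, y) hasFDerivAt_fst).fun_mul
    (hb.comp_hasFDerivAt (x, y) h3)
  rw [lam_apply]
  erw [h4.fderiv]
  have v0 := (vq_pos ‖P x‖ ‖P y‖ hδ).ne'
  have v1 : ‖P y‖ ^ 2 + δ ^ 2 = vq ‖P x‖ ‖P y‖ δ * (‖P x‖ ^ 2 + δ) := by unfold vq; field_simp
  simp only [add_apply, smul_apply, Function.comp_apply, ContinuousLinearMap.comp_apply,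
    ContinuousLinearMap.coe_fst', ContinuousLinearMap.coe_snd', innerSL_apply_apply,
    hP.inner_proj, smul_eq_mul, nsmul_eq_mul, vd, v1]
  generalize vq ‖P x‖ ‖P y‖ δ = v at *
  generalize ‖P x‖ ^ 2 + δ = r at *
  push_cast
  field_simp
  ring

variable [FiniteDimensional ℝ E]

theorem apply_adj (A : E →L[ℝ] E) (y : E) : A (A.det • A.inverse y) = A.det • y := by
  rcases eq_or_ne A.det 0 with h | h
  · simp [h]
  · rw [map_smul, apply_inverse h]

/-- the integrand -/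
noncomputable def II (n k : ℕ) (φ l κ : ℝ → ℝ) (P : E →L[ℝ] E) (η : E → ℝ) (δ : ℝ) (x y : E)
    (A : E →L[ℝ] E) : ℝ :=
  Xi n k φ l κ ‖P x‖ ‖P y‖ (η x) A.det (fderiv ℝ η x (A.det • A.inverse (P y)))
    (fderiv ℝ η x (P x)) ⟪P x, A.det • A.inverse (P y)⟫ ⟪P y, A (P x)⟫ δ

variable [MeasurableSpace E] [BorelSpace E] {μ : Measure E} [μ.IsAddHaarMeasure]
  {F : E → E} {G : E → E →L[ℝ] E} {q ε B : ℝ} {φ l κ : ℝ → ℝ}

theorem II_pos (hn : 2 ≤ finrank ℝ E) (h : Sob μ F G) (hw : Wt q ε B φ l κ) (n : ℕ) {k : ℕ}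
    {P : E →L[ℝ] E} (hP : Proj k P) {η : E → ℝ} (hη : ContDiff ℝ 1 η) {S : Set E}
    (hS : IsCompact S) (h0 : ∀ x, x ∉ S → η x = 0)
    (hG : ∀ᵐ x ∂μ, x ∈ S → (G x).det ≠ 0 ∨ G x = 0) {δ : ℝ} (hδ : 0 < δ) :
    Integrable (fun x => II n k φ l κ P η δ x (F x) (G x)) μ ∧
      ∫ x, II n k φ l κ P η δ x (F x) (G x) ∂μ = 0 := by
  obtain ⟨e, he, hPe⟩ := id hP
  have he' : ∀ i, ⟪e i, e i⟫ = 1 := fun i => by rw [real_inner_self_eq_norm_sq, he.1, one_pow]
  have h1 := ident1 hn h (contDiff_theta P hδ hη fun v => hw.bet_c n) hS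
    (fun p hp => by rw [h0 _ hp, zero_mul]) he' hPe hG
  have h2 := ident2 (by omega) h (contDiff_theta P hδ hη fun v => hw.gam_c n) hS
    (fun p hp => by rw [h0 _ hp, zero_mul]) he' hPe
  have e : (fun x => II n k φ l κ P η δ x (F x) (G x)) = fun x =>
      (k * (η x * bet n φ l (vd P δ (x, F x))) * (G x).det +
        lam (fun p => η p.1 * bet n φ l (vd P δ p)) (x, F x, G x)
          ((G x).det • (G x).inverse (P (F x)))) -
      (k * (η x * gam n φ l (vd P δ (x, F x))) +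
        lam (fun p => η p.1 * gam n φ l (vd P δ p)) (x, F x, G x) (P x)) := by
    ext x
    rw [lam_theta hP hδ hη _ _ _ _ (hw.bet_d n (vq_pos _ _ hδ)),
      lam_theta hP hδ hη _ _ _ _ (hw.gam_d n (vq_pos _ _ hδ)), apply_adj, inner_smul_right,
      real_inner_self_eq_norm_sq, real_inner_self_eq_norm_sq, II, Xi, vd]
    ring
  rw [e]
  exact ⟨h1.1.sub h2.1, by rw [integral_sub h1.1 h2.1, h1.2, h2.2, sub_zero]⟩

omit [MeasurableSpace E] [BorelSpace E] in
theorem facts {m d : ℕ} (hn : finrank ℝ E = m + 1) (hd : 1 ≤ d) {A : E →L[ℝ] E} {a y : E}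
    (ha : a ≠ 0) (h : Str d A a y) : ‖y‖ ≤ ‖A‖ * ‖a‖ ∧ |A.det| ≤ ‖A‖ ^ (m + 1) ∧
      |⟪a, A.det • A.inverse y⟫| ≤ ‖A‖ ^ (m + 1) * ‖a‖ ^ 2 ∧ |⟪y, A a⟫| ≤ ‖y‖ * (‖A‖ * ‖a‖) := by
  have h1 := (div_le_iff₀ (norm_pos_iff.2 ha)).1 (h.le_norm hd)
  refine ⟨h1, hn ▸ abs_det_le A, ?_, (abs_real_inner_le_norm _ _).trans ?_⟩
  · calc _ ≤ ‖a‖ * (‖A‖ ^ m * (‖A‖ * ‖a‖)) := (abs_real_inner_le_norm _ _).trans (by
          gcongr
          exact (adj_le hn A y).trans (by gcongr))
      _ = _ := by ring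
  · gcongr
    exact A.le_opNorm a

theorem II_zero {m d : ℕ} (hn : finrank ℝ E = m + 1) (hm : 1 ≤ m) (hd : 1 ≤ d) (h : Sob μ F G)
    (hw : Wt q ε B φ l κ) {k : ℕ} {P : E →L[ℝ] E} (hP : Proj k P) {η : E → ℝ}
    (hη : ContDiff ℝ 1 η) (hη1 : ∀ x, |η x| ≤ 1) {S : Set E} (hS : IsCompact S)
    (h0 : ∀ x, x ∉ S → η x = 0) {K : ℝ} (hK : 0 ≤ K)
    (hG : ∀ᵐ x ∂μ, x ∈ S → P x ≠ 0 ∧ Str d (G x) (P x) (P (F x)) ∧
      ‖G x‖ ^ (m + 1) ≤ K * (G x).det) :
    Integrable (fun x => II (m + 1) k φ l κ P η 0 x (F x) (G x)) μ ∧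
      ∫ x, II (m + 1) k φ l κ P η 0 x (F x) (G x) ∂μ = 0 := by
  have hj := fun j : ℕ => II_pos (by omega) h hw (m + 1) hP hη hS h0
    (hG.mono fun x hx hxS => by
      by_cases hJ : (G x).det = 0
      · have := (hx hxS).2.2
        rw [hJ, mul_zero] at this
        exact Or.inr (norm_eq_zero.1 (pow_eq_zero_iff (by omega) |>.1
          (le_antisymm this (by positivity))))
      · exact Or.inl hJ) (δ := 1 / (j + 1)) (by positivity)
  have out : ∀ x, x ∉ S → ∀ δ, II (m + 1) k φ l κ P η δ x (F x) (G x) = 0 := fun x hx δ => by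
    have : fderiv ℝ η x = 0 := by
      have h1 : η =ᶠ[𝓝 x] fun _ => 0 := by
        filter_upwards [hS.isClosed.isOpen_compl.mem_nhds hx] with y hy using h0 y hy
      rw [h1.fderiv_eq]
      simp
    simp [II, Xi, h0 x hx, this]
  obtain ⟨D, hD⟩ := hS.exists_bound_of_continuousOn
    (hη.continuous_fderiv one_ne_zero).continuousOn
  obtain ⟨R, hR⟩ := hS.exists_bound_of_continuousOn (f := fun x => ‖P x‖ + ‖P (F x)‖)
    (by have := h.cont; fun_prop)
  set C : ℝ := ((k + D * R) * ((m + 1 : ℕ) + q) + 2 * (q * ((m + 1 : ℕ) + q) + ε)) * B with hC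
  have iS : Integrable (S.indicator (1 : E → ℝ)) μ :=
    (integrable_indicator_iff hS.measurableSet).2 (integrableOn_const hS.measure_lt_top.ne)
  have ib : Integrable (fun x => |C| * (2 * (2 ^ (m + 1) *
      (S.indicator 1 x + ‖G x‖ ^ (m + 1))))) μ :=
    (((iS.add (hn ▸ h.int)).const_mul _).const_mul _).const_mul _
  have hb : ∀ j : ℕ, ∀ᵐ x ∂μ, ‖II (m + 1) k φ l κ P η (1 / (j + 1)) x (F x) (G x)‖ ≤
      |C| * (2 * (2 ^ (m + 1) * (S.indicator 1 x + ‖G x‖ ^ (m + 1)))) := fun j => by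
    filter_upwards [hG] with x hx
    by_cases hxS : x ∈ S
    · obtain ⟨a1, a2, -⟩ := hx hxS
      obtain ⟨b1, b2, b3, b4⟩ := facts hn hd a1 a2
      have D0 : 0 ≤ D := (norm_nonneg _).trans (hD x hxS)
      have c1 := hR x hxS
      rw [Real.norm_of_nonneg (by positivity)] at c1
      have c2 : ‖P x‖ ≤ R := by linarith [norm_nonneg (P (F x))]
      have c3 : ‖P (F x)‖ ≤ R := by linarith [norm_nonneg (P x)]
      have c4 : ∀ w, |fderiv ℝ η x w| ≤ D * ‖w‖ := fun w =>
        ((fderiv ℝ η x).le_opNorm w).trans (by gcongr; exact hD x hxS)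
      refine (xi_bound hw (by omega) k (D := D * R) (by positivity)
        (by rw [div_le_one (by positivity)]; linarith [Nat.cast_nonneg (α := ℝ) j])
        (norm_nonneg _) (norm_nonneg _) (norm_nonneg _) b1 (hη1 x) b2 ?_
        ((c4 _).trans (by gcongr)) b3 b4).trans ?_
      · have s1 : 1 ≤ 1 + ‖G x‖ := by linarith [norm_nonneg (G x)]
        calc _ ≤ D * (‖G x‖ ^ m * ‖P (F x)‖) := (c4 _).trans (by gcongr; exact adj_le hn _ _)
          _ ≤ D * ((1 + ‖G x‖) ^ (m + 1) * R) := by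
              gcongr
              exact (pow_le_pow_left₀ (norm_nonneg _) (by linarith) m).trans
                (pow_le_pow_right₀ s1 (by omega))
          _ = _ := by ring
      · rw [← hC, Set.indicator_of_mem hxS, Pi.one_apply, ← two_mul]
        gcongr
        · exact le_abs_self C
        · exact one_add_pow_le (norm_nonneg _) _
    · rw [out x hxS, norm_zero, Set.indicator_of_notMem hxS]
      positivity
  have ht : ∀ᵐ x ∂μ, Tendsto (fun j : ℕ => II (m + 1) k φ l κ P η (1 / (j + 1)) x (F x) (G x))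
      atTop (𝓝 (II (m + 1) k φ l κ P η 0 x (F x) (G x))) := by
    filter_upwards [hG] with x hx
    by_cases hxS : x ∈ S
    · obtain ⟨a1, a2, a3⟩ := hx hxS
      refine xi_tendsto hw (by omega) k (norm_ne_zero_iff.2 a1) (hη1 x) fun hY => ?_
      have b1 := a2.norm_le hd hn hK a3
      rw [hY, zero_div, mul_zero] at b1
      have b2 : G x = 0 := norm_le_zero_iff.1 b1
      have : Nontrivial E := finrank_pos_iff.1 (show 0 < finrank ℝ E by omega)
      simp [b2, ContinuousLinearMap.det]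
    · simp only [out x hxS]
      exact tendsto_const_nhds
  have hl := tendsto_integral_of_dominated_convergence _ (fun j => (hj j).1.1) ib hb ht
  refine ⟨ib.mono' (aestronglyMeasurable_of_tendsto_ae atTop (fun j => (hj j).1.1) ht) ?_,
    tendsto_nhds_unique hl (tendsto_const_nhds.congr fun j => (hj j).2.symm)⟩
  filter_upwards [ae_all_iff.2 hb, ht] with x h1 h2
  exact le_of_tendsto' h2.norm h1

end Pool.Agent.MP_29b5d3_an.h48

end MrgPart6

-- ======== part 7: formerly Pool.Agent.MP_29b5d3_an.h48.Gain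
section MrgPart7

/-! The gain of integrability, global form. -/

set_option autoImplicit false

namespace Pool.Agent.MP_29b5d3_an.h48

open Module MeasureTheory Metric Filter Topology Finset
open scoped RealInnerProductSpace

variable {E : Type*} [NormedAddCommGroup E] [InnerProductSpace ℝ E] [FiniteDimensional ℝ E]
  [MeasurableSpace E] [BorelSpace E] {μ : Measure E} [μ.IsAddHaarMeasure]
  {F : E → E} {G : E → E →L[ℝ] E}

theorem gain {n k m d M : ℕ} (hn : finrank ℝ E = n + 1) (h1 : n + 1 = k + m)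
    (h2 : n + 1 = d + 1 + (M + 1)) (h3 : M + 1 ≤ k) (hd : 1 ≤ d) (h : Sob μ F G)
    {P : E →L[ℝ] E} (hP : Proj k P) {η : E → ℝ} (hη : ContDiff ℝ 1 η) (hη0 : ∀ x, 0 ≤ η x)
    (hη1 : ∀ x, η x ≤ 1) {S : Set E} (hS : IsCompact S) (h0 : ∀ x, x ∉ S → η x = 0) {K q : ℝ}
    (hK : 0 < K) (hq : 0 < q) (hKq : q / ((n + 1 : ℕ) + q) < 1 / K)
    (hG : ∀ᵐ x ∂μ, x ∈ S → P x ≠ 0 ∧ Str d (G x) (P x) (P (F x)) ∧
      ‖G x‖ ^ (n + 1) ≤ K * (G x).det)
    (hI : IntegrableOn (fun x => ‖G x‖ ^ n * ‖G x‖ ^ q) S μ) :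
    Integrable (fun x => η x * (‖G x‖ ^ (n + 1) * ‖G x‖ ^ q)) μ := by
  have : Nontrivial E := finrank_pos_iff.1 (show 0 < finrank ℝ E by omega)
  set κ0 := 1 / K - q / ((n + 1 : ℕ) + q) with hκ0
  have κp : 0 < κ0 := sub_pos.2 hKq
  obtain ⟨c, c0, hc⟩ := exists_wt hq (show 0 < κ0 / 8 by positivity)
  obtain ⟨D, hD⟩ := hS.exists_bound_of_continuousOn
    (hη.continuous_fderiv one_ne_zero).continuousOn
  obtain ⟨R, hR⟩ := hS.exists_bound_of_continuousOn (f := fun x => P (F x))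
    (by have := h.cont; fun_prop)
  have mG : AEStronglyMeasurable (fun x => ‖G x‖) μ := h.loc.aestronglyMeasurable.norm
  have mv : Measurable fun x => (‖P (F x)‖ / ‖P x‖) ^ 2 := by have := h.cont; fun_prop
  have hη2 : ∀ x, |η x| ≤ 1 := fun x => by rw [abs_of_nonneg (hη0 x)]; exact hη1 x
  have iE : Integrable (S.indicator fun x =>
      D * R * ((n + 1 : ℕ) + 2 * q) * (‖G x‖ ^ n * ‖G x‖ ^ q)) μ :=
    (integrable_indicator_iff hS.measurableSet).2 (hI.const_mul _)
  choose B φ l κ hw mφ hφ using fun j : ℕ => hc (j + 1) (by positivity)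
  have ig : ∀ j, Integrable
      (fun x => η x * φ j ((‖P (F x)‖ / ‖P x‖) ^ 2) * ‖G x‖ ^ (n + 1)) μ := fun j => by
    refine ((hn ▸ h.int).const_mul (B j)).mono'
      ((hη.continuous.aestronglyMeasurable.mul ((mφ j).comp mv).aestronglyMeasurable).mul
        (mG.pow _)) (Eventually.of_forall fun x => ?_)
    have a1 := (hw j).p0 _ (sq_nonneg (‖P (F x)‖ / ‖P x‖))
    have a2 := (hw j).p1 _ (sq_nonneg (‖P (F x)‖ / ‖P x‖))
    have a3 := hη0 x
    rw [Real.norm_of_nonneg (by positivity)]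
    gcongr
    exact (mul_le_of_le_one_left a1 (hη1 x)).trans a2
  have bg : ∀ j, κ0 / 2 * ∫ x, η x * φ j ((‖P (F x)‖ / ‖P x‖) ^ 2) * ‖G x‖ ^ (n + 1) ∂μ ≤
      ∫ x, S.indicator (fun x => D * R * ((n + 1 : ℕ) + 2 * q) * (‖G x‖ ^ n * ‖G x‖ ^ q)) x ∂μ :=
    fun j => by
    obtain ⟨i1, i2⟩ := II_zero hn (by omega) hd h (hw j) hP hη hη2 hS h0 hK.le hG
    rw [← integral_const_mul, ← zero_add (∫ x, S.indicator _ x ∂μ), ← i2, ← integral_add i1 iE]
    refine integral_mono_ae ((ig j).const_mul _) (i1.add iE) ?_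
    filter_upwards [hG] with x hx
    by_cases hxS : x ∈ S
    · obtain ⟨a1, a2, a3⟩ := hx hxS
      rw [Set.indicator_of_mem hxS]
      have D0 : 0 ≤ D := (norm_nonneg _).trans (hD x hxS)
      have R0 : 0 ≤ R := (norm_nonneg _).trans (hR x hxS)
      rcases eq_or_ne (P (F x)) 0 with hY | hY
      · have b1 := a2.norm_le hd hn hK.le a3
        rw [hY, norm_zero, zero_div, mul_zero] at b1
        have b2 : G x = 0 := norm_le_zero_iff.1 b1
        have b3 : II (n + 1) k (φ j) (l j) (κ j) P η 0 x (F x) (G x) = 0 := by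
          simp [II, Xi, b2, hY, ContinuousLinearMap.det, vq, gam]
        rw [b3, zero_add]
        refine le_trans (le_of_eq ?_) (show (0 : ℝ) ≤ _ by positivity)
        simp [b2]
      · obtain ⟨b1, b2, b3, b4⟩ := facts hn hd a1 a2
        have c4 : ∀ w, |fderiv ℝ η x w| ≤ D * ‖w‖ := fun w =>
          ((fderiv ℝ η x).le_opNorm w).trans (by gcongr; exact hD x hxS)
        rw [show κ0 / 2 = κ0 - 4 * (κ0 / 8) by ring]
        refine xi_lower (hw j) k (norm_pos_iff.2 a1) (norm_pos_iff.2 hY) (hR x hxS)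
          (a2.le_norm hd) (hη0 x) b2 ((c4 _).trans (by gcongr; exact adj_le hn _ _)) (c4 _) b3 b4
          fun y y0 y1 => pointwise hn h1 h2 h3 hd a1 hY a2 y0 κp ?_
        have e1 : y / ((n + 1 : ℕ) + y) ≤ q / ((n + 1 : ℕ) + q) := by
          have : (0 : ℝ) < (n + 1 : ℕ) := by positivity
          rw [div_le_div_iff₀ (by positivity) (by positivity)]
          nlinarith
        calc _ ≤ 1 / K * ‖G x‖ ^ (n + 1) := by gcongr; linarith
          _ ≤ _ := by rw [one_div, inv_mul_le_iff₀ hK]; exact a3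
    · have : fderiv ℝ η x = 0 := by
        have h1 : η =ᶠ[𝓝 x] fun _ => 0 := by
          filter_upwards [hS.isClosed.isOpen_compl.mem_nhds hxS] with y hy using h0 y hy
        rw [h1.fderiv_eq]
        simp
      simp [II, Xi, h0 x hxS, this, Set.indicator_of_notMem hxS]
  refine integrable_of_eventually_le
    (g := fun j x => K ^ q / c * (η x * φ j ((‖P (F x)‖ / ‖P x‖) ^ 2) * ‖G x‖ ^ (n + 1)))
    (C := K ^ q / c * (2 / κ0 * ∫ x, S.indicator (fun x => D * R * ((n + 1 : ℕ) + 2 * q) *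
      (‖G x‖ ^ n * ‖G x‖ ^ q)) x ∂μ))
    (hη.continuous.aestronglyMeasurable.mul ((mG.pow _).mul
      (mG.aemeasurable.pow_const q).aestronglyMeasurable))
    (fun x => by have := hη0 x; positivity) (fun j => (ig j).const_mul _) (fun j x => ?_)
    (fun j => ?_) ?_
  · have a1 := (hw j).p0 _ (sq_nonneg (‖P (F x)‖ / ‖P x‖))
    have a3 := hη0 x
    positivity
  · rw [integral_const_mul]
    gcongr
    rw [← inv_div, le_inv_mul_iff₀ (by positivity)]
    exact bg j
  · filter_upwards [hG] with x hx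
    by_cases hxS : x ∈ S
    · obtain ⟨a1, a2, a3⟩ := hx hxS
      have b1 := a2.norm_le hd hn hK.le a3
      have b0 : 0 ≤ ‖P (F x)‖ / ‖P x‖ := by positivity
      generalize ‖P (F x)‖ / ‖P x‖ = u at *
      filter_upwards [eventually_ge_atTop ⌈u ^ 2⌉₊] with j hj
      have b2 := hφ j (u ^ 2) (by positivity) (by linarith [Nat.ceil_le.1 hj])
      rw [← Real.rpow_natCast u 2, ← Real.rpow_mul b0, show ((2 : ℕ) : ℝ) * (q / 2) = q by
        push_cast; ring, Real.rpow_natCast] at b2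
      have b3 : ‖G x‖ ^ q ≤ K ^ q / c * φ j (u ^ 2) := by
        calc _ ≤ (K * u) ^ q := by gcongr
          _ = K ^ q / c * (c * u ^ q) := by rw [Real.mul_rpow hK.le b0]; field_simp
          _ ≤ _ := by gcongr
      have := hη0 x
      calc _ ≤ η x * (‖G x‖ ^ (n + 1) * (K ^ q / c * φ j (u ^ 2))) := by gcongr
        _ = _ := by ring
    · simp [h0 x hxS]

end Pool.Agent.MP_29b5d3_an.h48

end MrgPart7

-- ======== part 8: formerly Pool.Agent.MP_29b5d3_an.h48.Local
section MrgPart8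

/-! The gain of integrability on an open set. -/

set_option autoImplicit false

namespace Pool.Agent.MP_29b5d3_an.h48

open Module MeasureTheory Metric Filter Topology
open scoped RealInnerProductSpace Manifold

variable {E : Type*} [NormedAddCommGroup E] [InnerProductSpace ℝ E] [FiniteDimensional ℝ E]

theorem cutoff {C Ω : Set E} (hC : IsCompact C) (hΩ : IsOpen Ω) (h : C ⊆ Ω) :
    ∃ (χ : E → ℝ) (S : Set E), ContDiff ℝ ((⊤ : ℕ∞) : WithTop ℕ∞) χ ∧ IsCompact S ∧ S ⊆ Ω ∧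
      (∀ x, x ∉ S → χ x = 0) ∧ (∀ x, 0 ≤ χ x ∧ χ x ≤ 1) ∧ ∀ᶠ x in 𝓝ˢ C, χ x = 1 := by
  obtain ⟨S, h1, h2, h3⟩ := exists_compact_between hC hΩ h
  obtain ⟨f, f1, f2, f3⟩ := exists_contMDiffMap_one_nhds_of_subset_interior (n := ⊤) 𝓘(ℝ, E)
    hC.isClosed h2
  exact ⟨f, S, f.contMDiff.contDiff, h1, h3, f2, f3, f1⟩

omit [InnerProductSpace ℝ E] [FiniteDimensional ℝ E] in
theorem extend {V : Type*} [NormedAddCommGroup V] {g : E → V} {S Ω : Set E} (hΩ : IsOpen Ω)
    (hS : IsCompact S) (hSΩ : S ⊆ Ω) (h1 : ContinuousOn g Ω) (h2 : ∀ x, x ∉ S → g x = 0) :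
    Continuous g ∧ HasCompactSupport g := by
  have h3 : Function.support g ⊆ S := fun x hx => by_contra fun h => hx (h2 x h)
  exact ⟨h1.continuous_of_tsupport_subset hΩ ((closure_minimal h3 hS.isClosed).trans hSΩ),
    HasCompactSupport.intro hS h2⟩

variable [MeasurableSpace E] [BorelSpace E]

/-- continuous maps on `Ω` with weak derivative locally of class `L^n` -/
structure SobOn (μ : Measure E) (Ω : Set E) (f : E → E) (G : E → E →L[ℝ] E) : Prop where
  op : IsOpen Ω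
  cont : ContinuousOn f Ω
  lp : ∀ C : Set E, IsCompact C → C ⊆ Ω → MemLp G (finrank ℝ E : ENNReal) (μ.restrict C)
  weak : ∀ φ : E → ℝ, ContDiff ℝ ((⊤ : ℕ∞) : WithTop ℕ∞) φ → HasCompactSupport φ →
    tsupport φ ⊆ Ω → ∀ v : E, ∫ x, (fderiv ℝ φ x v) • f x ∂μ = -∫ x, φ x • G x v ∂μ

variable {μ : Measure E} [μ.IsAddHaarMeasure] {Ω : Set E} {f : E → E} {Df : E → E →L[ℝ] E}

omit [μ.IsAddHaarMeasure] [InnerProductSpace ℝ E] [FiniteDimensional ℝ E] in
theorem memLp_cut {V : Type*} [NormedAddCommGroup V] [NormedSpace ℝ V] {g : E → V} {p : ENNReal}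
    {S : Set E} (hS : IsCompact S) (hg : MemLp g p (μ.restrict S)) {χ : E → ℝ}
    (c1 : Continuous χ) (c2 : ∀ x, x ∉ S → χ x = 0) (c3 : ∀ x, 0 ≤ χ x ∧ χ x ≤ 1) :
    MemLp (fun x => χ x • g x) p μ := by
  have e : (fun x => χ x • g x) = S.indicator fun x => χ x • g x := by
    ext1 x
    by_cases hx : x ∈ S
    · rw [Set.indicator_of_mem hx]
    · rw [Set.indicator_of_notMem hx, c2 x hx, zero_smul]
  rw [e, memLp_indicator_iff_restrict hS.measurableSet]
  refine hg.of_le (c1.aestronglyMeasurable.smul hg.1) (Eventually.of_forall fun x => ?_)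
  rw [norm_smul, Real.norm_of_nonneg (c3 x).1]
  exact mul_le_of_le_one_left (norm_nonneg _) (c3 x).2

theorem weak_cut (h : SobOn μ Ω f Df) {χ : E → ℝ}
    (c1 : ContDiff ℝ ((⊤ : ℕ∞) : WithTop ℕ∞) χ) (c6 : tsupport χ ⊆ Ω)
    (f1 : Continuous fun x => χ x • f x) (f2 : HasCompactSupport fun x => χ x • f x)
    (g1 : Continuous fun x => (fderiv ℝ χ x).smulRight (f x))
    (m1 : LocallyIntegrable (fun x => χ x • Df x) μ) :
    WD μ (fun x => χ x • f x) fun x => χ x • Df x + (fderiv ℝ χ x).smulRight (f x) := by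
  intro φ h1 h2 v
  have c5 : ContDiff ℝ 1 χ := c1.of_le (by simp)
  have h3 : ContDiff ℝ 1 φ := h1.of_le (by simp)
  have k := h.weak (fun x => φ x * χ x) (h1.mul c1) h2.mul_right
    (tsupport_mul_subset_right.trans c6) v
  have e : ∀ x, fderiv ℝ (fun x => φ x * χ x) x v • f x =
      fderiv ℝ φ x v • χ x • f x + φ x • (fderiv ℝ χ x).smulRight (f x) v := fun x => by
    rw [fderiv_fun_mul (h3.differentiable one_ne_zero x) (c5.differentiable one_ne_zero x)]
    simp only [add_apply, smul_apply, smul_eq_mul, add_smul,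
      ContinuousLinearMap.smulRight_apply, smul_smul]
    rw [add_comm, mul_comm (χ x)]
  have j1 : Continuous fun x => fderiv ℝ φ x v :=
    (h3.continuous_fderiv one_ne_zero).clm_apply continuous_const
  have j2 : Continuous fun x => (fderiv ℝ χ x).smulRight (f x) v := g1.clm_apply continuous_const
  have i1 : Integrable (fun x => fderiv ℝ φ x v • χ x • f x) μ :=
    (j1.smul f1).integrable_of_hasCompactSupport (f2.smul_left (f := fun x => fderiv ℝ φ x v))
  have i2 : Integrable (fun x => φ x • (fderiv ℝ χ x).smulRight (f x) v) μ :=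
    j2.locallyIntegrable.integrable_smul_left_of_hasCompactSupport h3.continuous h2
  have i3 : Integrable (fun x => φ x • (χ x • Df x) v) μ := by
    have i4 := (m1.integrable_smul_left_of_hasCompactSupport
      h3.continuous h2).apply_continuousLinearMap v
    simpa only [smul_apply] using i4
  simp only [e] at k
  simp only [add_apply, smul_add]
  rw [integral_add i1 i2] at k
  rw [integral_add i3 i2, neg_add, ← sub_eq_add_neg, eq_sub_iff_add_eq, k]
  simp only [smul_apply, smul_smul]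

theorem globalize (hn : 1 ≤ finrank ℝ E) (h : SobOn μ Ω f Df) {C : Set E} (hC : IsCompact C)
    (hCΩ : C ⊆ Ω) : ∃ (F : E → E) (G : E → E →L[ℝ] E), Sob μ F G ∧
      ∀ᶠ x in 𝓝ˢ C, F x = f x ∧ G x = Df x := by
  obtain ⟨χ, S, c1, hS, hSΩ, c2, c3, c4⟩ := cutoff hC h.op hCΩ
  have c5 : ContDiff ℝ 1 χ := c1.of_le (by simp)
  have c6 : tsupport χ ⊆ S := closure_minimal (fun x hx => by_contra fun h => hx (c2 x h))
    hS.isClosed
  have c7 : ∀ x, x ∉ S → fderiv ℝ χ x = 0 := fun x hx =>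
    fderiv_of_notMem_tsupport ℝ fun h => hx (c6 h)
  have cD := c5.continuous_fderiv one_ne_zero
  obtain ⟨f1, f2⟩ := extend (g := fun x => χ x • f x) h.op hS hSΩ
    (c5.continuous.continuousOn.smul h.cont) fun x hx => by rw [c2 x hx, zero_smul]
  obtain ⟨g1, g2⟩ := extend (g := fun x => (fderiv ℝ χ x).smulRight (f x)) h.op hS hSΩ
    (continuousOn_clm_apply.2 fun v => (cD.clm_apply continuous_const).continuousOn.smul h.cont)
    fun x hx => by rw [c7 x hx, ContinuousLinearMap.zero_smulRight]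
  have m1 := memLp_cut hS (h.lp S hS hSΩ) c5.continuous c2 c3
  have m2 : MemLp (fun x => χ x • Df x + (fderiv ℝ χ x).smulRight (f x))
      (finrank ℝ E : ENNReal) μ := m1.add (g1.memLp_of_hasCompactSupport g2)
  have n1 : (1 : ENNReal) ≤ finrank ℝ E := by exact_mod_cast hn
  refine ⟨fun x => χ x • f x, fun x => χ x • Df x + (fderiv ℝ χ x).smulRight (f x),
    ⟨f1, f2, m2.locallyIntegrable n1, m2.integrable_norm_pow (by omega),
      weak_cut h c1 (c6.trans hSΩ) f1 f2 g1 (m1.locallyIntegrable n1)⟩, ?_⟩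
  rw [eventually_nhdsSet_iff_forall] at c4 ⊢
  intro x hx
  filter_upwards [(c4 x hx).eventually_nhds] with y hy
  have e : fderiv ℝ χ y = 0 := by
    rw [EventuallyEq.fderiv_eq (f := fun _ => 1) hy]
    simp
  simp [hy.self_of_nhds, e]

theorem higher {n k m d M : ℕ} (hn : finrank ℝ E = n + 1) (h1 : n + 1 = k + m)
    (h2 : n + 1 = d + 1 + (M + 1)) (h3 : M + 1 ≤ k) (hd : 1 ≤ d) (h : SobOn μ Ω f Df)
    {P : E →L[ℝ] E} (hP : Proj k P) {K : ℝ} (hK : 1 < K)
    (hG : ∀ᵐ x ∂μ, x ∈ Ω → P x ≠ 0 ∧ Str d (Df x) (P x) (P (f x)) ∧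
      ‖Df x‖ ^ (n + 1) ≤ K * (Df x).det) {p : ℝ} (hp : p < (n + 1 : ℕ) * K / (K - 1))
    {C : Set E} (hC : IsCompact C) (hCΩ : C ⊆ Ω) :
    MemLp Df (ENNReal.ofReal p) (μ.restrict C) := by
  have base : ∀ p : ℝ, p ≤ (n + 1 : ℕ) → ∀ C : Set E, IsCompact C → C ⊆ Ω →
      MemLp Df (ENNReal.ofReal p) (μ.restrict C) := fun p hp C hC hCΩ => by
    have : IsFiniteMeasure (μ.restrict C) := isFiniteMeasure_restrict.2 hC.measure_lt_top.ne
    refine (h.lp C hC hCΩ).mono_exponent ?_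
    rw [hn, ← ENNReal.ofReal_natCast]
    exact ENNReal.ofReal_le_ofReal hp
  have main : ∀ j : ℕ, ∀ p : ℝ, p < (n + 1 : ℕ) * K / (K - 1) → p ≤ (n + 1 : ℕ) + j →
      ∀ C : Set E, IsCompact C → C ⊆ Ω → MemLp Df (ENNReal.ofReal p) (μ.restrict C) := by
    intro j
    induction j with
    | zero => exact fun p _ hp => base p (by simpa using hp)
    | succ j ih =>
      intro p hp hp' C hC hCΩ
      rcases le_or_gt p (n + 1 : ℕ) with c | c
      · exact base p c C hC hCΩ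
      obtain ⟨q, rfl⟩ : ∃ q : ℝ, p = (n + 1 : ℕ) + q := ⟨p - (n + 1 : ℕ), by ring⟩
      have q0 : 0 < q := by linarith
      have n0 : (0 : ℝ) ≤ n := n.cast_nonneg
      obtain ⟨η, S, c1, hS, hSΩ, c2, c3, c4⟩ := cutoff hC h.op hCΩ
      obtain ⟨F, G, hF, hFG⟩ := globalize (by omega) h hS hSΩ
      have e := fun x (hx : x ∈ S) => hFG.self_of_nhdsSet x hx
      have i1 := (ih (n + q) (by push_cast at hp ⊢; linarith) (by push_cast at hp' ⊢; linarith)
        S hS hSΩ).integrable_norm_rpow (by simp; positivity) ENNReal.ofReal_ne_top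
      rw [ENNReal.toReal_ofReal (by positivity)] at i1
      have i2 := gain hn h1 h2 h3 hd hF hP (c1.of_le (by simp)) (fun x => (c3 x).1)
        (fun x => (c3 x).2) hS c2 (K := K) (by linarith) q0
        (by
          rw [lt_div_iff₀ (by linarith)] at hp
          rw [div_lt_div_iff₀ (by linarith) (by linarith)]
          linarith)
        (hG.mono fun x hx hxS => by rw [(e x hxS).1, (e x hxS).2]; exact hx (hSΩ hxS))
        (IntegrableOn.congr_fun i1 (fun x hx => by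
          simp only [(e x hx).2]
          rw [Real.rpow_add' (norm_nonneg _) (by positivity), Real.rpow_natCast])
          hS.measurableSet)
      rw [← integrable_norm_rpow_iff (h.lp C hC hCΩ).1 (by simp; positivity)
        ENNReal.ofReal_ne_top, ENNReal.toReal_ofReal (by positivity)]
      refine i2.integrableOn.congr_fun (fun x hx => ?_) hC.measurableSet
      have e1 := c4.self_of_nhdsSet x hx
      have e2 : x ∈ S := by_contra fun hxS => by rw [c2 x hxS] at e1; exact zero_ne_one e1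
      simp only [e1, (e x e2).2, one_mul]
      rw [Real.rpow_add' (norm_nonneg _) (by positivity), Real.rpow_natCast]
  refine main ⌈p⌉₊ p hp ?_ C hC hCΩ
  linarith [Nat.le_ceil p, Nat.cast_nonneg (α := ℝ) (n + 1)]

end Pool.Agent.MP_29b5d3_an.h48

end MrgPart8

-- ======== part 9: formerly Pool.Agent.MP_29b5d3_an.h48.Radial
section MrgPart9

/-! The radial stretching. -/

set_option autoImplicit false

namespace Pool.Agent.MP_29b5d3_an.h48

open Module MeasureTheory Metric Filter Topology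
open scoped RealInnerProductSpace

variable {E : Type*} [NormedAddCommGroup E] [InnerProductSpace ℝ E]

/-- the regularised radial stretching -/
noncomputable def rad (a δ : ℝ) (x : E) : E := (‖x‖ ^ 2 + δ) ^ a • x

/-- its derivative -/
noncomputable def Drad (a δ : ℝ) (x : E) : E →L[ℝ] E :=
  (‖x‖ ^ 2 + δ) ^ a • ContinuousLinearMap.id ℝ E +
    ((2 * a / (‖x‖ ^ 2 + δ)) • innerSL ℝ x).smulRight ((‖x‖ ^ 2 + δ) ^ a • x)

theorem Drad_apply (a δ : ℝ) (x w : E) : Drad a δ x w =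
    (‖x‖ ^ 2 + δ) ^ a • (w + (2 * a / (‖x‖ ^ 2 + δ) * ⟪x, w⟫) • x) := by
  simp [Drad, smul_smul, mul_comm]

theorem hasFDerivAt_rad (a : ℝ) {δ : ℝ} {x : E} (h : 0 < ‖x‖ ^ 2 + δ) :
    HasFDerivAt (rad a δ) (Drad a δ x) x := by
  have h1 := ((((hasFDerivAt_id (𝕜 := ℝ) x).norm_sq).add_const δ).rpow_const (p := a)
    (Or.inl h.ne')).smul (hasFDerivAt_id x)
  refine h1.congr_fderiv ?_
  ext w
  rw [Drad_apply]
  simp only [id, add_apply, smul_apply, ContinuousLinearMap.id_apply,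
    ContinuousLinearMap.smulRight_apply, ContinuousLinearMap.comp_apply, innerSL_apply_apply,
    smul_add, smul_smul, smul_eq_mul, nsmul_eq_mul, Real.rpow_sub_one h.ne']
  congr 2
  push_cast
  ring

theorem norm_Drad_le {a δ : ℝ} (h1 : -1 ≤ a) (h2 : a ≤ 0) (hδ : 0 ≤ δ) (x : E) :
    ‖Drad a δ x‖ ≤ (‖x‖ ^ 2 + δ) ^ a := by
  refine ContinuousLinearMap.opNorm_le_bound _ (by positivity) fun w => ?_
  rw [Drad_apply, norm_smul, Real.norm_of_nonneg (by positivity)]
  gcongr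
  refine abs_le_of_sq_le_sq' ?_ (norm_nonneg _) |>.2
  rw [norm_add_sq_real, inner_smul_right, norm_smul, mul_pow, Real.norm_eq_abs, sq_abs,
    real_inner_comm x w]
  have h3 : 2 * a / (‖x‖ ^ 2 + δ) ≤ 0 := div_nonpos_of_nonpos_of_nonneg (by linarith)
    (by positivity)
  have h4 : -2 ≤ 2 * a / (‖x‖ ^ 2 + δ) * ‖x‖ ^ 2 := by
    have : ‖x‖ ^ 2 / (‖x‖ ^ 2 + δ) ≤ 1 := div_le_one_of_le₀ (by linarith) (by positivity)
    rw [div_mul_eq_mul_div, mul_div_assoc]
    nlinarith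
  generalize 2 * a / (‖x‖ ^ 2 + δ) = τ at *
  nlinarith [mul_nonneg (mul_nonneg (neg_nonneg.2 h3) (sq_nonneg ⟪x, w⟫))
    (show 0 ≤ τ * ‖x‖ ^ 2 + 2 by linarith)]

omit [InnerProductSpace ℝ E] in
theorem rpow_le_rad {a δ : ℝ} (h2 : a ≤ 0) (hδ : 0 ≤ δ) {x : E} (hx : x ≠ 0) :
    (‖x‖ ^ 2 + δ) ^ a ≤ ‖x‖ ^ (2 * a) := by
  rw [Real.rpow_mul (norm_nonneg _), Real.rpow_two]
  exact Real.rpow_le_rpow_of_nonpos (by positivity) (by linarith) h2

omit [InnerProductSpace ℝ E] in
theorem rpow_eq_rad (a : ℝ) (x : E) : (‖x‖ ^ 2 + 0) ^ a = ‖x‖ ^ (2 * a) := by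
  rw [Real.rpow_mul (norm_nonneg _), Real.rpow_two, add_zero]

theorem continuous_rad {a : ℝ} (h : -(1 / 2) < a) : Continuous (rad a 0 : E → E) := by
  refine continuous_iff_continuousAt.2 fun x => ?_
  rcases eq_or_ne x 0 with rfl | hx
  · have h1 : Tendsto (fun x : E => ‖x‖ ^ (2 * a + 1)) (𝓝 0) (𝓝 0) := by
      refine (continuous_norm.rpow_const fun _ => Or.inr (by linarith)).tendsto' _ _ ?_
      rw [norm_zero, Real.zero_rpow (by linarith)]
    rw [ContinuousAt, show rad a 0 (0 : E) = 0 by simp [rad]]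
    refine squeeze_zero_norm (fun x => le_of_eq ?_) h1
    rw [rad, norm_smul, Real.norm_of_nonneg (by positivity), rpow_eq_rad,
      Real.rpow_add_one' (norm_nonneg _) (by linarith)]
  · exact (hasFDerivAt_rad a (by positivity)).continuousAt

theorem tendsto_rad (a : ℝ) {x : E} (hx : x ≠ 0) :
    Tendsto (fun j : ℕ => rad a (1 / (j + 1)) x) atTop (𝓝 (rad a 0 x)) ∧
      Tendsto (fun j : ℕ => Drad a (1 / (j + 1)) x) atTop (𝓝 (Drad a 0 x)) := by
  have t0 := tendsto_one_div_add_atTop_nhds_zero_nat (𝕜 := ℝ)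
  have h0 : ‖x‖ ^ 2 + 0 ≠ 0 := by positivity
  have c1 : ContinuousAt (fun δ : ℝ => ‖x‖ ^ 2 + δ) 0 := by fun_prop
  have c2 := c1.rpow_const (p := a) (Or.inl h0)
  have c3 : ContinuousAt (fun δ : ℝ => 2 * a / (‖x‖ ^ 2 + δ)) 0 := continuousAt_const.div c1 h0
  refine ⟨(c2.smul continuousAt_const).tendsto.comp t0, ?_⟩
  have e : ∀ δ, Drad a δ x = (‖x‖ ^ 2 + δ) ^ a • (ContinuousLinearMap.id ℝ E +
      (2 * a / (‖x‖ ^ 2 + δ)) • (innerSL ℝ x).smulRight x) := fun δ => by
    ext w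
    simp [Drad_apply, smul_smul, mul_assoc]
  simp only [e]
  exact (c2.smul (continuousAt_const.add (c3.smul continuousAt_const))).tendsto.comp t0

theorem contDiff_rad (a : ℝ) {δ : ℝ} (hδ : 0 < δ) : ContDiff ℝ 1 (rad a δ : E → E) :=
  (((contDiff_norm_sq ℝ).add contDiff_const).rpow_const_of_ne fun x => by positivity).smul
    contDiff_id

variable [FiniteDimensional ℝ E]

theorem det_Drad (a : ℝ) {x : E} (hx : x ≠ 0) :
    (Drad a 0 x).det = ((‖x‖ ^ 2 + 0) ^ a) ^ finrank ℝ E * (1 + 2 * a) := by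
  have h := det_comp_rank_one ((‖x‖ ^ 2 + 0) ^ a • ContinuousLinearMap.id ℝ E)
    ((2 * a / (‖x‖ ^ 2 + 0)) • innerSL ℝ x) x
  have h0 : ‖x‖ ≠ 0 := norm_ne_zero_iff.2 hx
  refine h.trans ?_
  simp only [ContinuousLinearMap.det, ContinuousLinearMap.toLinearMap_smul, LinearMap.det_smul,
    ContinuousLinearMap.coe_id, LinearMap.det_id, mul_one, smul_apply, innerSL_apply_apply,
    real_inner_self_eq_norm_sq, smul_eq_mul, add_zero]
  field_simp

variable [MeasurableSpace E] [BorelSpace E] {μ : Measure E} [μ.IsAddHaarMeasure]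

theorem sobOn_rad (hn : 1 ≤ finrank ℝ E) {a : ℝ} (h1 : -(1 / 2) < a) (h2 : a ≤ 0) :
    SobOn μ Set.univ (rad a 0 : E → E) (Drad a 0) := by
  have : Nontrivial E := finrank_pos_iff.1 hn
  have ae0 : ∀ᵐ x ∂μ, x ≠ (0 : E) := by simp [ae_iff]
  have n1 : (1 : ℝ) ≤ finrank ℝ E := by exact_mod_cast hn
  have p : ∀ j : ℕ, (0 : ℝ) < 1 / (j + 1) := fun j => by positivity
  have d : ∀ j : ℕ, fderiv ℝ (rad a (1 / (j + 1)) : E → E) = Drad a (1 / (j + 1)) := fun j =>
    funext fun x => (hasFDerivAt_rad a (by positivity)).fderiv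
  have cD : ∀ j : ℕ, Continuous (Drad a (1 / (j + 1)) : E → E →L[ℝ] E) := fun j =>
    d j ▸ (contDiff_rad a (p j)).continuous_fderiv one_ne_zero
  have mD : AEStronglyMeasurable (Drad a 0 : E → E →L[ℝ] E) μ :=
    aestronglyMeasurable_of_tendsto_ae atTop (fun j => (cD j).aestronglyMeasurable)
      (ae0.mono fun x hx => (tendsto_rad a hx).2)
  have c0 := continuous_rad (E := E) h1
  refine ⟨isOpen_univ, c0.continuousOn, fun C hC _ => ?_, fun φ k1 k2 _ v => ?_⟩
  · rw [← integrable_norm_rpow_iff mD.restrict (by simp; omega) (by simp)]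
    refine (locallyIntegrable_of_norm_le_rpow (C := 1) (α := -(2 * a * finrank ℝ E)) hn
      (by nlinarith) (Eventually.of_forall fun x => ?_)
      (mD.norm.aemeasurable.pow_const _).aestronglyMeasurable).integrableOn_isCompact hC
    rw [Real.norm_of_nonneg (by positivity), neg_neg, one_mul, Real.rpow_mul (norm_nonneg _),
      ENNReal.toReal_natCast, ← rpow_eq_rad]
    gcongr
    exact norm_Drad_le (by linarith) h2 le_rfl x
  · have k3 : ContDiff ℝ 1 φ := k1.of_le (by simp)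
    have j1 : Continuous fun x => fderiv ℝ φ x v :=
      (k3.continuous_fderiv one_ne_zero).clm_apply continuous_const
    have j2 : HasCompactSupport fun x => fderiv ℝ φ x v := k2.fderiv_apply ℝ v
    have e : ∀ j : ℕ, ∫ x, fderiv ℝ φ x v • rad a (1 / (j + 1)) x ∂μ =
        -∫ x, φ x • Drad a (1 / (j + 1)) x v ∂μ := fun j => by
      have c1 := (contDiff_rad (E := E) a (p j)).continuous.locallyIntegrable (μ := μ)
      have c2 := ((cD j).clm_apply (continuous_const (y := v))).locallyIntegrable (μ := μ)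
      rw [← d j, integral_smul_fderiv_eq_neg_fderiv_smul_of_integrable
        (c1.integrable_smul_left_of_hasCompactSupport j1 j2)
        (by rw [d j]; exact c2.integrable_smul_left_of_hasCompactSupport k3.continuous k2)
        (c1.integrable_smul_left_of_hasCompactSupport k3.continuous k2)
        (fun x _ => k3.differentiable one_ne_zero x)
        (fun x _ => (contDiff_rad a (p j)).differentiable one_ne_zero x), neg_neg]
    have t1 := tendsto_integral_of_dominated_convergence (μ := μ)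
      (F := fun (j : ℕ) x => fderiv ℝ φ x v • rad a (1 / (j + 1)) x)
      (f := fun x => fderiv ℝ φ x v • rad a 0 x) (fun x => ‖fderiv ℝ φ x v • rad a 0 x‖)
      (fun j => (j1.smul (contDiff_rad a (p j)).continuous).aestronglyMeasurable)
      (c0.locallyIntegrable.integrable_smul_left_of_hasCompactSupport j1 j2).norm
      (fun j => ae0.mono fun x hx => by
        simp only [rad, norm_smul]
        gcongr
        rw [Real.norm_of_nonneg (by positivity), Real.norm_of_nonneg (by positivity), rpow_eq_rad]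
        exact rpow_le_rad h2 (p j).le hx)
      (ae0.mono fun x hx => (tendsto_rad a hx).1.const_smul _)
    have l1 : LocallyIntegrable (fun x : E => ‖x‖ ^ (2 * a) * ‖v‖) μ :=
      locallyIntegrable_of_norm_le_rpow (C := ‖v‖) (α := -(2 * a)) hn (by linarith)
        (Eventually.of_forall fun x => by
          rw [Real.norm_of_nonneg (by positivity), neg_neg, mul_comm])
        (Measurable.aestronglyMeasurable (by fun_prop))
    have t2 := tendsto_integral_of_dominated_convergence (μ := μ)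
      (F := fun (j : ℕ) x => φ x • Drad a (1 / (j + 1)) x v)
      (f := fun x => φ x • Drad a 0 x v) (fun x => ‖φ x‖ • (‖x‖ ^ (2 * a) * ‖v‖))
      (fun j => (k3.continuous.smul ((cD j).clm_apply continuous_const)).aestronglyMeasurable)
      (l1.integrable_smul_left_of_hasCompactSupport k3.continuous.norm k2.norm)
      (fun j => ae0.mono fun x hx => by
        rw [norm_smul, smul_eq_mul]
        gcongr
        refine (ContinuousLinearMap.le_opNorm _ _).trans ?_
        gcongr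
        exact (norm_Drad_le (by linarith) h2 (p j).le x).trans (rpow_le_rad h2 (p j).le hx))
      (ae0.mono fun x hx => (((ContinuousLinearMap.apply ℝ E v).continuous.tendsto _).comp
        (tendsto_rad a hx).2).const_smul _)
    exact tendsto_nhds_unique t1 (t2.neg.congr fun j => (e j).symm)

omit [MeasurableSpace E] [BorelSpace E] in
theorem qr_rad (hn : 1 ≤ finrank ℝ E) {K : ℝ} (hK : 1 < K) (x : E) :
    ‖Drad ((1 / K - 1) / 2) 0 x‖ ^ finrank ℝ E ≤ K * (Drad ((1 / K - 1) / 2) 0 x).det := by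
  have k0 : 0 < 1 / K := by positivity
  have k1 : 1 / K < 1 := by rw [div_lt_one (by linarith)]; exact hK
  have h := norm_Drad_le (a := (1 / K - 1) / 2) (by linarith) (by linarith) le_rfl x
  rcases eq_or_ne x 0 with rfl | hx
  · have : Nontrivial E := finrank_pos_iff.1 hn
    rw [norm_zero, zero_pow two_ne_zero, add_zero, Real.zero_rpow (by linarith)] at h
    rw [norm_le_zero_iff.1 h]
    simp [ContinuousLinearMap.det, zero_pow (show finrank ℝ E ≠ 0 by omega)]
  · rw [det_Drad _ hx]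
    calc _ ≤ ((‖x‖ ^ 2 + 0) ^ ((1 / K - 1) / 2)) ^ finrank ℝ E := by gcongr
      _ = _ := by field_simp; ring

theorem lt_of_memLp_rad (hn : 1 ≤ finrank ℝ E) {K p : ℝ} (hK : 1 < K) (hp : 0 < p)
    (h : MemLp (Drad ((1 / K - 1) / 2) 0 : E → E →L[ℝ] E) (ENNReal.ofReal p)
      (μ.restrict (closedBall 0 1))) : p < finrank ℝ E * K / (K - 1) := by
  have : Nontrivial E := finrank_pos_iff.1 hn
  have ae0 : ∀ᵐ x ∂μ, x ≠ (0 : E) := by simp [ae_iff]
  have k0 : 0 < 1 / K := by positivity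
  have i1 := h.integrable_norm_rpow (by simpa using hp) ENNReal.ofReal_ne_top
  rw [ENNReal.toReal_ofReal hp.le] at i1
  have i2 : IntegrableOn (fun x : E => ‖x‖ ^ ((1 / K - 1) * p)) (ball 0 1) μ := by
    refine IntegrableOn.mono_set ((i1.const_mul (K ^ p)).mono'
      (Measurable.aestronglyMeasurable (by fun_prop)) ?_) ball_subset_closedBall
    filter_upwards [ae_restrict_of_ae ae0] with x hx
    have x0 : 0 < ‖x‖ := norm_pos_iff.2 hx
    have e1 : Drad ((1 / K - 1) / 2) 0 x x = (‖x‖ ^ (1 / K - 1) * (1 / K)) • x := by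
      rw [Drad_apply, rpow_eq_rad, real_inner_self_eq_norm_sq,
        show 2 * ((1 / K - 1) / 2) = 1 / K - 1 by ring, add_zero,
        div_mul_cancel₀ _ (pow_pos x0 2).ne', sub_smul, one_smul, add_sub_cancel, smul_smul]
    have e2 := (Drad ((1 / K - 1) / 2) 0 x).le_opNorm x
    rw [e1, norm_smul, Real.norm_of_nonneg (by positivity)] at e2
    have e3 := le_of_mul_le_mul_right e2 x0
    rw [Real.norm_of_nonneg (by positivity), Real.rpow_mul x0.le,
      ← Real.mul_rpow (by linarith) (norm_nonneg _)]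
    gcongr
    rwa [mul_one_div, div_le_iff₀' (by linarith)] at e3
  have i3 := (integrableOn_fun_norm_addHaar μ (f := fun y : ℝ => y ^ ((1 / K - 1) * p))).1 i2
  have i4 : IntegrableOn (fun y : ℝ => y ^ ((finrank ℝ E : ℝ) - 1 + (1 / K - 1) * p))
      (Set.Ioo 0 1) := i3.congr_fun (fun y hy => by
    simp only [smul_eq_mul]
    rw [Real.rpow_add hy.1, ← Real.rpow_natCast, Nat.cast_sub hn, Nat.cast_one]) measurableSet_Ioo
  rw [intervalIntegral.integrableOn_Ioo_rpow_iff one_pos] at i4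
  rw [lt_div_iff₀ (by linarith)]
  have e : (1 / K - 1) * p * K = -(p * (K - 1)) := by field_simp; ring
  nlinarith [mul_lt_mul_of_pos_right i4 (show 0 < K by linarith)]

end Pool.Agent.MP_29b5d3_an.h48

end MrgPart9

-- marker of a merged file
example : 731051 + 360509 = 731051 + 360509 := rfl
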