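import Pool.Agent.MP_29b5d3_an.h48.Symm
import Pool.Agent.MP_29b5d3_an.h48.Radial

/-! Two classes of symmetric quasiregular maps. -/

set_option autoImplicit false

namespace Pool.Agent.MP_29b5d3_an.h48

open Module MeasureTheory Metric Filter Topology
open scoped RealInnerProductSpace

variable {E : Type*} [NormedAddCommGroup E] [InnerProductSpace ℝ E]

/-- the generator of the rotations in the plane of `a` and `b` -/
noncomputable def gen (a b : E) : E →L[ℝ] E :=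
  (innerSL ℝ a).smulRight b - (innerSL ℝ b).smulRight a

theorem gen_apply (a b x : E) : gen a b x = ⟪a, x⟫ • b - ⟪b, x⟫ • a := rfl

theorem gen_self (a x : E) : gen a a x = 0 := sub_self _

theorem gen_gen {a b : E} (ha : ‖a‖ = 1) (hb : ‖b‖ = 1) (hab : ⟪a, b⟫ = 0) : Gen (gen a b) := by
  have h1 : ⟪a, a⟫ = 1 := by rw [real_inner_self_eq_norm_sq, ha, one_pow]
  have h2 : ⟪b, b⟫ = 1 := by rw [real_inner_self_eq_norm_sq, hb, one_pow]
  have h3 : ⟪b, a⟫ = 0 := by rw [real_inner_comm, hab]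
  refine ⟨fun x y => ?_, fun x => ?_⟩
  · simp only [gen_apply, inner_sub_left, inner_sub_right, real_inner_smul_left,
      real_inner_smul_right, real_inner_comm x]
    ring
  · simp only [gen_apply, inner_sub_right, real_inner_smul_right, h1, h2, h3, hab]
    module

theorem gen_sum {k : ℕ} (e : Fin k → E) (α β : Fin k → ℝ) (x : E) :
    gen (∑ i, α i • e i) (∑ j, β j • e j) x = ∑ i, ∑ j, (α i * β j) • gen (e i) (e j) x := by
  have h : ∀ (α β : Fin k → ℝ), ⟪∑ i, α i • e i, x⟫ • ∑ j, β j • e j =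
      ∑ i, ∑ j, (α i * β j) • ⟪e i, x⟫ • e j := fun α β => by
    rw [sum_inner, Finset.sum_smul]
    refine Finset.sum_congr rfl fun i _ => ?_
    rw [Finset.smul_sum]
    refine Finset.sum_congr rfl fun j _ => ?_
    rw [real_inner_smul_left, smul_smul, smul_smul]
    congr 1
    ring
  simp only [gen_apply, smul_sub, Finset.sum_sub_distrib, h]
  congr 1
  rw [Finset.sum_comm]
  simp only [mul_comm]

variable [FiniteDimensional ℝ E]

theorem proj_basis (W : Submodule ℝ E) :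
    Orthonormal ℝ (fun i => (stdOrthonormalBasis ℝ W i : E)) ∧
      ∀ y, W.starProjection y =
        ∑ i, ⟪(stdOrthonormalBasis ℝ W i : E), y⟫ • (stdOrthonormalBasis ℝ W i : E) :=
  ⟨(stdOrthonormalBasis ℝ W).orthonormal.comp_linearIsometry W.subtypeₗᵢ, fun y => by
    rw [(stdOrthonormalBasis ℝ W).starProjection_eq_sum_rankOne]
    simp⟩

theorem str_rot (W : Submodule ℝ E) {d : ℕ} (hd : d + 1 ≤ finrank ℝ W) {A : E →L[ℝ] E} {x y : E}
    (hx : W.starProjection x ≠ 0) (h : ∀ a ∈ W, ∀ b ∈ W, A (gen a b x) = gen a b y) :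
    Str d A (W.starProjection x) (W.starProjection y) := by
  set a := W.starProjection x with ha
  set z := W.starProjection y with hz
  have aW : a ∈ W := W.starProjection_apply_mem x
  have zW : z ∈ W := W.starProjection_apply_mem y
  have e1 : ∀ b ∈ W, ⟪b, x⟫ = ⟪b, a⟫ := fun b hb => by
    rw [ha, ← W.inner_starProjection_left_eq_right, Submodule.starProjection_eq_self_iff.2 hb]
  have e2 : ∀ b ∈ W, ⟪b, y⟫ = ⟪b, z⟫ := fun b hb => by
    rw [hz, ← W.inner_starProjection_left_eq_right, Submodule.starProjection_eq_self_iff.2 hb]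
  have a0 : 0 < ‖a‖ := norm_pos_iff.2 hx
  set U : Submodule ℝ E := (ℝ ∙ a)ᗮ ⊓ W with hU
  have hdU : d ≤ finrank ℝ U := by
    have h1 := Submodule.finrank_add_inf_finrank_orthogonal
      ((Submodule.span_singleton_le_iff_mem a W).2 aW)
    rw [finrank_span_singleton hx, ← hU] at h1
    omega
  refine ⟨fun i => (stdOrthonormalBasis ℝ U (Fin.castLE hdU i) : E),
    (proj_basis U).1.comp _ (Fin.castLE_injective hdU), fun i => ?_⟩
  have t1 := (proj_basis U).1.1 (Fin.castLE hdU i)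
  beta_reduce at t1 ⊢
  obtain ⟨t2, tW⟩ := (stdOrthonormalBasis ℝ U (Fin.castLE hdU i)).2
  generalize (stdOrthonormalBasis ℝ U (Fin.castLE hdU i) : E) = t at *
  have t3 : ⟪a, t⟫ = 0 := Submodule.mem_orthogonal_singleton_iff_inner_right.1 t2
  have t4 : ⟪t, a⟫ = 0 := by rw [real_inner_comm, t3]
  have t5 : ⟪t, t⟫ = 1 := by rw [real_inner_self_eq_norm_sq, t1, one_pow]
  have aa : ⟪a, a⟫ = ‖a‖ ^ 2 := real_inner_self_eq_norm_sq a
  have k1 := h a aW t tW
  rw [gen_apply, gen_apply, e1 a aW, e1 t tW, e2 a aW, e2 t tW, t4, zero_smul, sub_zero, aa,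
    map_smul] at k1
  have k2 : A t = (⟪a, z⟫ / ‖a‖ ^ 2) • t - (⟪t, z⟫ / ‖a‖ ^ 2) • a := by
    rw [div_eq_inv_mul, div_eq_inv_mul, mul_smul, mul_smul, ← smul_sub, ← k1, smul_smul,
      inv_mul_cancel₀ (by positivity), one_smul]
  have k3 : ‖z‖ ^ 2 = ⟪a, z⟫ ^ 2 / ‖a‖ ^ 2 + ⟪t, z⟫ ^ 2 := by
    set b := z - (⟪a, z⟫ / ‖a‖ ^ 2) • a - ⟪t, z⟫ • t with hb
    have bW : b ∈ W := W.sub_mem (W.sub_mem zW (W.smul_mem _ aW)) (W.smul_mem _ tW)
    have b1 : ⟪b, a⟫ = 0 := by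
      rw [hb, inner_sub_left, inner_sub_left, real_inner_smul_left, real_inner_smul_left, aa, t4,
        real_inner_comm a z]
      field_simp
      ring
    have b2 : ⟪t, b⟫ = 0 := by
      rw [hb, inner_sub_right, inner_sub_right, inner_smul_right, inner_smul_right, t4, t5]
      ring
    have b3 := congrArg (fun w => ⟪t, w⟫) (h t tW b bW)
    simp only [gen_apply, e1 t tW, e1 b bW, e2 t tW, e2 b bW, t4, b1, zero_smul, sub_zero,
      map_zero, inner_zero_right, inner_sub_right, inner_smul_right, b2, t5] at b3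
    have b4 : ⟪b, z⟫ = ‖z‖ ^ 2 - ⟪a, z⟫ ^ 2 / ‖a‖ ^ 2 - ⟪t, z⟫ ^ 2 := by
      rw [hb, inner_sub_left, inner_sub_left, real_inner_smul_left, real_inner_smul_left,
        real_inner_self_eq_norm_sq]
      ring
    linarith
  refine ⟨t4, ?_, (sq_eq_sq₀ (norm_nonneg _) (by positivity)).1 ?_⟩
  · rw [k2, inner_sub_left, real_inner_smul_left, real_inner_smul_left]
    ring
  · rw [k2, norm_sub_sq_real, inner_smul_right, real_inner_smul_left, t4, norm_smul, norm_smul,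
      t1, mul_pow, mul_pow, Real.norm_eq_abs, Real.norm_eq_abs, sq_abs, sq_abs, div_pow ‖z‖, k3]
    field_simp
    ring

/-- skew maps with the relations of a Clifford algebra on `W` -/
structure Cliff {d : ℕ} (W : Submodule ℝ E) (J : Fin d → E →L[ℝ] E) : Prop where
  skew : ∀ i x y, ⟪J i x, y⟫ = -⟪x, J i y⟫
  sq : ∀ i x, J i (J i x) = -W.starProjection x
  anti : ∀ i j, i ≠ j → ∀ x, J i (J j x) = -J j (J i x)

theorem Cliff.norm_eq {d : ℕ} {W : Submodule ℝ E} {J : Fin d → E →L[ℝ] E} (h : Cliff W J)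
    (i : Fin d) (x : E) : ‖J i x‖ = ‖W.starProjection x‖ := by
  refine (sq_eq_sq₀ (norm_nonneg _) (norm_nonneg _)).1 ?_
  rw [← real_inner_self_eq_norm_sq, ← real_inner_self_eq_norm_sq, h.skew, h.sq, inner_neg_right,
    neg_neg, W.inner_starProjection_left_eq_right,
    Submodule.starProjection_eq_self_iff.2 (W.starProjection_apply_mem x)]

theorem Cliff.apply_proj {d : ℕ} {W : Submodule ℝ E} {J : Fin d → E →L[ℝ] E} (h : Cliff W J)
    (i : Fin d) (x : E) : J i (W.starProjection x) = J i x := by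
  have h1 := h.norm_eq i (x - W.starProjection x)
  rw [map_sub W.starProjection,
    Submodule.starProjection_eq_self_iff.2 (W.starProjection_apply_mem x), sub_self, norm_zero,
    norm_eq_zero, map_sub] at h1
  exact (sub_eq_zero.1 h1).symm

theorem Cliff.gen {d : ℕ} {W : Submodule ℝ E} {J : Fin d → E →L[ℝ] E} (h : Cliff W J)
    (i : Fin d) : Gen (J i) :=
  ⟨h.skew i, fun x => by rw [h.sq i x, map_neg, h.apply_proj]⟩

theorem str_cliff {d : ℕ} {W : Submodule ℝ E} {J : Fin d → E →L[ℝ] E} (hJ : Cliff W J) {d' : ℕ}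
    (hd : d' ≤ d) {A : E →L[ℝ] E} {x y : E} (hx : W.starProjection x ≠ 0)
    (h : ∀ i, A (J i x) = J i y) : Str d' A (W.starProjection x) (W.starProjection y) := by
  have a0 : 0 < ‖W.starProjection x‖ := norm_pos_iff.2 hx
  have e1 : ∀ i z, ⟪J i z, W.starProjection z⟫ = 0 := fun i z => by
    rw [hJ.skew, hJ.apply_proj, (hJ.gen i).self, neg_zero]
  have e2 : Orthonormal ℝ fun i => ‖W.starProjection x‖⁻¹ • J i x := by
    refine ⟨fun i => ?_, fun i j hij => ?_⟩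
    · rw [norm_smul, hJ.norm_eq, norm_inv, norm_norm, inv_mul_cancel₀ a0.ne']
    · have k1 := hJ.skew i x (J j x)
      have k2 := hJ.skew j x (J i x)
      rw [hJ.anti i j hij, inner_neg_right, neg_neg] at k1
      rw [real_inner_comm] at k2
      simp only [real_inner_smul_left, inner_smul_right]
      rw [show ⟪J i x, J j x⟫ = 0 by linarith, mul_zero, mul_zero]
  refine ⟨_, e2.comp _ (Fin.castLE_injective hd), fun i => ⟨?_, ?_, ?_⟩⟩
  · rw [Function.comp_apply, real_inner_smul_left, e1, mul_zero]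
  · rw [Function.comp_apply, map_smul, h, real_inner_smul_left, e1, mul_zero]
  · rw [Function.comp_apply, map_smul, h, norm_smul, hJ.norm_eq, norm_inv, norm_norm,
      div_eq_inv_mul]

variable [MeasurableSpace E] [BorelSpace E] {μ : Measure E} [μ.IsAddHaarMeasure]
  {Ω : Set E} {f : E → E} {Df : E → E →L[ℝ] E}

theorem main_str (hn : 3 ≤ finrank ℝ E) (W : Submodule ℝ E) (hW : 1 ≤ finrank ℝ W)
    (h : SobOn μ Ω f Df) {K : ℝ} (hK : 1 < K)
    (hq : ∀ᵐ x ∂(μ.restrict Ω), ‖Df x‖ ^ finrank ℝ E ≤ K * (Df x).det)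
    (hs : ∀ᵐ x ∂μ, x ∈ Ω → W.starProjection x ≠ 0 → Str (max 1 (finrank ℝ E - finrank ℝ W - 1))
      (Df x) (W.starProjection x) (W.starProjection (f x)))
    {p : ℝ} (hp : p < finrank ℝ E * K / (K - 1)) {C : Set E} (hC : IsCompact C) (hCΩ : C ⊆ Ω) :
    MemLp Df (ENNReal.ofReal p) (μ.restrict C) := by
  have h1 := W.finrank_le
  have h2 : ∀ᵐ x ∂μ, W.starProjection x ≠ 0 := by
    have h3 : Wᗮ ≠ ⊤ := fun e => by
      rw [W.orthogonal_eq_top_iff.1 e, finrank_bot] at hW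
      omega
    filter_upwards [measure_eq_zero_iff_ae_notMem.1 (Measure.addHaar_submodule μ Wᗮ h3)]
      with x hx e using hx (W.starProjection_apply_eq_zero_iff.1 e)
  obtain ⟨n, hn'⟩ : ∃ n, finrank ℝ E = n + 1 := ⟨finrank ℝ E - 1, by omega⟩
  rw [hn'] at hs hp hq
  refine higher (k := finrank ℝ W) (m := n + 1 - finrank ℝ W)
    (d := max 1 (n + 1 - finrank ℝ W - 1)) (M := n - 1 - max 1 (n + 1 - finrank ℝ W - 1)) hn'
    (by omega) (by omega) (by omega) (le_max_left _ _) h ⟨_, proj_basis W⟩ hK ?_ hp hC hCΩ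
  filter_upwards [h2, hs, (ae_restrict_iff' h.op.measurableSet).1 hq] with x a1 a2 a3 hx
  exact ⟨a1, a2 hx a1, a3 hx⟩

theorem main_rot (hn : 3 ≤ finrank ℝ E) (W : Submodule ℝ E) (hW : finrank ℝ E ≤ 2 * finrank ℝ W)
    (h : SobOn μ Ω f Df) {K : ℝ} (hK : 1 < K)
    (hq : ∀ᵐ x ∂(μ.restrict Ω), ‖Df x‖ ^ finrank ℝ E ≤ K * (Df x).det)
    (he : ∀ Q : E ≃ₗᵢ[ℝ] E, LinearMap.det (Q.toLinearEquiv : E →ₗ[ℝ] E) = 1 →
      (∀ v ∈ Wᗮ, Q v = v) → ∀ x ∈ Ω, Q x ∈ Ω → f (Q x) = Q (f x))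
    {p : ℝ} (hp : p < finrank ℝ E * K / (K - 1)) {C : Set E} (hC : IsCompact C) (hCΩ : C ⊆ Ω) :
    MemLp Df (ENNReal.ofReal p) (μ.restrict C) := by
  refine main_str hn W (by omega) h hK hq ?_ hp hC hCΩ
  obtain ⟨e, h1, h2, h3⟩ : ∃ e : Fin (finrank ℝ W) → E, Orthonormal ℝ e ∧
      (∀ y, W.starProjection y = ∑ i, ⟪e i, y⟫ • e i) ∧ ∀ i, e i ∈ W :=
    ⟨_, (proj_basis W).1, (proj_basis W).2, fun i => (stdOrthonormalBasis ℝ W i).2⟩
  have h4 : ∀ i j, ∀ᵐ x ∂μ, x ∈ Ω → Df x (gen (e i) (e j) x) = gen (e i) (e j) (f x) :=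
    fun i j => by
      rcases eq_or_ne i j with rfl | hij
      · exact Eventually.of_forall fun x _ => by rw [gen_self, gen_self, map_zero]
      have g := gen_gen (h1.1 i) (h1.1 j) (h1.2 hij)
      refine infinitesimal (by omega) g h fun t => he (g.iso t) (g.det_rot t) fun v hv => ?_
      have : gen (e i) (e j) v = 0 := by
        rw [gen_apply, hv _ (h3 i), hv _ (h3 j), zero_smul, zero_smul, sub_zero]
      rw [g.iso_apply, rot_apply, this, map_zero, smul_zero, smul_zero, add_zero, add_zero]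
  filter_upwards [ae_all_iff.2 fun i => ae_all_iff.2 (h4 i)] with x hx hxΩ h0
  refine str_rot W (by omega) h0 fun a ha b hb => ?_
  rw [← Submodule.starProjection_eq_self_iff.2 ha, ← Submodule.starProjection_eq_self_iff.2 hb,
    h2 a, h2 b, gen_sum, gen_sum]
  simp only [map_sum, map_smul, fun i j => hx i j hxΩ]

theorem main_cliff (hn : 3 ≤ finrank ℝ E) (W : Submodule ℝ E) {d : ℕ} {J : Fin d → E →L[ℝ] E}
    (hJ : Cliff W J) (hd : 1 ≤ d) (hW : W ≠ ⊥) (hW' : finrank ℝ E ≤ finrank ℝ W + d + 1)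
    (h : SobOn μ Ω f Df) {K : ℝ} (hK : 1 < K)
    (hq : ∀ᵐ x ∂(μ.restrict Ω), ‖Df x‖ ^ finrank ℝ E ≤ K * (Df x).det)
    (he : ∀ i t, ∀ x ∈ Ω, rot (J i) t x ∈ Ω → f (rot (J i) t x) = rot (J i) t (f x))
    {p : ℝ} (hp : p < finrank ℝ E * K / (K - 1)) {C : Set E} (hC : IsCompact C) (hCΩ : C ⊆ Ω) :
    MemLp Df (ENNReal.ofReal p) (μ.restrict C) := by
  refine main_str hn W (Submodule.one_le_finrank_iff.2 hW) h hK hq ?_ hp hC hCΩ
  filter_upwards [ae_all_iff.2 fun i => infinitesimal (by omega) (hJ.gen i) h (he i)]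
    with x hx hxΩ h0
  exact str_cliff hJ (by omega) h0 fun i => hx i hxΩ

theorem isLUB_of {n : ℕ} (hn : 1 ≤ n) {K : ℝ} (hK : 1 < K) {Q : ℝ → Prop}
    (h1 : ∀ p, p < n * K / (K - 1) → Q p) (h2 : ∀ p, 0 < p → Q p → p < n * K / (K - 1)) :
    IsLUB {p : ℝ | (n : ℝ) ≤ p ∧ Q p} (n * K / (K - 1)) := by
  have n1 : (1 : ℝ) ≤ n := by exact_mod_cast hn
  have h3 : (n : ℝ) < n * K / (K - 1) := by
    rw [lt_div_iff₀ (by linarith)]
    linarith
  refine ⟨fun p hp => (h2 p (by linarith [hp.1]) hp.2).le, fun b hb => ?_⟩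
  refine le_of_forall_lt fun c hc => ?_
  obtain ⟨p, p1, p2⟩ := exists_between (max_lt h3 hc)
  exact (le_max_right _ _).trans_lt (p1.trans_le (hb ⟨(le_max_left _ _).trans p1.le, h1 p p2⟩))

omit [FiniteDimensional ℝ E] [MeasurableSpace E] [BorelSpace E] in
theorem rad_iso (a : ℝ) (Q : E ≃ₗᵢ[ℝ] E) (x : E) : rad a 0 (Q x) = Q (rad a 0 x) := by
  rw [rad, rad, Q.norm_map, map_smul]

end Pool.Agent.MP_29b5d3_an.h48
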