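import Mathlib

/-! Circles of rotations. -/

set_option autoImplicit false

namespace Pool.Agent.MP_29b5d3_an.h48

variable {E : Type} [NormedAddCommGroup E] [InnerProductSpace ℝ E]

/-- `J 1, ..., J d` are skew-symmetric, `(J i)^2` is minus the orthogonal projection on `W`, and
`J i`, `J j` anticommute for `i ≠ j`. -/
def IsCliffordSystem [FiniteDimensional ℝ E] {d : ℕ} (W : Submodule ℝ E)
    (J : Fin d → (E →L[ℝ] E)) : Prop :=
  (∀ i x y, inner ℝ (J i x) y = -inner ℝ x (J i y)) ∧
    (∀ i x, J i (J i x) = -W.starProjection x) ∧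
    ∀ i j, i ≠ j → ∀ x, J i (J j x) = -J j (J i x)

/-- The map `1 + sin t J + (1 - cos t) J^2`, which is `exp (t J)` when `J^3 = -J`. -/
noncomputable def circleRot (J : E →L[ℝ] E) (t : ℝ) (x : E) : E :=
  x + Real.sin t • J x + (1 - Real.cos t) • J (J x)

end Pool.Agent.MP_29b5d3_an.h48
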