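import Mathlib.Analysis.Distribution.AEEqOfIntegralContDiff
import Pool.Agent.MP_29b5d3_an.h48.Radial

/-! The infinitesimal form of the invariance under a circle of rotations. -/

set_option autoImplicit false

namespace Pool.Agent.MP_29b5d3_an.h48

open Module MeasureTheory Metric Filter Topology
open scoped RealInnerProductSpace

variable {E : Type*} [NormedAddCommGroup E] [InnerProductSpace ℝ E]

/-- the rotation by the angle `t` -/
noncomputable def rot (ξ : E →L[ℝ] E) (t : ℝ) : E →L[ℝ] E :=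
  ContinuousLinearMap.id ℝ E + Real.sin t • ξ + (1 - Real.cos t) • ξ.comp ξ

theorem rot_apply (ξ : E →L[ℝ] E) (t : ℝ) (x : E) :
    rot ξ t x = x + Real.sin t • ξ x + (1 - Real.cos t) • ξ (ξ x) := rfl

/-- generators of circle actions with unit speed -/
structure Gen (ξ : E →L[ℝ] E) : Prop where
  skew : ∀ x y, ⟪ξ x, y⟫ = -⟪x, ξ y⟫
  cube : ∀ x, ξ (ξ (ξ x)) = -ξ x

variable {ξ : E →L[ℝ] E}

theorem Gen.self (h : Gen ξ) (x : E) : ⟪x, ξ x⟫ = 0 := by
  have := h.skew x x
  rw [real_inner_comm] at this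
  linarith

theorem rot_zero (ξ : E →L[ℝ] E) (x : E) : rot ξ 0 x = x := by simp [rot_apply]

theorem Gen.rot_add (h : Gen ξ) (s t : ℝ) (x : E) : rot ξ s (rot ξ t x) = rot ξ (s + t) x := by
  simp only [rot_apply, map_add, map_smul, h.cube, map_neg, Real.sin_add, Real.cos_add]
  module

theorem Gen.norm_rot (h : Gen ξ) (t : ℝ) (x : E) : ‖rot ξ t x‖ = ‖x‖ := by
  have h1 : ∀ y, ⟪rot ξ t x, y⟫ = ⟪x, rot ξ (-t) y⟫ := fun y => by
    simp only [rot_apply, inner_add_left, inner_add_right, real_inner_smul_left,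
      real_inner_smul_right, h.skew, Real.sin_neg, Real.cos_neg]
    ring
  have h2 := h1 (rot ξ t x)
  rw [h.rot_add, neg_add_cancel, rot_zero, real_inner_self_eq_norm_sq,
    real_inner_self_eq_norm_sq] at h2
  exact (sq_eq_sq₀ (norm_nonneg _) (norm_nonneg _)).1 h2

/-- the rotation as an isometry -/
noncomputable def Gen.iso (h : Gen ξ) (t : ℝ) : E ≃ₗᵢ[ℝ] E where
  toLinearEquiv := LinearEquiv.ofLinearMap (rot ξ t : E →ₗ[ℝ] E) (rot ξ (-t) : E →ₗ[ℝ] E)
    (by ext x; simp [h.rot_add, rot_zero]) (by ext x; simp [h.rot_add, rot_zero])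
  norm_map' := h.norm_rot t

theorem Gen.iso_apply (h : Gen ξ) (t : ℝ) (x : E) : h.iso t x = rot ξ t x := rfl

theorem hasDerivAt_rot (ξ : E →L[ℝ] E) (x : E) (t : ℝ) :
    HasDerivAt (fun t => rot ξ t x) (Real.cos t • ξ x + Real.sin t • ξ (ξ x)) t := by
  have h := (((Real.hasDerivAt_sin t).smul_const (ξ x)).const_add x).fun_add
    (((Real.hasDerivAt_cos t).const_sub 1).smul_const (ξ (ξ x)))
  rw [neg_neg] at h
  exact h

variable [FiniteDimensional ℝ E]

theorem Gen.det_rot (h : Gen ξ) (t : ℝ) : (rot ξ t).det = 1 := by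
  have h1 : ∀ s t, (rot ξ s).det * (rot ξ t).det = (rot ξ (s + t)).det := fun s t => by
    simp only [ContinuousLinearMap.det]
    rw [← LinearMap.det_comp]
    congr 1
    ext x
    simp [h.rot_add]
  have h2 : ∀ s, |(rot ξ s).det| ≤ 1 := fun s => (abs_det_le _).trans
    (pow_le_one₀ (norm_nonneg _) (ContinuousLinearMap.opNorm_le_bound _ zero_le_one fun x => by
      rw [h.norm_rot, one_mul]))
  have h3 : (rot ξ 0).det = 1 := by
    rw [show rot ξ 0 = ContinuousLinearMap.id ℝ E from ContinuousLinearMap.ext (rot_zero ξ)]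
    simp [ContinuousLinearMap.det]
  have h4 := h1 (t / 2) (-(t / 2))
  have h5 := h1 (t / 2) (t / 2)
  rw [add_neg_cancel, h3] at h4
  rw [add_halves] at h5
  have h6 := abs_le.1 (h2 (t / 2))
  have h7 := abs_le.1 (h2 (-(t / 2)))
  rw [← h5]
  generalize (rot ξ (t / 2)).det = a at *
  generalize (rot ξ (-(t / 2))).det = b at *
  nlinarith [sq_nonneg (a - b)]

variable [MeasurableSpace E] [BorelSpace E] {μ : Measure E} [μ.IsAddHaarMeasure]

theorem Gen.integral_rot (h : Gen ξ) (t : ℝ) (g : E → E) :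
    ∫ x, g (rot ξ t x) ∂μ = ∫ x, g x ∂μ := by
  have h1 : LinearMap.det (rot ξ t : E →ₗ[ℝ] E) = 1 := h.det_rot t
  have h2 := Measure.map_linearMap_addHaar_eq_smul_addHaar μ (f := (rot ξ t : E →ₗ[ℝ] E))
    (by rw [h1]; exact one_ne_zero)
  rw [h1, inv_one, abs_one, ENNReal.ofReal_one, one_smul] at h2
  exact MeasurePreserving.integral_comp (f := h.iso t) ⟨(h.iso t).continuous.measurable, h2⟩
    (h.iso t).toHomeomorph.measurableEmbedding g

variable {F : E → E} {G : E → E →L[ℝ] E}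

theorem parts (hξ : Gen ξ) (h : Sob μ F G) {φ : E → ℝ}
    (h1 : ContDiff ℝ ((⊤ : ℕ∞) : WithTop ℕ∞) φ) (h2 : HasCompactSupport φ) :
    Integrable (fun x => φ x • G x (ξ x)) μ ∧
      ∫ x, fderiv ℝ φ x (ξ x) • F x ∂μ = -∫ x, φ x • G x (ξ x) ∂μ := by
  let b := stdOrthonormalBasis ℝ E
  let L : Fin (finrank ℝ E) → E →L[ℝ] ℝ := fun i => (innerSL ℝ (b i)).comp ξ
  have h3 : ContDiff ℝ 1 φ := h1.of_le (by simp)
  have k := fun i => h.weak (fun x => φ x * L i x) (h1.mul (L i).contDiff) h2.mul_right (b i)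
  have e : ∀ i x, fderiv ℝ (fun x => φ x * L i x) x (b i) = L i x * fderiv ℝ φ x (b i) :=
    fun i x => by
      rw [((h3.differentiable one_ne_zero x).hasFDerivAt.fun_mul (L i).hasFDerivAt).fderiv]
      simp [L, hξ.self]
  have e1 : ∀ x, ξ x = ∑ i, L i x • b i := fun x => (b.sum_repr' (ξ x)).symm
  have j1 : ∀ i, Continuous fun x => L i x * fderiv ℝ φ x (b i) := fun i =>
    (L i).continuous.mul ((h3.continuous_fderiv one_ne_zero).clm_apply continuous_const)
  have i1 : ∀ i, Integrable (fun x => (L i x * fderiv ℝ φ x (b i)) • F x) μ := fun i =>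
    ((j1 i).smul h.cont).integrable_of_hasCompactSupport
      (h.supp.smul_left (f := fun x => L i x * fderiv ℝ φ x (b i)))
  have i2 : ∀ i, Integrable (fun x => (φ x * L i x) • G x (b i)) μ := fun i => by
    have i4 := (h.loc.integrable_smul_left_of_hasCompactSupport (g := fun x => φ x * L i x)
      (h3.continuous.mul (L i).continuous) h2.mul_right).apply_continuousLinearMap (b i)
    simpa only [smul_apply] using i4
  have e2 : ∀ x, φ x • G x (ξ x) = ∑ i, (φ x * L i x) • G x (b i) := fun x => by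
    rw [e1 x, map_sum, Finset.smul_sum]
    simp only [map_smul, smul_smul]
  have e3 : ∀ x, fderiv ℝ φ x (ξ x) • F x = ∑ i, (L i x * fderiv ℝ φ x (b i)) • F x := fun x => by
    rw [e1 x, map_sum, Finset.sum_smul]
    simp only [map_smul, smul_eq_mul]
  simp only [e] at k
  simp only [e2, e3]
  refine ⟨integrable_finsetSum _ fun i _ => i2 i, ?_⟩
  rw [integral_finsetSum _ fun i _ => i1 i, integral_finsetSum _ fun i _ => i2 i,
    ← Finset.sum_neg_distrib]
  exact Finset.sum_congr rfl fun i _ => k i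

theorem deriv_rot (hF : Continuous F) (hc : HasCompactSupport F) {φ : E → ℝ}
    (h1 : ContDiff ℝ 1 φ) (h2 : HasCompactSupport φ) :
    HasDerivAt (fun t => ∫ x, φ (rot ξ t x) • F x ∂μ) (∫ x, fderiv ℝ φ x (ξ x) • F x ∂μ) 0 := by
  have cD := h1.continuous_fderiv one_ne_zero
  obtain ⟨D, hD⟩ := cD.bounded_above_of_compact_support (h2.fderiv ℝ)
  have c1 : ∀ t, Continuous fun x => φ (rot ξ t x) • F x := fun t =>
    (h1.continuous.comp (rot ξ t).continuous).smul hF
  have c2 : Continuous fun x => D * (‖ξ x‖ + ‖ξ (ξ x)‖) * ‖F x‖ := by fun_prop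
  have h := hasDerivAt_integral_of_dominated_loc_of_deriv_le (μ := μ) (x₀ := (0 : ℝ))
    (F := fun t x => φ (rot ξ t x) • F x)
    (F' := fun t x => fderiv ℝ φ (rot ξ t x) (Real.cos t • ξ x + Real.sin t • ξ (ξ x)) • F x)
    (bound := fun x => D * (‖ξ x‖ + ‖ξ (ξ x)‖) * ‖F x‖) univ_mem
    (Eventually.of_forall fun t => (c1 t).aestronglyMeasurable)
    ((c1 0).integrable_of_hasCompactSupport (hc.smul_left (f := fun x => φ (rot ξ 0 x))))
    (Continuous.aestronglyMeasurable (by fun_prop))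
    (Eventually.of_forall fun x t _ => by
      rw [norm_smul]
      gcongr
      refine (ContinuousLinearMap.le_opNorm _ _).trans ?_
      have D0 : 0 ≤ D := (norm_nonneg _).trans (hD 0)
      gcongr
      · exact hD _
      · refine (norm_add_le _ _).trans ?_
        rw [norm_smul, norm_smul]
        exact add_le_add (mul_le_of_le_one_left (norm_nonneg _) (Real.abs_cos_le_one t))
          (mul_le_of_le_one_left (norm_nonneg _) (Real.abs_sin_le_one t)))
    (c2.integrable_of_hasCompactSupport hc.norm.mul_left)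
    (Eventually.of_forall fun x t _ => ((h1.differentiable one_ne_zero _).hasFDerivAt.comp_hasDerivAt
      t (hasDerivAt_rot ξ x t)).smul_const (F x))
  simpa [rot_zero] using h.2

variable {Ω : Set E} {f : E → E} {Df : E → E →L[ℝ] E}

theorem infinitesimal (hn : 1 ≤ finrank ℝ E) (hξ : Gen ξ) (h : SobOn μ Ω f Df)
    (he : ∀ t, ∀ x ∈ Ω, rot ξ t x ∈ Ω → f (rot ξ t x) = rot ξ t (f x)) :
    ∀ᵐ x ∂μ, x ∈ Ω → Df x (ξ x) = ξ (f x) := by
  have n1 : (1 : ENNReal) ≤ finrank ℝ E := by exact_mod_cast hn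
  have l1 : LocallyIntegrableOn (fun x => Df x (ξ x) - ξ (f x)) Ω μ := by
    refine (locallyIntegrableOn_iff h.op.isLocallyClosed).2 fun C hCΩ hC => ?_
    have : IsFiniteMeasure (μ.restrict C) := isFiniteMeasure_restrict.2 hC.measure_lt_top.ne
    have i1 := (h.lp C hC hCΩ).integrable n1
    obtain ⟨R, hR⟩ := hC.exists_bound_of_continuousOn ξ.continuous.continuousOn
    refine Integrable.sub ((i1.norm.mul_const R).mono' ?_ ?_)
      ((ξ.continuous.comp_continuousOn (h.cont.mono hCΩ)).integrableOn_compact hC)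
    · exact (isBoundedBilinearMap_apply (𝕜 := ℝ) (E := E) (F := E)).continuous.comp_aestronglyMeasurable
        (i1.1.prodMk ξ.continuous.aestronglyMeasurable)
    · filter_upwards [ae_restrict_mem hC.measurableSet] with x hx
      exact ((Df x).le_opNorm _).trans (by gcongr; exact hR x hx)
  refine (h.op.ae_eq_zero_of_integral_contDiff_smul_eq_zero l1 fun φ h1 h2 h3 => ?_).mono
    fun x hx hxΩ => sub_eq_zero.1 (hx hxΩ)
  obtain ⟨F, G, hF, hFG⟩ := globalize hn h h2.isCompact h3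
  have e := fun x (hx : x ∈ tsupport φ) => hFG.self_of_nhdsSet x hx
  have h4 : ContDiff ℝ 1 φ := h1.of_le (by simp)
  obtain ⟨i1, k1⟩ := parts hξ hF h1 h2
  have i2 : Integrable (fun x => φ x • F x) μ :=
    hF.cont.locallyIntegrable.integrable_smul_left_of_hasCompactSupport h4.continuous h2
  have k2 := deriv_rot (μ := μ) (ξ := ξ) hF.cont hF.supp h4 h2
  have k3 : ∀ᶠ t in 𝓝 (0 : ℝ), ∀ x ∈ tsupport φ,
      F (rot ξ (-t) x) = f (rot ξ (-t) x) ∧ rot ξ (-t) x ∈ Ω := by
    refine h2.isCompact.eventually_forall_of_forall_eventually fun x hx => ?_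
    have c : Tendsto (fun z : ℝ × E => rot ξ (-z.1) z.2) (𝓝 (0, x)) (𝓝 x) := by
      refine Continuous.tendsto' ?_ _ _ (by simp [rot_zero])
      simp only [rot_apply]
      fun_prop
    exact c.eventually (((eventually_nhdsSet_iff_forall.1 hFG x hx).mono fun y hy => hy.1).and
      (h.op.mem_nhds (h3 hx)))
  have k4 : (fun t => ∫ x, φ (rot ξ t x) • F x ∂μ) =ᶠ[𝓝 0]
      fun t => rot ξ (-t) (∫ x, φ x • F x ∂μ) := by
    filter_upwards [k3] with t ht
    rw [← hξ.integral_rot (-t), ← ContinuousLinearMap.integral_comp_comm _ i2]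
    refine integral_congr_ae (Eventually.of_forall fun x => ?_)
    simp only [hξ.rot_add, add_neg_cancel, rot_zero, map_smul]
    by_cases hx : x ∈ tsupport φ
    · rw [(ht x hx).1, he _ x (h3 hx) (ht x hx).2, (e x hx).1]
    · simp [image_eq_zero_of_notMem_tsupport hx]
  have k5 : HasDerivAt (fun t => rot ξ (-t) (∫ x, φ x • F x ∂μ)) (-ξ (∫ x, φ x • F x ∂μ)) 0 := by
    have := (hasDerivAt_rot ξ (∫ x, φ x • F x ∂μ) (-0)).scomp (0 : ℝ) (hasDerivAt_neg (0 : ℝ))
    simpa [Function.comp_def] using this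
  have k6 := k2.unique (k5.congr_of_eventuallyEq k4)
  rw [k1, neg_inj, ← ContinuousLinearMap.integral_comp_comm _ i2] at k6
  have e1 : ∀ x, φ x • (Df x (ξ x) - ξ (f x)) = φ x • G x (ξ x) - ξ (φ x • F x) := fun x => by
    by_cases hx : x ∈ tsupport φ
    · rw [(e x hx).1, (e x hx).2, map_smul, smul_sub]
    · simp [image_eq_zero_of_notMem_tsupport hx]
  simp only [e1]
  rw [integral_sub i1 (ξ.integrable_comp i2), k6, sub_self]

end Pool.Agent.MP_29b5d3_an.h48
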